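import Pool.Agent.MP_b64966_al.PG.Defs

namespace Pool.Agent.MP_b64966_al.PG

open Module

universe u

/-- generator (junk value 1 out of range) -/
def sg (N i : ℕ) : BraidGroup N :=
  if h : i < N - 1 then PresentedGroup.of ⟨i, h⟩ else 1

/-- descending product `σ_{k-1} ⋯ σ_j` -/
def dsc (N j : ℕ) : ℕ → BraidGroup N
  | 0 => 1
  | k + 1 => if j ≤ k then sg N k * dsc N j k else 1

/-- the pure generator `A_{ik}`, `i < k` -/
def A (N i k : ℕ) : BraidGroup N := dsc N (i + 1) k * sg N i ^ 2 * (dsc N (i + 1) k)⁻¹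

/-- braids on the first `n` strands -/
def Bs (N n : ℕ) : Subgroup (BraidGroup N) := Subgroup.closure {g | ∃ i, i + 1 < n ∧ g = sg N i}

def Ps (N n : ℕ) : Subgroup (BraidGroup N) := Bs N n ⊓ PureBraid N

/-- strand `k` moving around the strands `0, …, k-1` -/
def Fs (N k : ℕ) : Subgroup (BraidGroup N) := Subgroup.closure {g | ∃ j, j < k ∧ g = A N j k}

section
variable {G : Type*} [Group G] {K : Type*} [Field K] {V : Type*} [AddCommGroup V] [Module K V]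

def IsRep (H : Subgroup G) (R : G → End K V) : Prop :=
  R 1 = 1 ∧ ∀ a ∈ H, ∀ b ∈ H, R (a * b) = R a * R b

def PF (F : Subgroup G) (R : G → End K V) : Prop :=
  ∀ f ∈ F, (∃ c : K, R f = c • (1 : End K V)) → f = 1

def Irr (H : Subgroup G) (R : G → End K V) : Prop :=
  ∀ U : Submodule K V, (∀ g ∈ H, ∀ v ∈ U, R g v ∈ U) → U = ⊥ ∨ U = ⊤

def PrimeGp (F : Subgroup G) : Prop :=
  ∀ a ∈ F, ∀ b ∈ F, a ≠ 1 → b ≠ 1 → ∃ e ∈ F, ¬ Commute a (e * b * e⁻¹)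

def tw {α : Type*} (g : G) (R : G → α) : G → α := fun b => R (g * b * g⁻¹)

def Nn (R : G → End K V) (lam : G → K) (c : G) : End K V := R c - lam c • (1 : End K V)

def K3 (R : G → End K V) (lam : G → K) (c p q : G) : Prop :=
  (R p * R q - R q * R p) * Nn R lam c = 0

structure Good {N : ℕ} (M : ℕ) (R : BraidGroup N → End K V) (lam : BraidGroup N → K) : Prop where
  rep : IsRep (Ps N M) R
  irr : Irr (Ps N M) R
  pf : PF (Fs N (M - 1)) R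
  lam0 : ∀ a, lam a ≠ 0
  lamc : ∀ p ∈ Ps N M, ∀ a ∈ Ps N M, lam (p * a * p⁻¹) = lam a
  h1 : ∀ g ∈ Bs N M, K3 (tw g R) (tw g lam) (A N 0 1) (A N 2 3) (A N 3 4)
  h2 : ∀ g ∈ Bs N M, K3 (tw g R) (tw g lam) (A N 0 1) (A N 2 3) (A N 0 2 * A N 1 2)

def TypeA {N : ℕ} (M : ℕ) (R : BraidGroup N → End K V) (lam : BraidGroup N → K) : Prop :=
  ∀ g ∈ Bs N M, Nn (tw g R) (tw g lam) (A N 0 1) * Nn (tw g R) (tw g lam) (A N 2 3) = 0

def Cyc (l i j : ℕ) : Prop := (l < i ∧ i < j) ∨ (i < j ∧ j < l) ∨ (j < l ∧ l < i)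

structure Star (k : ℕ) (X : ℕ → End K V) (Z : ℕ → ℕ → End K V) : Prop where
  xu : ∀ j < k, IsUnit (X j)
  zu : ∀ i < k, ∀ j < k, i ≠ j → IsUnit (Z i j)
  zs : ∀ i j, Z i j = Z j i
  n0 : ∀ j < k, X j ≠ 1
  z1 : ∀ i < k, ∀ j < k, i ≠ j → Commute (Z i j) (X i)
  z2 : ∀ l < k, ∀ i < k, ∀ j < k, Cyc l i j →
    Z i j * (X l - 1) = X i * X j * (X l - 1) ∧ (X l - 1) * Z i j = (X l - 1) * X i * X j
  y1 : ∀ q < k, ∀ i < k, ∀ j < k, q ≠ i → q ≠ j → i ≠ j →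
    (Z q i * Z q j - Z q j * Z q i) * (X q - 1) = 0
  irr : ∀ U : Submodule K V, (∀ j < k, ∀ v ∈ U, X j v ∈ U) →
    (∀ i < k, ∀ j < k, i ≠ j → ∀ v ∈ U, Z i j v ∈ U) → U = ⊥ ∨ U = ⊤

def gam (t : ℕ → Kˣ) (μ : Kˣ) (a b : ℕ) : K :=
  if a < b then ((t a)⁻¹ : Kˣ) * (1 - (t b : K))
  else if a = b then (μ : K) * ((t a)⁻¹ : Kˣ) - 1
  else (μ : K) * ((t a)⁻¹ : Kˣ) * (1 - (t b : K))

def NF (k : ℕ) (X : ℕ → End K V) (t : ℕ → Kˣ) (μ : Kˣ) (v : ℕ → V) : Prop :=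
  ∀ a < k, ∀ b < k, X a (v b) = v b + gam t μ a b • v a

/-- normalised star operators of the tuple `g⁻¹ A_{ak} g` -/
def Xg {N : ℕ} (k : ℕ) (R : BraidGroup N → End K V) (lam : BraidGroup N → K)
    (g : BraidGroup N) (a : ℕ) : End K V :=
  (lam (g⁻¹ * A N a k * g))⁻¹ • R (g⁻¹ * A N a k * g)

end

end Pool.Agent.MP_b64966_al.PG
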