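import Pool.Agent.MP_b64966_al.Defs

namespace Pool.Agent.MP_b64966_al.PG

/-- The homomorphism from the braid group defined by a family satisfying the Artin relations. -/
def braidLift {G : Type*} [Group G] (s : ℕ → G)
    (h1 : ∀ i, s i * s (i + 1) * s i = s (i + 1) * s i * s (i + 1))
    (h2 : ∀ i j, i + 2 ≤ j → s i * s j = s j * s i) (n : ℕ) : BraidGroup n →* G :=
  PresentedGroup.toGroup (f := fun i : Fin (n - 1) => s i) (by
    rintro r (⟨i, j, hij, rfl⟩ | ⟨i, j, hij, rfl⟩)
    · simp only [map_mul, map_inv, FreeGroup.lift_apply_of, mul_inv_eq_one, ← hij]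
      exact h1 i
    · simp only [map_mul, map_inv, FreeGroup.lift_apply_of, mul_inv_eq_one]
      exact h2 i j hij)

theorem swap_braid (i : ℕ) :
    Equiv.swap i (i + 1) * Equiv.swap (i + 1) (i + 1 + 1) * Equiv.swap i (i + 1) =
      Equiv.swap (i + 1) (i + 1 + 1) * Equiv.swap i (i + 1) * Equiv.swap (i + 1) (i + 1 + 1) := by
  ext x
  simp only [Equiv.Perm.mul_apply, Equiv.swap_apply_def]
  split_ifs <;> omega

theorem swap_far (i j : ℕ) (h : i + 2 ≤ j) :
    Equiv.swap i (i + 1) * Equiv.swap j (j + 1) = Equiv.swap j (j + 1) * Equiv.swap i (i + 1) := by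
  ext x
  simp only [Equiv.Perm.mul_apply, Equiv.swap_apply_def]
  split_ifs <;> omega

/-- The permutation of the strands `0, …, n-1` induced by a braid (all `j ≥ n` are fixed). -/
def permHom (n : ℕ) : BraidGroup n →* Equiv.Perm ℕ :=
  braidLift (fun i => Equiv.swap i (i + 1)) swap_braid swap_far n

/-- The pure braid group. -/
def PureBraid (n : ℕ) : Subgroup (BraidGroup n) := (permHom n).ker

section

variable (K V : Type*) [CommRing K] [AddCommGroup V] [Module K V]

/-- The generator `σ_i` acting on pairs (colours `t`, vector `v`): the colours `t_i`, `t_{i+1}`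
are exchanged and `(v_i, v_{i+1})` is multiplied by the matrix with rows `(1 - t_{i+1}, t_i)`
and `(1, 0)`. -/
def step (i : ℕ) : Equiv.Perm ((ℕ → Kˣ) × (ℕ → V)) where
  toFun p := (p.1 ∘ Equiv.swap i (i + 1), fun j =>
    if j = i then (1 - (p.1 (i + 1) : K)) • p.2 i + (p.1 i : K) • p.2 (i + 1)
    else if j = i + 1 then p.2 i else p.2 j)
  invFun p := (p.1 ∘ Equiv.swap i (i + 1), fun j =>
    if j = i then p.2 (i + 1)
    else if j = i + 1 then
      (((p.1 (i + 1))⁻¹ : Kˣ) : K) • (p.2 i - (1 - (p.1 i : K)) • p.2 (i + 1))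
    else p.2 j)
  left_inv p := by
    refine Prod.ext (funext fun j => by simp) (funext fun j => ?_)
    by_cases h1 : j = i
    · simp [h1]
    · by_cases h2 : j = i + 1
      · simp [h2, smul_smul]
      · simp [h1, h2]
  right_inv p := by
    refine Prod.ext (funext fun j => by simp) (funext fun j => ?_)
    by_cases h1 : j = i
    · simp [h1, smul_smul]
    · by_cases h2 : j = i + 1
      · simp [h2]
      · simp [h1, h2]

theorem step_fst (i : ℕ) (p : (ℕ → Kˣ) × (ℕ → V)) :
    (step K V i p).1 = p.1 ∘ Equiv.swap i (i + 1) := rfl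

theorem step_snd (i : ℕ) (p : (ℕ → Kˣ) × (ℕ → V)) (j : ℕ) :
    (step K V i p).2 j =
      if j = i then (1 - (p.1 (i + 1) : K)) • p.2 i + (p.1 i : K) • p.2 (i + 1)
      else if j = i + 1 then p.2 i else p.2 j := rfl

theorem step_braid (i : ℕ) :
    step K V i * step K V (i + 1) * step K V i =
      step K V (i + 1) * step K V i * step K V (i + 1) := by
  ext1 p
  refine Prod.ext (funext fun j => ?_) (funext fun j => ?_)
  · have := congrArg (fun w : Equiv.Perm ℕ => p.1 (w j)) (swap_braid i)
    exact this
  · have e1 : i + 1 + 1 ≠ i := by omega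
    have e2 : i ≠ i + 1 + 1 := by omega
    have e3 : i + 1 ≠ i := by omega
    have e4 : i ≠ i + 1 := by omega
    have e5 : i + 1 + 1 ≠ i + 1 := by omega
    have e6 : i + 1 ≠ i + 1 + 1 := by omega
    simp only [Equiv.Perm.mul_apply, step_snd, step_fst, Function.comp_apply,
      Equiv.swap_apply_def]
    by_cases h1 : j = i
    · simp only [h1, e1, e2, e3, e4, e5, e6, if_true, if_false]
      module
    · by_cases h2 : j = i + 1
      · simp only [h2, e1, e2, e3, e4, e5, e6, if_true, if_false]
      · by_cases h3 : j = i + 1 + 1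
        · simp only [h3, e1, e2, e3, e4, e5, e6, if_true, if_false]
        · simp only [h1, h2, h3, if_false]

theorem step_far (i j : ℕ) (h : i + 2 ≤ j) :
    step K V i * step K V j = step K V j * step K V i := by
  ext1 p
  refine Prod.ext (funext fun l => ?_) (funext fun l => ?_)
  · have := congrArg (fun w : Equiv.Perm ℕ => p.1 (w l)) (swap_far i j h)
    exact this.symm
  · have e1 : i ≠ j := by omega
    have e2 : i ≠ j + 1 := by omega
    have e3 : i + 1 ≠ j := by omega
    have e4 : j ≠ i := by omega
    have e5 : j ≠ i + 1 := by omega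
    have e6 : j + 1 ≠ i := by omega
    simp only [Equiv.Perm.mul_apply, step_snd, step_fst, Function.comp_apply,
      Equiv.swap_apply_def]
    split_ifs <;> first | rfl | omega

/-- The action of the braid group on pairs (colours, vector). -/
def act (n : ℕ) : BraidGroup n →* Equiv.Perm ((ℕ → Kˣ) × (ℕ → V)) :=
  braidLift (step K V) (step_braid K V) (step_far K V) n

end

/-- The ring of Laurent polynomials over `ℤ` in the variables `t_0, t_1, …`. -/
abbrev Laurent : Type := AddMonoidAlgebra ℤ (ℕ →₀ ℤ)

/-- The variable `t_i`, as a unit. -/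
noncomputable def var (i : ℕ) : Laurentˣ :=
  (AddMonoidAlgebra.of ℤ (ℕ →₀ ℤ)).toHomUnits (Multiplicative.ofAdd (Finsupp.single i 1))

/-- The Gassner representation of the pure braid group on `n` strands is faithful: a pure braid
whose Gassner matrix is the identity is trivial. -/
def GassnerFaithful (n : ℕ) : Prop :=
  ∀ β ∈ PureBraid n, (∀ v : ℕ → Laurent, (act Laurent Laurent n β (var, v)).2 = v) → β = 1

end Pool.Agent.MP_b64966_al.PG
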