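import Pool.Agent.MP_b64966_al.PG.Base

namespace Pool.Agent.MP_b64966_al.PG

open Module

universe u

variable {N : ℕ}
variable {K : Type u} [Field K] {V : Type u} [AddCommGroup V] [Module K V]

section Rowg1
theorem sg_braid {i : ℕ} (h : i + 2 < N) :
    sg N i * sg N (i + 1) * sg N i = sg N (i + 1) * sg N i * sg N (i + 1) := by
  have h1 : i < N - 1 := by omega
  have h2 : i + 1 < N - 1 := by omega
  have hr : (FreeGroup.of (⟨i, h1⟩ : Fin (N - 1)) * FreeGroup.of ⟨i + 1, h2⟩ *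
      FreeGroup.of ⟨i, h1⟩ * (FreeGroup.of ⟨i + 1, h2⟩ * FreeGroup.of ⟨i, h1⟩ *
      FreeGroup.of ⟨i + 1, h2⟩)⁻¹) ∈ braidRels N := Or.inl ⟨⟨i, h1⟩, ⟨i + 1, h2⟩, rfl, rfl⟩
  have := PresentedGroup.one_of_mem hr
  simp only [map_mul, map_inv, mul_inv_eq_one] at this
  simp only [sg, dif_pos h1, dif_pos h2]
  exact this

theorem sg_far {i j : ℕ} (h : i + 2 ≤ j) : Commute (sg N i) (sg N j) := by
  by_cases h2 : j < N - 1
  · have h1 : i < N - 1 := by omega
    have hr : (FreeGroup.of (⟨i, h1⟩ : Fin (N - 1)) * FreeGroup.of ⟨j, h2⟩ *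
        (FreeGroup.of ⟨j, h2⟩ * FreeGroup.of ⟨i, h1⟩)⁻¹) ∈ braidRels N :=
      Or.inr ⟨⟨i, h1⟩, ⟨j, h2⟩, h, rfl⟩
    have := PresentedGroup.one_of_mem hr
    simp only [map_mul, map_inv, mul_inv_eq_one] at this
    simp only [sg, dif_pos h1, dif_pos h2]
    exact this
  · have : sg N j = 1 := by simp only [sg, dif_neg h2]
    rw [this]
    exact Commute.one_right _

theorem braidLift_sg {G : Type*} [Group G] (s : ℕ → G) (h1) (h2) {i : ℕ} (h : i + 1 < N) :
    braidLift s h1 h2 N (sg N i) = s i := by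
  have h3 : i < N - 1 := by omega
  simp only [sg, dif_pos h3, braidLift]
  exact PresentedGroup.toGroup.of _

theorem hom_ext_sg {G : Type*} [Group G] {f g : BraidGroup N →* G}
    (h : ∀ i, i + 1 < N → f (sg N i) = g (sg N i)) : f = g := by
  refine PresentedGroup.ext fun x => ?_
  have hx := x.2
  have := h x.1 (by omega)
  simp only [sg, dif_pos hx] at this
  exact this

theorem perm_sg {i : ℕ} (h : i + 1 < N) : permHom N (sg N i) = Equiv.swap i (i + 1) :=
  braidLift_sg (fun i => Equiv.swap i (i + 1)) swap_braid swap_far h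

theorem Bs_top : Bs N N = ⊤ := by
  rw [eq_top_iff, ← PresentedGroup.closure_range_of (braidRels N)]
  refine Subgroup.closure_mono ?_
  rintro _ ⟨x, rfl⟩
  have hx := x.2
  exact ⟨x.1, by omega, by simp only [sg, dif_pos hx]⟩

theorem Bs_mono {m n : ℕ} (h : m ≤ n) : Bs N m ≤ Bs N n := by
  refine Subgroup.closure_mono ?_
  rintro _ ⟨i, hi, rfl⟩
  exact ⟨i, by omega, rfl⟩

theorem Ps_mono {m n : ℕ} (h : m ≤ n) : Ps N m ≤ Ps N n :=
  inf_le_inf_right _ (Bs_mono h)

theorem sg_mem {i n : ℕ} (h : i + 1 < n) : sg N i ∈ Bs N n :=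
  Subgroup.subset_closure ⟨i, h, rfl⟩

theorem conj_mem_Ps {n : ℕ} {g p : BraidGroup N} (hg : g ∈ Bs N n) (hp : p ∈ Ps N n) :
    g * p * g⁻¹ ∈ Ps N n :=
  ⟨(Bs N n).mul_mem ((Bs N n).mul_mem hg hp.1) ((Bs N n).inv_mem hg),
    (MonoidHom.normal_ker (permHom N)).conj_mem p hp.2 g⟩

theorem Bs_fix {n : ℕ} (hn : n ≤ N) {g : BraidGroup N} (hg : g ∈ Bs N n) {j : ℕ} (hj : n ≤ j) :
    permHom N g j = j := by
  induction hg using Subgroup.closure_induction with
  | mem x hx =>
    obtain ⟨i, hi, rfl⟩ := hx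
    rw [perm_sg (by omega)]
    exact Equiv.swap_apply_of_ne_of_ne (by omega) (by omega)
  | one => rw [map_one]; rfl
  | mul x y _ _ hx hy => rw [map_mul, Equiv.Perm.mul_apply, hy, hx]
  | inv x _ hx => rw [map_inv, Equiv.Perm.inv_eq_iff_eq]; exact hx.symm

theorem Bs_comm {n m : ℕ} (h : n ≤ m) {g : BraidGroup N} (hg : g ∈ Bs N n) :
    Commute g (sg N m) := by
  induction hg using Subgroup.closure_induction with
  | mem x hx =>
    obtain ⟨i, hi, rfl⟩ := hx
    exact sg_far (by omega)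
  | one => exact Commute.one_left _
  | mul x y _ _ hx hy => exact hx.mul_left hy
  | inv x _ hx => exact hx.inv_left

theorem G1_dsc_one {j k : ℕ} (h : k ≤ j) : dsc N j k = 1 := by
  cases k with
  | zero => rfl
  | succ k => simp only [dsc]; rw [if_neg (by omega)]

theorem G1_dsc_succ {j k : ℕ} (h : j ≤ k) : dsc N j (k + 1) = sg N k * dsc N j k := by
  simp only [dsc]; rw [if_pos h]

theorem G1_dsc_low {j k : ℕ} (h : j < k) : dsc N j k = dsc N (j + 1) k * sg N j := by
  induction k, h using Nat.le_induction with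
  | base => rw [G1_dsc_succ le_rfl, G1_dsc_one le_rfl, G1_dsc_one le_rfl, mul_one, one_mul]
  | succ k hk ih => rw [G1_dsc_succ (by omega), G1_dsc_succ (by omega), ih, mul_assoc]

theorem G1_dsc_mem {j k n : ℕ} (h : k < n) : dsc N j k ∈ Bs N n := by
  induction k with
  | zero => exact one_mem _
  | succ k ih =>
    by_cases hj : j ≤ k
    · rw [G1_dsc_succ hj]
      exact mul_mem (sg_mem h) (ih (by omega))
    · rw [G1_dsc_one (by omega)]
      exact one_mem _

theorem G1_comm_lo {m j : ℕ} (h : m + 2 ≤ j) (k : ℕ) : Commute (sg N m) (dsc N j k) := by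
  induction k with
  | zero => exact Commute.one_right _
  | succ k ih =>
    by_cases hj : j ≤ k
    · rw [G1_dsc_succ hj]
      exact (sg_far (by omega)).mul_right ih
    · rw [G1_dsc_one (by omega)]
      exact Commute.one_right _

theorem G1_comm_hi {m j k : ℕ} (h : k < m) : Commute (sg N m) (dsc N j k) :=
  (Bs_comm (n := k + 1) h (G1_dsc_mem (Nat.lt_succ_self k))).symm

theorem G1_shift {j m k : ℕ} (hj : j ≤ m) (h : m + 2 ≤ k) (hk : k < N) :
    sg N m * dsc N j k = dsc N j k * sg N (m + 1) := by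
  induction k, h using Nat.le_induction with
  | base =>
    have hb := sg_braid (N := N) (i := m) hk
    have hc := (G1_comm_hi (N := N) (j := j) (Nat.lt_succ_self m)).eq
    rw [G1_dsc_succ (by omega), G1_dsc_succ hj, ← mul_assoc, ← mul_assoc, hb, mul_assoc _ _ (dsc N j m),
      hc]
    simp only [mul_assoc]
  | succ k hk2 ih =>
    rw [G1_dsc_succ (by omega), ← mul_assoc, (sg_far (N := N) hk2).eq, mul_assoc, ih (by omega),
      mul_assoc]

theorem A_succ (i : ℕ) : A N i (i + 1) = sg N i ^ 2 := by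
  rw [A, G1_dsc_one le_rfl, one_mul, inv_one, mul_one]

theorem A_raise {i k : ℕ} (h : i < k) : sg N k * A N i k * (sg N k)⁻¹ = A N i (k + 1) := by
  rw [A, A, G1_dsc_succ h]
  group

theorem G1_sq {G : Type*} [Group G] {a b : G} (h : a * b * a = b * a * b) :
    b * a ^ 2 * b⁻¹ = a⁻¹ * b ^ 2 * a := by
  have e : b * a * b⁻¹ = a⁻¹ * b * a := by
    calc b * a * b⁻¹ = a⁻¹ * (a * b * a) * b⁻¹ := by group
      _ = a⁻¹ * (b * a * b) * b⁻¹ := by rw [h]
      _ = a⁻¹ * b * a := by group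
  calc b * a ^ 2 * b⁻¹ = (b * a * b⁻¹) * (b * a * b⁻¹) := by rw [sq]; group
    _ = (a⁻¹ * b * a) * (a⁻¹ * b * a) := by rw [e]
    _ = a⁻¹ * b ^ 2 * a := by rw [sq]; group

theorem G1_hur {G : Type*} [Group G] {a b : G} (h : a * b * a = b * a * b) :
    a⁻¹ * (b * a ^ 2 * b⁻¹) * a = (b * a ^ 2 * b⁻¹) * b ^ 2 * (b * a ^ 2 * b⁻¹)⁻¹ := by
  have e1 := G1_sq h
  have e2 := G1_sq h.symm
  calc a⁻¹ * (b * a ^ 2 * b⁻¹) * a = a⁻¹ * b ^ 2 * (b⁻¹ * a ^ 2 * b) * (b ^ 2)⁻¹ * a := by group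
    _ = a⁻¹ * b ^ 2 * (a * b ^ 2 * a⁻¹) * (b ^ 2)⁻¹ * a := by rw [e2]
    _ = (a⁻¹ * b ^ 2 * a) * b ^ 2 * (a⁻¹ * b ^ 2 * a)⁻¹ := by group
    _ = _ := by rw [e1]

theorem G1_conj {G : Type*} [Group G] {a E : G} (h : Commute a E) (x : G) :
    a * (E * x * E⁻¹) * a⁻¹ = E * (a * x * a⁻¹) * E⁻¹ := by
  calc a * (E * x * E⁻¹) * a⁻¹ = (a * E) * x * (a * E)⁻¹ := by group
    _ = (E * a) * x * (E * a)⁻¹ := by rw [h.eq]
    _ = _ := by group

theorem G1_A {i k : ℕ} (h : i + 1 < k) :
    A N i k = dsc N (i + 2) k * (sg N (i + 1) * sg N i ^ 2 * (sg N (i + 1))⁻¹) *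
      (dsc N (i + 2) k)⁻¹ := by
  rw [A, G1_dsc_low h]
  group

theorem A_lower {i k : ℕ} (h : i + 1 < k) (hk : k < N) :
    sg N i * A N i k * (sg N i)⁻¹ = A N (i + 1) k := by
  rw [G1_A h, G1_conj (G1_comm_lo le_rfl k), G1_sq (sg_braid (by omega)), A]
  group

theorem A_comm {i k m : ℕ} (h : i < k) (hk : k < N)
    (hm : m + 1 < i ∨ (i < m ∧ m + 1 < k) ∨ k < m) : Commute (sg N m) (A N i k) := by
  rcases hm with hm | ⟨h1, h2⟩ | hm
  · have hd := G1_comm_lo (N := N) (m := m) (j := i + 1) (by omega) k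
    exact (hd.mul_right ((sg_far (by omega)).pow_right 2)).mul_right hd.inv_right
  · have hs := G1_shift (N := N) (j := i + 1) (m := m) (k := k) h1 h2 hk
    have hc := ((sg_far (N := N) (i := i) (j := m + 1) (by omega)).pow_left 2).eq
    have e : sg N m = dsc N (i + 1) k * sg N (m + 1) * (dsc N (i + 1) k)⁻¹ := by
      rw [← hs]; group
    show sg N m * A N i k = A N i k * sg N m
    rw [e, A]
    calc _ = dsc N (i + 1) k * (sg N (m + 1) * sg N i ^ 2) * (dsc N (i + 1) k)⁻¹ := by group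
      _ = dsc N (i + 1) k * (sg N i ^ 2 * sg N (m + 1)) * (dsc N (i + 1) k)⁻¹ := by rw [hc]
      _ = _ := by group
  · have hd := G1_comm_hi (N := N) (m := m) (j := i + 1) hm
    exact (hd.mul_right ((sg_far (by omega)).symm.pow_right 2)).mul_right hd.inv_right

theorem A_hur {i k : ℕ} (h : i + 1 < k) (hk : k < N) :
    (sg N i)⁻¹ * A N i k * sg N i = A N i k * A N (i + 1) k * (A N i k)⁻¹ := by
  have e := G1_conj (G1_comm_lo (N := N) (m := i) le_rfl k).inv_left
    (sg N (i + 1) * sg N i ^ 2 * (sg N (i + 1))⁻¹)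
  rw [inv_inv, G1_hur (sg_braid (by omega))] at e
  rw [G1_A h, e, A]
  group

theorem A_mem {i k n : ℕ} (h : i < k) (hk : k < n) (hn : n ≤ N) : A N i k ∈ Ps N n := by
  refine conj_mem_Ps (G1_dsc_mem hk) ⟨pow_mem (sg_mem (by omega)) 2, ?_⟩
  show permHom N (sg N i ^ 2) = 1
  rw [map_pow, perm_sg (by omega), sq, Equiv.swap_mul_self]

theorem Fs_le {k n : ℕ} (hk : k < n) (hn : n ≤ N) : Fs N k ≤ Ps N n := by
  refine (Subgroup.closure_le _).2 ?_
  rintro _ ⟨j, hj, rfl⟩
  exact A_mem hj hk hn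
end Rowg1

section Rowemb
theorem emb_aux {r n : ℕ} (hn : n ≤ N) (S : ℕ) : ∀ φ : ℕ → ℕ,
    ∑ a ∈ Finset.range (r + 1), φ a = S → (∀ a b, a < b → b ≤ r → φ a < φ b) → φ r < n →
    ∃ g ∈ Bs N n, ∀ a b, a < b → b ≤ r → g * A N a b * g⁻¹ = A N (φ a) (φ b) := by
  induction S using Nat.strong_induction_on with
  | _ S ih =>
  intro φ hS hφ hr
  have hle : ∀ a, a ≤ r → φ a ≤ φ r := fun a ha => by
    rcases ha.lt_or_eq with h | h
    · exact (hφ a r h le_rfl).le
    · rw [h]
  by_cases hex : ∃ c m, c ≤ r ∧ φ c = m + 1 ∧ ∀ a, a < c → φ a < m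
  · obtain ⟨c, m, hc, hm, hlt⟩ := hex
    have hgt : ∀ b, c < b → b ≤ r → m + 1 < φ b := fun b h1 h2 => hm ▸ hφ c b h1 h2
    have hsum : ∑ a ∈ Finset.range (r + 1), Function.update φ c m a < S := by
      rw [← hS]
      refine Finset.sum_lt_sum (fun a _ => ?_) ⟨c, Finset.mem_range.2 (by omega), ?_⟩
      · rw [Function.update_apply]
        split_ifs with h
        · rw [h]
          omega
        · exact le_rfl
      · rw [Function.update_self]
        omega
    obtain ⟨g, hg, H⟩ := ih _ hsum (Function.update φ c m) rfl (fun a b hab hb => by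
      rw [Function.update_apply, Function.update_apply]
      split_ifs with h1 h2 h2
      · omega
      · have := hgt b (by omega) hb
        omega
      · exact hlt a (by omega)
      · exact hφ a b hab hb) (by
      rw [Function.update_apply]
      split_ifs with h
      · rw [h] at hr
        omega
      · exact hr)
    have hmn : m + 1 < n := by
      have := hle c hc
      omega
    refine ⟨sg N m * g, (Bs N n).mul_mem (sg_mem hmn) hg, fun a b hab hb => ?_⟩
    have e : sg N m * g * A N a b * (sg N m * g)⁻¹ =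
        sg N m * (g * A N a b * g⁻¹) * (sg N m)⁻¹ := by group
    have hb' : φ b < N := by
      have := hle b hb
      omega
    rw [e, H a b hab hb, Function.update_apply, Function.update_apply]
    split_ifs with h1 h2 h2
    · omega
    · rw [h1, hm]
      exact A_lower (hgt b (by omega) hb) hb'
    · rw [h2, hm]
      exact A_raise (hlt a (by omega))
    · refine (A_comm (hφ a b hab hb) hb' ?_).mul_inv_cancel
      rcases lt_or_gt_of_ne h1 with h3 | h3
      · rcases lt_or_gt_of_ne h2 with h4 | h4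
        · exact Or.inr (Or.inr (hlt b h4))
        · exact Or.inr (Or.inl ⟨hlt a h3, hgt b h4 hb⟩)
      · exact Or.inl (hgt a h3 (by omega))
  · have hid : ∀ c, c ≤ r → φ c = c := by
      intro c
      induction c using Nat.strong_induction_on with
      | _ c ihc =>
      intro hc
      by_contra hne
      have hge : c ≤ φ c := by
        rcases Nat.eq_zero_or_pos c with h | h
        · omega
        · have h1 := ihc (c - 1) (by omega) (by omega)
          have h2 := hφ (c - 1) c (by omega) hc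
          omega
      refine hex ⟨c, φ c - 1, hc, by omega, fun a ha => ?_⟩
      have := ihc a ha (by omega)
      omega
    refine ⟨1, (Bs N n).one_mem, fun a b hab hb => ?_⟩
    rw [hid a (by omega), hid b hb, one_mul, inv_one, mul_one]

theorem emb {r n : ℕ} (hn : n ≤ N) (φ : ℕ → ℕ) (hφ : ∀ a < r, φ a < φ (a + 1)) (hr : φ r < n) :
    ∃ g ∈ Bs N n, ∀ a b, a < b → b ≤ r → g * A N a b * g⁻¹ = A N (φ a) (φ b) := by
  refine emb_aux hn _ φ rfl (fun a b hab => ?_) hr
  induction b, hab using Nat.le_induction with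
  | base => exact fun h => hφ a h
  | succ b _ ih => exact fun h => (ih (by omega)).trans (hφ b h)
end Rowemb

section Rowg2
theorem G2_succ {j k : ℕ} (h : j ≤ k) : dsc N j (k + 1) = sg N k * dsc N j k := by
  simp only [dsc, h, if_true]

theorem G2_self {j k : ℕ} (h : k ≤ j) : dsc N j k = 1 := by
  cases k with
  | zero => rfl
  | succ k =>
    have h' : ¬ j ≤ k := by omega
    simp only [dsc, h', if_false]

theorem G2_low {j k : ℕ} (h : j + 1 ≤ k) : dsc N j k = dsc N (j + 1) k * sg N j := by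
  induction k, h using Nat.le_induction with
  | base => rw [G2_succ le_rfl, G2_self le_rfl, G2_self le_rfl, mul_one, one_mul]
  | succ k hk ih => rw [G2_succ (by omega : j ≤ k), ih, G2_succ hk, mul_assoc]

theorem G2_mem (j k : ℕ) : dsc N j k ∈ Bs N (k + 1) := by
  induction k with
  | zero => exact one_mem _
  | succ k ih =>
    by_cases h : j ≤ k
    · rw [G2_succ h]
      exact mul_mem (sg_mem (by omega)) (Bs_mono (by omega) ih)
    · rw [G2_self (by omega)]
      exact one_mem _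

theorem G2_comm {i j : ℕ} (h : i + 1 < j) (k : ℕ) : Commute (sg N i) (dsc N j k) := by
  induction k with
  | zero => exact Commute.one_right _
  | succ k ih =>
    by_cases hj : j ≤ k
    · rw [G2_succ hj]
      exact (sg_far (by omega)).mul_right ih
    · rw [G2_self (by omega)]
      exact Commute.one_right _

theorem G2_shift {j m k : ℕ} (hj : j ≤ m) (h : m + 2 ≤ k) (hk : k < N) :
    dsc N j k * sg N (m + 1) = sg N m * dsc N j k := by
  induction k, h using Nat.le_induction with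
  | base =>
    have h1 : dsc N j m * sg N (m + 1) = sg N (m + 1) * dsc N j m :=
      (Bs_comm le_rfl (G2_mem j m)).eq
    have h2 := sg_braid (N := N) (i := m) hk
    have h3 : dsc N j (m + 2) = sg N (m + 1) * (sg N m * dsc N j m) := by
      rw [← G2_succ hj, ← G2_succ (by omega : j ≤ m + 1)]
    rw [h3, mul_assoc, mul_assoc, h1, ← mul_assoc, ← mul_assoc, ← h2]
    simp only [mul_assoc]
  | succ k hk' ih =>
    have h1 : sg N m * sg N k = sg N k * sg N m := (sg_far hk').eq
    rw [G2_succ (by omega : j ≤ k), mul_assoc, ih (by omega), ← mul_assoc, ← h1, mul_assoc]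

theorem G2_A_mem {j k : ℕ} (h : j < k) : A N j k ∈ Fs N k :=
  Subgroup.subset_closure ⟨j, h, rfl⟩

theorem G2_conj {k : ℕ} {s : BraidGroup N} (h : ∀ j < k, s * A N j k * s⁻¹ ∈ Fs N k)
    {f : BraidGroup N} (hf : f ∈ Fs N k) : s * f * s⁻¹ ∈ Fs N k := by
  induction hf using Subgroup.closure_induction with
  | mem x hx =>
    obtain ⟨j, hj, rfl⟩ := hx
    exact h j hj
  | one => simp
  | mul x y _ _ hx hy =>
    have e : s * (x * y) * s⁻¹ = s * x * s⁻¹ * (s * y * s⁻¹) := by group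
    rw [e]
    exact mul_mem hx hy
  | inv x _ hx =>
    have e : s * x⁻¹ * s⁻¹ = (s * x * s⁻¹)⁻¹ := by group
    rw [e]
    exact inv_mem hx

theorem G2_gen {i k : ℕ} (hi : i + 1 < k) (hk : k < N) {j : ℕ} (hj : j < k) :
    sg N i * A N j k * (sg N i)⁻¹ ∈ Fs N k ∧
      (sg N i)⁻¹ * A N j k * (sg N i)⁻¹⁻¹ ∈ Fs N k := by
  have ha : A N i k ∈ Fs N k := G2_A_mem (by omega)
  have hb : A N (i + 1) k ∈ Fs N k := G2_A_mem hi
  have e1 := A_lower hi hk
  have e2 := A_hur hi hk
  rw [inv_inv]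
  by_cases h1 : j = i
  · subst h1
    rw [e1, e2]
    exact ⟨hb, mul_mem (mul_mem ha hb) (inv_mem ha)⟩
  by_cases h2 : j = i + 1
  · subst h2
    have e3 : (sg N i)⁻¹ * A N (i + 1) k * sg N i = A N i k := by
      rw [← e1]; group
    have e4 : sg N i * A N (i + 1) k * (sg N i)⁻¹ =
        (A N (i + 1) k)⁻¹ * A N i k * A N (i + 1) k := by
      have e5 : A N (i + 1) k = (A N i k)⁻¹ * ((sg N i)⁻¹ * A N i k * sg N i) * A N i k := by
        rw [e2]; group
      calc sg N i * A N (i + 1) k * (sg N i)⁻¹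
          = sg N i * ((A N i k)⁻¹ * ((sg N i)⁻¹ * A N i k * sg N i) * A N i k) * (sg N i)⁻¹ := by
            rw [← e5]
        _ = (sg N i * A N i k * (sg N i)⁻¹)⁻¹ * A N i k * (sg N i * A N i k * (sg N i)⁻¹) := by
            group
        _ = _ := by rw [e1]
    rw [e3, e4]
    exact ⟨mul_mem (mul_mem (inv_mem hb) ha) hb, ha⟩
  · have hc : Commute (sg N i) (A N j k) := A_comm hj hk (by omega)
    have e3 : sg N i * A N j k * (sg N i)⁻¹ = A N j k := by
      rw [hc.eq]; group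
    have e4 : (sg N i)⁻¹ * A N j k * sg N i = A N j k := by
      rw [mul_assoc, ← hc.eq]; group
    rw [e3, e4]
    exact ⟨G2_A_mem hj, G2_A_mem hj⟩

theorem Fs_norm {k : ℕ} (hk : k < N) {g f : BraidGroup N} (hg : g ∈ Bs N k) (hf : f ∈ Fs N k) :
    g * f * g⁻¹ ∈ Fs N k := by
  induction hg using Subgroup.closure_induction'' generalizing f with
  | one => simpa using hf
  | mem x hx =>
    obtain ⟨i, hi, rfl⟩ := hx
    exact G2_conj (fun j hj => (G2_gen hi hk hj).1) hf
  | inv_mem x hx =>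
    obtain ⟨i, hi, rfl⟩ := hx
    exact G2_conj (fun j hj => (G2_gen hi hk hj).2) hf
  | mul x y _ _ hx hy =>
    have e : x * y * f * (x * y)⁻¹ = x * (y * f * y⁻¹) * x⁻¹ := by group
    rw [e]
    exact hx (hy hf)

theorem G2_key {i j k : ℕ} (hk : k < N) (hi : i < k) (hj : j ≤ k) :
    (∃ l ≤ k, ∃ f ∈ Fs N k, ∃ b ∈ Bs N k, dsc N j k * sg N i = f * b * dsc N l k) ∧
      ∃ l ≤ k, ∃ f ∈ Fs N k, ∃ b ∈ Bs N k, dsc N j k * (sg N i)⁻¹ = f * b * dsc N l k := by
  have hl : dsc N i k = dsc N (i + 1) k * sg N i := G2_low hi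
  have ha : A N i k ∈ Fs N k := G2_A_mem hi
  by_cases h1 : j = i + 1
  · subst h1
    refine ⟨⟨i, hi.le, 1, one_mem _, 1, one_mem _, ?_⟩,
      ⟨i, hi.le, (A N i k)⁻¹, inv_mem ha, 1, one_mem _, ?_⟩⟩
    · rw [hl, one_mul, one_mul]
    · rw [hl, A]; group
  by_cases h2 : j = i
  · subst h2
    refine ⟨⟨j + 1, hi, A N j k, ha, 1, one_mem _, ?_⟩,
      ⟨j + 1, hi, 1, one_mem _, 1, one_mem _, ?_⟩⟩
    · rw [hl, A, pow_two]; group
    · rw [hl]; group
  by_cases h3 : i + 1 < j
  · have hc : Commute (sg N i) (dsc N j k) := G2_comm h3 k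
    have hs : sg N i ∈ Bs N k := sg_mem (by omega)
    refine ⟨⟨j, hj, 1, one_mem _, sg N i, hs, ?_⟩,
      ⟨j, hj, 1, one_mem _, (sg N i)⁻¹, inv_mem hs, ?_⟩⟩
    · rw [one_mul, hc.eq]
    · rw [one_mul, hc.inv_left.eq]
  · obtain ⟨m, rfl⟩ : ∃ m, i = m + 1 := ⟨i - 1, by omega⟩
    have hc := G2_shift (N := N) (j := j) (m := m) (by omega) hi hk
    have hs : sg N m ∈ Bs N k := sg_mem hi
    refine ⟨⟨j, hj, 1, one_mem _, sg N m, hs, ?_⟩,
      ⟨j, hj, 1, one_mem _, (sg N m)⁻¹, inv_mem hs, ?_⟩⟩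
    · rw [one_mul, hc]
    · rw [one_mul, mul_inv_eq_iff_eq_mul, mul_assoc, hc]; group

theorem G2_step {k : ℕ} (hk : k < N) {g s : BraidGroup N}
    (hg : ∃ j ≤ k, ∃ f ∈ Fs N k, ∃ b ∈ Bs N k, g = f * b * dsc N j k)
    (hs : ∀ j ≤ k, ∃ l ≤ k, ∃ f ∈ Fs N k, ∃ b ∈ Bs N k, dsc N j k * s = f * b * dsc N l k) :
    ∃ j ≤ k, ∃ f ∈ Fs N k, ∃ b ∈ Bs N k, g * s = f * b * dsc N j k := by
  obtain ⟨j, hj, f, hf, b, hb, rfl⟩ := hg
  obtain ⟨l, hl, f', hf', b', hb', e⟩ := hs j hj
  refine ⟨l, hl, f * (b * f' * b⁻¹), mul_mem hf (Fs_norm hk hb hf'), b * b', mul_mem hb hb', ?_⟩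
  rw [mul_assoc (f * b), e]; group

theorem coset {k : ℕ} (hk : k < N) {g : BraidGroup N} (hg : g ∈ Bs N (k + 1)) :
    ∃ j ≤ k, ∃ f ∈ Fs N k, ∃ b ∈ Bs N k, g = f * b * dsc N j k := by
  induction hg using Subgroup.closure_induction_right with
  | one => exact ⟨k, le_rfl, 1, one_mem _, 1, one_mem _, by rw [G2_self le_rfl]; group⟩
  | mul_right x _ y hy ih =>
    obtain ⟨i, hi, rfl⟩ := hy
    exact G2_step hk ih fun j hj => (G2_key hk (by omega) hj).1
  | mul_inv_cancel x _ y hy ih =>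
    obtain ⟨i, hi, rfl⟩ := hy
    exact G2_step hk ih fun j hj => (G2_key hk (by omega) hj).2

theorem G2_perm {j k : ℕ} (h : j ≤ k) (hk : k < N) : permHom N (dsc N j k) j = k := by
  induction k, h using Nat.le_induction with
  | base => rw [G2_self le_rfl, map_one, Equiv.Perm.one_apply]
  | succ k hj ih =>
    rw [G2_succ hj, map_mul, Equiv.Perm.mul_apply, ih (by omega), perm_sg hk,
      Equiv.swap_apply_left]

theorem G2_pure {k : ℕ} (hk : k < N) {f : BraidGroup N} (hf : f ∈ Fs N k) : permHom N f = 1 :=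
  (Fs_le (Nat.lt_succ_self k) hk hf).2

theorem comb {k : ℕ} (hk : k < N) {g : BraidGroup N} (hg : g ∈ Bs N (k + 1))
    (h : permHom N g k = k) : ∃ f ∈ Fs N k, ∃ b ∈ Bs N k, g = f * b := by
  obtain ⟨j, hj, f, hf, b, hb, e⟩ := coset hk hg
  have h1 : permHom N g j = k := by
    rw [e, map_mul, map_mul, G2_pure hk hf, one_mul, Equiv.Perm.mul_apply, G2_perm hj hk]
    exact Bs_fix hk.le hb le_rfl
  have h2 : j = k := (permHom N g).injective (h1.trans h.symm)
  refine ⟨f, hf, b, hb, ?_⟩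
  rw [e, G2_self h2.ge, mul_one]

theorem G2_combP {k : ℕ} (hk : k < N) {p : BraidGroup N} (hp : p ∈ Ps N (k + 1)) :
    ∃ f ∈ Fs N k, ∃ b ∈ Ps N k, p = f * b := by
  have h1 : permHom N p = 1 := hp.2
  obtain ⟨f, hf, b, hb, e⟩ := comb hk hp.1 (by rw [h1, Equiv.Perm.one_apply])
  refine ⟨f, hf, b, ⟨hb, ?_⟩, e⟩
  rw [e, map_mul, G2_pure hk hf, one_mul] at h1
  exact h1

theorem Fs_normP {k : ℕ} (hk : k < N) {p f : BraidGroup N} (hp : p ∈ Ps N (k + 1))
    (hf : f ∈ Fs N k) : p * f * p⁻¹ ∈ Fs N k := by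
  obtain ⟨f', hf', b, hb, rfl⟩ := G2_combP hk hp
  have e : f' * b * f * (f' * b)⁻¹ = f' * (b * f * b⁻¹) * f'⁻¹ := by group
  rw [e]
  exact mul_mem (mul_mem hf' (Fs_norm hk hb.1 hf)) (inv_mem hf')

theorem Ps_gen {n : ℕ} (hn : n ≤ N) :
    Ps N n ≤ Subgroup.closure {g | ∃ i k, i < k ∧ k < n ∧ g = A N i k} := by
  induction n with
  | zero =>
    refine le_trans inf_le_left ((Subgroup.closure_le _).2 ?_)
    rintro g ⟨i, hi, -⟩
    omega
  | succ k ih =>
    intro p hp
    obtain ⟨f, hf, b, hb, rfl⟩ := G2_combP hn hp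
    refine mul_mem (Subgroup.closure_mono ?_ hf) (Subgroup.closure_mono ?_ (ih (by omega) hb))
    · rintro g ⟨j, hj, rfl⟩
      exact ⟨j, k, hj, Nat.lt_succ_self k, rfl⟩
    · rintro g ⟨i, l, hi, hl, rfl⟩
      exact ⟨i, l, hi, by omega, rfl⟩

theorem G2_dsc {k : ℕ} (hk : k < N) (d : ℕ) : ∀ j, j + d + 1 = k →
    (dsc N j k)⁻¹ * A N (k - 1) k * dsc N j k = A N j k := by
  induction d with
  | zero =>
    intro j hj
    obtain rfl : k = j + 1 := by omega
    rw [Nat.add_sub_cancel, A_succ, G2_succ le_rfl, G2_self le_rfl]; group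
  | succ d ih =>
    intro j hj
    have e1 := A_lower (N := N) (i := j) (by omega) hk
    have e2 := ih (j + 1) (by omega)
    rw [G2_low (by omega : j + 1 ≤ k)]
    calc (dsc N (j + 1) k * sg N j)⁻¹ * A N (k - 1) k * (dsc N (j + 1) k * sg N j)
        = (sg N j)⁻¹ * ((dsc N (j + 1) k)⁻¹ * A N (k - 1) k * dsc N (j + 1) k) * sg N j := by
          group
      _ = A N j k := by rw [e2, ← e1]; group

theorem dsc_A {j k : ℕ} (h : j < k) (hk : k < N) :
    dsc N j k ∈ Bs N (k + 1) ∧ (dsc N j k)⁻¹ * A N (k - 1) k * dsc N j k = A N j k :=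
  ⟨G2_mem j k, G2_dsc hk (k - j - 1) j (by omega)⟩
end Rowg2

section Rowg3
def G3_fwd (i : ℕ) : FreeGroup ℕ →* FreeGroup ℕ :=
  FreeGroup.lift fun j => if j = i then FreeGroup.of (i + 1)
    else if j = i + 1 then (FreeGroup.of (i + 1))⁻¹ * FreeGroup.of i * FreeGroup.of (i + 1)
    else FreeGroup.of j

def G3_bwd (i : ℕ) : FreeGroup ℕ →* FreeGroup ℕ :=
  FreeGroup.lift fun j => if j = i then FreeGroup.of i * FreeGroup.of (i + 1) * (FreeGroup.of i)⁻¹
    else if j = i + 1 then FreeGroup.of i else FreeGroup.of j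

def G3_aut (i : ℕ) : MulAut (FreeGroup ℕ) :=
  MonoidHom.toMulEquiv (G3_fwd i) (G3_bwd i)
    (by
      refine FreeGroup.ext_hom _ _ fun j => ?_
      by_cases h1 : j = i
      · simp [G3_fwd, G3_bwd, h1]
      · by_cases h2 : j = i + 1
        · simp [G3_fwd, G3_bwd, h2, mul_assoc]
        · simp [G3_fwd, G3_bwd, h1, h2])
    (by
      refine FreeGroup.ext_hom _ _ fun j => ?_
      by_cases h1 : j = i
      · simp [G3_fwd, G3_bwd, h1, mul_assoc]
      · by_cases h2 : j = i + 1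
        · simp [G3_fwd, G3_bwd, h2]
        · simp [G3_fwd, G3_bwd, h1, h2])

theorem G3_aut_apply (i : ℕ) (z : FreeGroup ℕ) : G3_aut i z = G3_fwd i z :=
  congrFun (MonoidHom.toMulEquiv_apply _ _ _ _) z

theorem G3_aut_self (i : ℕ) : G3_aut i (FreeGroup.of i) = FreeGroup.of (i + 1) := by
  rw [G3_aut_apply]
  simp [G3_fwd]

theorem G3_aut_succ (i : ℕ) : G3_aut i (FreeGroup.of (i + 1)) =
    (FreeGroup.of (i + 1))⁻¹ * FreeGroup.of i * FreeGroup.of (i + 1) := by
  rw [G3_aut_apply]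
  simp [G3_fwd]

theorem G3_aut_ne {i j : ℕ} (h1 : j ≠ i) (h2 : j ≠ i + 1) :
    G3_aut i (FreeGroup.of j) = FreeGroup.of j := by
  rw [G3_aut_apply]
  simp [G3_fwd, h1, h2]

theorem G3_ext {f g : MulAut (FreeGroup ℕ)} (h : ∀ j, f (FreeGroup.of j) = g (FreeGroup.of j)) :
    f = g := by
  have : f.toMonoidHom = g.toMonoidHom := FreeGroup.ext_hom _ _ h
  ext1 x
  exact DFunLike.congr_fun this x

theorem G3_braid (i : ℕ) :
    G3_aut i * G3_aut (i + 1) * G3_aut i = G3_aut (i + 1) * G3_aut i * G3_aut (i + 1) := by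
  have a1 : G3_aut i (FreeGroup.of (i + 1 + 1)) = FreeGroup.of (i + 1 + 1) :=
    G3_aut_ne (by omega) (by omega)
  have a2 : G3_aut (i + 1) (FreeGroup.of i) = FreeGroup.of i := G3_aut_ne (by omega) (by omega)
  refine G3_ext fun j => ?_
  simp only [MulAut.mul_apply]
  by_cases h1 : j = i
  · rw [h1]
    simp only [G3_aut_self, a1, a2]
  · by_cases h2 : j = i + 1
    · rw [h2]
      simp only [G3_aut_self, G3_aut_succ, a1, a2, map_mul, map_inv]
    · by_cases h3 : j = i + 1 + 1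
      · rw [h3]
        simp only [G3_aut_self, G3_aut_succ, a1, a2, map_mul, map_inv]
        group
      · rw [G3_aut_ne h1 h2, G3_aut_ne h2 h3, G3_aut_ne h1 h2, G3_aut_ne h2 h3]

theorem G3_far (i j : ℕ) (h : i + 2 ≤ j) : G3_aut i * G3_aut j = G3_aut j * G3_aut i := by
  have a1 : G3_aut i (FreeGroup.of j) = FreeGroup.of j := G3_aut_ne (by omega) (by omega)
  have a2 : G3_aut i (FreeGroup.of (j + 1)) = FreeGroup.of (j + 1) :=
    G3_aut_ne (by omega) (by omega)
  have a3 : G3_aut j (FreeGroup.of i) = FreeGroup.of i := G3_aut_ne (by omega) (by omega)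
  have a4 : G3_aut j (FreeGroup.of (i + 1)) = FreeGroup.of (i + 1) :=
    G3_aut_ne (by omega) (by omega)
  refine G3_ext fun l => ?_
  simp only [MulAut.mul_apply]
  by_cases h1 : l = i
  · rw [h1]
    simp only [G3_aut_self, a3, a4]
  · by_cases h2 : l = i + 1
    · rw [h2]
      simp only [G3_aut_succ, a3, a4, map_mul, map_inv]
    · by_cases h3 : l = j
      · rw [h3]
        simp only [G3_aut_self, a1, a2]
      · by_cases h4 : l = j + 1
        · rw [h4]
          simp only [G3_aut_succ, a1, a2, map_mul, map_inv]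
        · rw [G3_aut_ne h3 h4, G3_aut_ne h1 h2, G3_aut_ne h3 h4]

def G3_art (N : ℕ) : BraidGroup N →* MulAut (FreeGroup ℕ) := braidLift G3_aut G3_braid G3_far N

theorem G3_art_sg {i : ℕ} (h : i + 1 < N) : G3_art N (sg N i) = G3_aut i :=
  braidLift_sg G3_aut G3_braid G3_far h

theorem G3_art_mul (a b : BraidGroup N) (z : FreeGroup ℕ) :
    G3_art N (a * b) z = G3_art N a (G3_art N b z) := by
  rw [map_mul, MulAut.mul_apply]

theorem G3_art_one (z : FreeGroup ℕ) : G3_art N 1 z = z := by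
  rw [map_one, MulAut.one_apply]

theorem G3_art_cancel (a : BraidGroup N) (z : FreeGroup ℕ) :
    G3_art N a (G3_art N a⁻¹ z) = z := by
  rw [← G3_art_mul, mul_inv_cancel, G3_art_one]

theorem G3_art_cancel' (a : BraidGroup N) (z : FreeGroup ℕ) :
    G3_art N a⁻¹ (G3_art N a z) = z := by
  rw [← G3_art_mul, inv_mul_cancel, G3_art_one]

theorem G3_conj (φ : MulAut (FreeGroup ℕ)) (w y : FreeGroup ℕ) :
    φ (w * y * w⁻¹) = φ w * φ y * (φ w)⁻¹ := by
  rw [map_mul, map_mul, map_inv]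

theorem G3_minv (φ : MulAut (FreeGroup ℕ)) (w : FreeGroup ℕ) : φ w⁻¹ = (φ w)⁻¹ := map_inv _ _

def G3_ev (N k : ℕ) : FreeGroup ℕ →* BraidGroup N :=
  FreeGroup.lift fun j => if j < k then A N j k else 1

def G3_bar (k : ℕ) : FreeGroup ℕ →* FreeGroup ℕ :=
  FreeGroup.lift fun j => if j < k then FreeGroup.of j else 1

theorem G3_ev_lt {j k : ℕ} (h : j < k) : G3_ev N k (FreeGroup.of j) = A N j k := by
  simp [G3_ev, h]

theorem G3_ev_ge {j k : ℕ} (h : ¬ j < k) : G3_ev N k (FreeGroup.of j) = 1 := by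
  simp [G3_ev, h]

theorem G3_bar_lt {j k : ℕ} (h : j < k) : G3_bar k (FreeGroup.of j) = FreeGroup.of j := by
  simp [G3_bar, h]

theorem G3_bar_ge {j k : ℕ} (h : ¬ j < k) : G3_bar k (FreeGroup.of j) = 1 := by
  simp [G3_bar, h]

theorem G3_ind {P : FreeGroup ℕ → Prop} (h1 : P 1) (h2 : ∀ j, P (FreeGroup.of j))
    (h3 : ∀ a, P a → P a⁻¹) (h4 : ∀ a b, P a → P b → P (a * b)) (z : FreeGroup ℕ) : P z :=
  FreeGroup.induction_on z h1 h2 (fun _ h => h3 _ h) h4

theorem G3_ev_art {k : ℕ} (hk : k < N) {b : BraidGroup N} (hb : b ∈ Bs N k) :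
    ∀ z, G3_ev N k (G3_art N b z) = b * G3_ev N k z * b⁻¹ := by
  induction hb using Subgroup.closure_induction with
  | mem g hg =>
    obtain ⟨i, hi, rfl⟩ := hg
    rw [G3_art_sg (by omega)]
    refine G3_ind (by simp) (fun j => ?_) (fun a h => ?_) (fun a b h h' => ?_)
    · by_cases h1 : j = i
      · rw [h1, G3_aut_self, G3_ev_lt hi, G3_ev_lt (by omega), A_lower hi hk]
      · by_cases h2 : j = i + 1
        · rw [h2, G3_aut_succ, map_mul, map_mul, map_inv, G3_ev_lt hi, G3_ev_lt (by omega)]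
          have e1 := A_lower hi hk
          have e2 := A_hur hi hk
          have e3 : A N (i + 1) k = (A N i k)⁻¹ * ((sg N i)⁻¹ * A N i k * sg N i) * A N i k := by
            rw [e2]; group
          calc (A N (i + 1) k)⁻¹ * A N i k * A N (i + 1) k
              = (sg N i * A N i k * (sg N i)⁻¹)⁻¹ * A N i k * (sg N i * A N i k * (sg N i)⁻¹) := by
                rw [e1]
            _ = sg N i * ((A N i k)⁻¹ * ((sg N i)⁻¹ * A N i k * sg N i) * A N i k) * (sg N i)⁻¹ := by
                group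
            _ = _ := by rw [← e3]
        · rw [G3_aut_ne h1 h2]
          by_cases h3 : j < k
          · rw [G3_ev_lt h3, (A_comm h3 hk (m := i) (by omega)).eq, mul_inv_cancel_right]
          · rw [G3_ev_ge h3]; simp
    · rw [map_inv, map_inv, h, map_inv]; group
    · rw [map_mul, map_mul, h, h', map_mul]; group
  | one => intro z; rw [G3_art_one]; simp
  | mul a b _ _ ha hb => intro z; rw [G3_art_mul, ha, hb]; group
  | inv a _ ha =>
    intro z
    have := ha (G3_art N a⁻¹ z)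
    rw [G3_art_cancel] at this
    rw [this]; group

theorem G3_bar_art {k : ℕ} (hk : k ≤ N) {b : BraidGroup N} (hb : b ∈ Bs N k) :
    ∀ z, G3_bar k (G3_art N b z) = G3_art N b (G3_bar k z) := by
  induction hb using Subgroup.closure_induction with
  | mem g hg =>
    obtain ⟨i, hi, rfl⟩ := hg
    rw [G3_art_sg (by omega)]
    refine G3_ind (by simp) (fun j => ?_) (fun a h => ?_) (fun a b h h' => ?_)
    · by_cases h1 : j = i
      · rw [h1, G3_aut_self, G3_bar_lt hi, G3_bar_lt (by omega), G3_aut_self]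
      · by_cases h2 : j = i + 1
        · rw [h2, G3_aut_succ, map_mul, map_mul, map_inv, G3_bar_lt hi, G3_bar_lt (by omega),
            G3_aut_succ]
        · rw [G3_aut_ne h1 h2]
          by_cases h3 : j < k
          · rw [G3_bar_lt h3, G3_aut_ne h1 h2]
          · rw [G3_bar_ge h3, map_one]
    · simp only [map_inv, h]
    · simp only [map_mul, h, h']
  | one => intro z; rw [G3_art_one, G3_art_one]
  | mul a b _ _ ha hb => intro z; rw [G3_art_mul, G3_art_mul, ha, hb]
  | inv a _ ha =>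
    intro z
    have := ha (G3_art N a⁻¹ z)
    rw [G3_art_cancel] at this
    rw [this, G3_art_cancel']

theorem G3_art_fix {k : ℕ} (hk : k ≤ N) {b : BraidGroup N} (hb : b ∈ Bs N k) {j : ℕ}
    (hj : k ≤ j) : G3_art N b (FreeGroup.of j) = FreeGroup.of j := by
  induction hb using Subgroup.closure_induction with
  | mem g hg =>
    obtain ⟨i, hi, rfl⟩ := hg
    rw [G3_art_sg (by omega), G3_aut_ne (by omega) (by omega)]
  | one => rw [G3_art_one]
  | mul a b _ _ ha hb => rw [G3_art_mul, hb, ha]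
  | inv a _ ha =>
    have := G3_art_cancel' a (FreeGroup.of j)
    rwa [ha] at this

theorem G3_art_perm (b : BraidGroup N) :
    ∀ j, ∃ w, G3_art N b (FreeGroup.of j) = w * FreeGroup.of (permHom N b j) * w⁻¹ := by
  have hb : b ∈ Bs N N := by rw [Bs_top]; trivial
  induction hb using Subgroup.closure_induction with
  | mem g hg =>
    obtain ⟨i, hi, rfl⟩ := hg
    intro j
    rw [G3_art_sg hi, perm_sg hi]
    by_cases h1 : j = i
    · exact ⟨1, by rw [h1, G3_aut_self, Equiv.swap_apply_left]; simp⟩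
    · by_cases h2 : j = i + 1
      · exact ⟨(FreeGroup.of (i + 1))⁻¹, by rw [h2, G3_aut_succ, Equiv.swap_apply_right]; simp⟩
      · exact ⟨1, by rw [G3_aut_ne h1 h2, Equiv.swap_apply_of_ne_of_ne h1 h2]; simp⟩
  | one => intro j; exact ⟨1, by rw [G3_art_one]; simp⟩
  | mul a b _ _ ha hb =>
    intro j
    obtain ⟨w, hw⟩ := hb j
    obtain ⟨w', hw'⟩ := ha (permHom N b j)
    refine ⟨G3_art N a w * w', ?_⟩
    rw [G3_art_mul, hw, map_mul, map_mul, map_inv, hw', map_mul, Equiv.Perm.mul_apply]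
    group
  | inv a _ ha =>
    intro j
    obtain ⟨w, hw⟩ := ha (permHom N a⁻¹ j)
    have e : permHom N a (permHom N a⁻¹ j) = j := by
      rw [← Equiv.Perm.mul_apply, ← map_mul, mul_inv_cancel, map_one, Equiv.Perm.one_apply]
    rw [e] at hw
    have e2 := congrArg (G3_art N a⁻¹) hw
    rw [G3_art_cancel', G3_conj] at e2
    refine ⟨(G3_art N a⁻¹ w)⁻¹, ?_⟩
    rw [e2]; group

def G3_Q (N k : ℕ) (f : BraidGroup N) (v : FreeGroup ℕ) : Prop :=
  (∀ z, G3_bar k (G3_art N f z) = G3_bar k z) ∧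
    ∃ w, G3_art N f (FreeGroup.of k) = w * FreeGroup.of k * w⁻¹ ∧ G3_bar k w = v⁻¹

theorem G3_Q_one (k : ℕ) : G3_Q N k 1 1 :=
  ⟨fun z => by rw [G3_art_one], 1, by rw [G3_art_one]; simp, by simp⟩

theorem G3_Q_mul {k : ℕ} {f f' : BraidGroup N} {v v' : FreeGroup ℕ} (h : G3_Q N k f v)
    (h' : G3_Q N k f' v') : G3_Q N k (f * f') (v * v') := by
  obtain ⟨h1, w, h2, h3⟩ := h
  obtain ⟨h1', w', h2', h3'⟩ := h'
  refine ⟨fun z => by rw [G3_art_mul, h1, h1'], G3_art N f w' * w, ?_, ?_⟩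
  · rw [G3_art_mul, h2', map_mul, map_mul, map_inv, h2]; group
  · rw [map_mul, h1, h3, h3', mul_inv_rev]

theorem G3_Q_inv {k : ℕ} {f : BraidGroup N} {v : FreeGroup ℕ} (h : G3_Q N k f v) :
    G3_Q N k f⁻¹ v⁻¹ := by
  obtain ⟨h1, w, h2, h3⟩ := h
  have h4 : ∀ z, G3_bar k (G3_art N f⁻¹ z) = G3_bar k z := fun z => by
    rw [← h1, G3_art_cancel]
  refine ⟨h4, (G3_art N f⁻¹ w)⁻¹, ?_, ?_⟩
  · have e2 := congrArg (G3_art N f⁻¹) h2
    rw [G3_art_cancel', G3_conj] at e2
    calc G3_art N f⁻¹ (FreeGroup.of k)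
        = (G3_art N f⁻¹ w)⁻¹ * (G3_art N f⁻¹ w * G3_art N f⁻¹ (FreeGroup.of k) *
            (G3_art N f⁻¹ w)⁻¹) * (G3_art N f⁻¹ w)⁻¹⁻¹ := by group
      _ = _ := by rw [← e2]
  · rw [map_inv, h4, h3]

theorem G3_Q_A {k : ℕ} (hk : k < N) (d : ℕ) :
    ∀ j, j + d + 1 = k → G3_Q N k (A N j k) (FreeGroup.of j) := by
  induction d with
  | zero =>
    intro j hj
    obtain rfl : k = j + 1 := by omega
    have e : ∀ z, G3_art N (A N j (j + 1)) z = G3_aut j (G3_aut j z) := fun z => by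
      rw [A_succ, sq, G3_art_mul, G3_art_sg hk]
    have b1 : G3_bar (j + 1) (FreeGroup.of j) = FreeGroup.of j := G3_bar_lt (by omega)
    have b2 : G3_bar (j + 1) (FreeGroup.of (j + 1)) = 1 := G3_bar_ge (by omega)
    refine ⟨?_, (FreeGroup.of (j + 1))⁻¹ * (FreeGroup.of j)⁻¹, ?_, ?_⟩
    · refine G3_ind (by simp) (fun l => ?_) (fun a h => ?_) (fun a b h h' => ?_)
      · rw [e]
        by_cases h1 : l = j
        · rw [h1]
          simp only [G3_aut_self, G3_aut_succ, map_mul, map_inv, b1, b2]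
          group
        · by_cases h2 : l = j + 1
          · rw [h2]
            simp only [G3_aut_self, G3_aut_succ, map_mul, map_inv, b1, b2]
            group
          · rw [G3_aut_ne h1 h2, G3_aut_ne h1 h2]
      · simp only [map_inv, h]
      · simp only [map_mul, h, h']
    · rw [e]
      simp only [G3_aut_self, G3_aut_succ, map_mul, map_inv]
      group
    · simp only [map_mul, map_inv, b1, b2]
      group
  | succ d ih =>
    intro j hj
    have hjk : j + 1 < k := by omega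
    obtain ⟨h1, w, h2, h3⟩ := ih (j + 1) (by omega)
    have hs : sg N j ∈ Bs N k := sg_mem hjk
    have hs' : (sg N j)⁻¹ ∈ Bs N k := inv_mem hs
    have e : A N j k = (sg N j)⁻¹ * A N (j + 1) k * sg N j := by
      rw [← A_lower hjk hk]; group
    refine ⟨fun z => ?_, G3_art N (sg N j)⁻¹ w, ?_, ?_⟩
    · rw [e, G3_art_mul, G3_art_mul, G3_bar_art hk.le hs', h1, G3_bar_art hk.le hs,
        G3_art_cancel']
    · rw [e, G3_art_mul, G3_art_mul, G3_art_fix hk.le hs le_rfl, h2, G3_conj,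
        G3_art_fix hk.le hs' le_rfl]
    · rw [G3_bar_art hk.le hs', h3, G3_minv, ← G3_aut_self, ← G3_art_sg (N := N) (by omega),
        G3_art_cancel']

theorem G3_Q_ev {k : ℕ} (hk : k < N) : ∀ z, G3_Q N k (G3_ev N k z) (G3_bar k z) := by
  refine G3_ind ?_ (fun j => ?_) (fun a h => ?_) (fun a b h h' => ?_)
  · rw [map_one, map_one]; exact G3_Q_one k
  · by_cases h : j < k
    · rw [G3_ev_lt h, G3_bar_lt h]
      exact G3_Q_A hk (k - j - 1) j (by omega)
    · rw [G3_ev_ge h, G3_bar_ge h]; exact G3_Q_one k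
  · rw [map_inv, map_inv]; exact G3_Q_inv h
  · rw [map_mul, map_mul]; exact G3_Q_mul h h'

theorem G3_cent {k : ℕ} {w : FreeGroup ℕ} (h : FreeGroup.of k = w * FreeGroup.of k * w⁻¹) :
    G3_bar k w = 1 := by
  classical
  let ρ : FreeGroup ℕ →* Equiv.Perm (FreeGroup ℕ × Bool) :=
    FreeGroup.lift fun j => if j < k then (Equiv.mulLeft (FreeGroup.of j)).prodCongr (Equiv.refl _)
      else if j = k then Equiv.swap (1, false) (1, true) else 1
  have hk : ρ (FreeGroup.of k) = Equiv.swap (1, false) (1, true) := by simp [ρ]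
  have key : ∀ z p, (ρ z p).1 = G3_bar k z * p.1 := by
    refine G3_ind (by simp) (fun j p => ?_) (fun a h p => ?_) (fun a b h h' p => ?_)
    · by_cases h1 : j < k
      · rw [G3_bar_lt h1]; simp [ρ, h1]
      · rw [G3_bar_ge h1, one_mul]
        by_cases h2 : j = k
        · rw [h2, hk, Equiv.swap_apply_def]
          split_ifs with h3 h4
          · rw [h3]
          · rw [h4]
          · rfl
        · simp [ρ, h1, h2]
    · have := h (ρ a⁻¹ p)
      rw [← Equiv.Perm.mul_apply, ← map_mul, mul_inv_cancel, map_one, Equiv.Perm.one_apply] at this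
      rw [this, map_inv (G3_bar k), inv_mul_cancel_left]
    · rw [map_mul, Equiv.Perm.mul_apply, h, h', map_mul, mul_assoc]
  have e : ρ (FreeGroup.of k) * ρ w = ρ w * ρ (FreeGroup.of k) := by
    rw [← map_mul, ← map_mul]
    exact congrArg ρ (eq_mul_inv_iff_mul_eq.mp h)
  have e2 := congrArg (fun f : Equiv.Perm (FreeGroup ℕ × Bool) => f (1, false)) e
  simp only [Equiv.Perm.mul_apply, hk, Equiv.swap_apply_left] at e2
  have e3 := key w (1, false)
  rw [mul_one] at e3
  rw [← e3]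
  by_contra hne
  rw [Equiv.swap_apply_of_ne_of_ne (fun h => hne (by rw [h])) (fun h => hne (by rw [h]))] at e2
  have := (ρ w).injective e2
  simp at this

theorem G3_ker {k : ℕ} (hk : k < N) {z : FreeGroup ℕ}
    (h : G3_art N (G3_ev N k z) (FreeGroup.of k) = FreeGroup.of k) : G3_bar k z = 1 := by
  obtain ⟨_, w, h2, h3⟩ := G3_Q_ev hk z
  rw [h] at h2
  rw [G3_cent h2] at h3
  exact inv_eq_one.mp h3.symm

theorem G3_ev_bar {k : ℕ} (z : FreeGroup ℕ) : G3_ev N k (G3_bar k z) = G3_ev N k z := by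
  have : (G3_ev N k).comp (G3_bar k) = G3_ev N k := by
    refine FreeGroup.ext_hom _ _ fun j => ?_
    rw [MonoidHom.comp_apply]
    by_cases h : j < k
    · rw [G3_bar_lt h]
    · rw [G3_bar_ge h, G3_ev_ge h, map_one]
  exact DFunLike.congr_fun this z

theorem G3_Fs {k : ℕ} {f : BraidGroup N} (hf : f ∈ Fs N k) : ∃ z, G3_ev N k z = f := by
  induction hf using Subgroup.closure_induction with
  | mem g hg =>
    obtain ⟨j, hj, rfl⟩ := hg
    exact ⟨_, G3_ev_lt hj⟩
  | one => exact ⟨1, map_one _⟩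
  | mul a b _ _ ha hb =>
    obtain ⟨x, rfl⟩ := ha
    obtain ⟨y, rfl⟩ := hb
    exact ⟨x * y, map_mul _ _ _⟩
  | inv a _ ha =>
    obtain ⟨x, rfl⟩ := ha
    exact ⟨x⁻¹, map_inv _ _⟩

theorem G3_conj_of {j k : ℕ} {w : FreeGroup ℕ} (h : FreeGroup.of k = w * FreeGroup.of j * w⁻¹) :
    j = k := by
  by_contra hne
  let χ : FreeGroup ℕ →* Multiplicative ℤ :=
    FreeGroup.lift fun l => if l = k then Multiplicative.ofAdd 1 else 1
  have e := congrArg χ h
  rw [map_mul, map_mul, map_inv, mul_comm (χ w), mul_inv_cancel_right] at e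
  simp [χ, hne] at e

theorem G3_faith (k : ℕ) : k ≤ N → ∀ b ∈ Bs N k, G3_art N b = 1 → b = 1 := by
  induction k with
  | zero =>
    intro _ b hb _
    induction hb using Subgroup.closure_induction with
    | mem g hg => obtain ⟨i, hi, _⟩ := hg; omega
    | one => rfl
    | mul a b ha hb _ _ =>
      have : Bs N 0 ≤ ⊥ := by
        rw [Bs, Subgroup.closure_le]
        rintro g ⟨i, hi, _⟩; omega
      exact Subgroup.mem_bot.mp (this (mul_mem ha hb))
    | inv a ha _ =>
      have : Bs N 0 ≤ ⊥ := by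
        rw [Bs, Subgroup.closure_le]
        rintro g ⟨i, hi, _⟩; omega
      exact Subgroup.mem_bot.mp (this (inv_mem ha))
  | succ k ih =>
    intro hk b hb h
    have hk' : k < N := hk
    obtain ⟨w, hw⟩ := G3_art_perm b k
    rw [h, MulAut.one_apply] at hw
    obtain ⟨f, hf, b', hb', rfl⟩ := comb hk' hb (G3_conj_of hw)
    obtain ⟨z, rfl⟩ := G3_Fs hf
    have e : G3_art N (G3_ev N k z * b') (FreeGroup.of k) = FreeGroup.of k := by
      rw [h, MulAut.one_apply]
    rw [G3_art_mul, G3_art_fix hk'.le hb' le_rfl] at e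
    have e2 : G3_ev N k z = 1 := by rw [← G3_ev_bar, G3_ker hk' e, map_one]
    rw [e2, one_mul] at h ⊢
    exact ih hk'.le b' hb' h

theorem ev_inj {k : ℕ} (hk : k < N) :
    Function.Injective (FreeGroup.lift (fun j : Fin k => A N j k)) := by
  rw [injective_iff_map_eq_one]
  intro z hz
  let r : FreeGroup ℕ →* FreeGroup (Fin k) :=
    FreeGroup.lift fun j => if h : j < k then FreeGroup.of ⟨j, h⟩ else 1
  have e1 : (G3_ev N k).comp (FreeGroup.map (Fin.val : Fin k → ℕ)) =
      FreeGroup.lift (fun j : Fin k => A N j k) := by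
    refine FreeGroup.ext_hom _ _ fun j => ?_
    rw [MonoidHom.comp_apply, FreeGroup.map.of, G3_ev_lt j.2, FreeGroup.lift_apply_of]
  have e2 : r.comp ((G3_bar k).comp (FreeGroup.map (Fin.val : Fin k → ℕ))) = MonoidHom.id _ := by
    refine FreeGroup.ext_hom _ _ fun j => ?_
    rw [MonoidHom.comp_apply, MonoidHom.comp_apply, FreeGroup.map.of, G3_bar_lt j.2]
    simp [r]
  have e3 : G3_ev N k (FreeGroup.map (Fin.val : Fin k → ℕ) z) = 1 := by
    rw [← hz]; exact DFunLike.congr_fun e1 z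
  have e4 : G3_bar k (FreeGroup.map (Fin.val : Fin k → ℕ) z) = 1 :=
    G3_ker hk (by rw [e3, G3_art_one])
  have e5 := DFunLike.congr_fun e2 z
  rw [MonoidHom.comp_apply, MonoidHom.comp_apply, e4, map_one, MonoidHom.id_apply] at e5
  exact e5.symm

theorem artin_faithful {m k : ℕ} (hm : m ≤ k) (hk : k < N) (ι : BraidGroup m →* BraidGroup N)
    (hι : ∀ i, i + 1 < m → ι (sg m i) = sg N i) (κ : BraidGroup m)
    (h : ∀ a < k, Commute (ι κ) (A N a k)) : κ = 1 := by
  have e1 : (G3_art N).comp ι = G3_art m := by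
    refine hom_ext_sg fun i hi => ?_
    rw [MonoidHom.comp_apply, hι i hi, G3_art_sg hi, G3_art_sg (by omega)]
  have hκ : κ ∈ Bs m m := by rw [Bs_top]; trivial
  have hb : ι κ ∈ Bs N k := by
    have : Bs m m ≤ (Bs N k).comap ι := by
      rw [Bs, Subgroup.closure_le]
      rintro g ⟨i, hi, rfl⟩
      show ι (sg m i) ∈ Bs N k
      rw [hι i hi]
      exact sg_mem (by omega)
    exact this hκ
  refine G3_faith m le_rfl κ hκ ?_
  rw [← e1, MonoidHom.comp_apply]
  refine G3_ext fun a => ?_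
  rw [MulAut.one_apply]
  by_cases ha : a < k
  · have e2 : G3_ev N k (G3_art N (ι κ) (FreeGroup.of a) * (FreeGroup.of a)⁻¹) = 1 := by
      rw [map_mul, map_inv, G3_ev_art hk hb, G3_ev_lt ha, (h a ha).eq]; group
    have e3 := G3_ker hk (by rw [e2, G3_art_one])
    rw [map_mul, map_inv, G3_bar_art hk.le hb, G3_bar_lt ha] at e3
    exact mul_inv_eq_one.mp e3
  · exact G3_art_fix hk.le hb (by omega)
end Rowg3

section Rowg4
theorem g4_pick {k : ℕ} (hk : 2 ≤ k) (p q r : Fin k × Bool) :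
    ∃ s : Fin k × Bool, s ≠ p ∧ s ≠ q ∧ s ≠ r := by
  by_contra hcon
  have hsub : (Finset.univ : Finset (Fin k × Bool)) ⊆ {p, q, r} := by
    intro s _
    by_contra hs
    simp only [Finset.mem_insert, Finset.mem_singleton, not_or] at hs
    exact hcon ⟨s, hs.1, hs.2.1, hs.2.2⟩
  have h1 := Finset.card_le_card hsub
  have h2 : ({p, q, r} : Finset (Fin k × Bool)).card ≤ 3 := Finset.card_le_three
  rw [Finset.card_univ, Fintype.card_prod, Fintype.card_fin, Fintype.card_bool] at h1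
  omega

theorem g4_rel {α : Type} (p q : α × Bool) (h : q ≠ (p.1, !p.2)) : p.1 = q.1 → p.2 = q.2 := by
  obtain ⟨p1, p2⟩ := p
  obtain ⟨q1, q2⟩ := q
  intro e
  simp only at e
  subst e
  cases p2 <;> cases q2 <;> simp_all

theorem g4_ne {α : Type} (p q : α × Bool) (h : p ≠ q) : (p.1, !p.2) ≠ (q.1, !q.2) := by
  intro e
  apply h
  obtain ⟨p1, p2⟩ := p
  obtain ⟨q1, q2⟩ := q
  simp only [Prod.mk.injEq] at e ⊢
  exact ⟨e.1, by cases p2 <;> cases q2 <;> simp_all⟩

theorem free_prime {k : ℕ} (hk : 2 ≤ k) : PrimeGp (⊤ : Subgroup (FreeGroup (Fin k))) := by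
  intro a _ b _ ha hb
  have hA : a.toWord ≠ [] := fun h => ha (FreeGroup.toWord_eq_nil_iff.mp h)
  have hB : b.toWord ≠ [] := fun h => hb (FreeGroup.toWord_eq_nil_iff.mp h)
  have rA : FreeGroup.IsReduced a.toWord := FreeGroup.isReduced_toWord
  have rB : FreeGroup.IsReduced b.toWord := FreeGroup.isReduced_toWord
  have ea : a = FreeGroup.mk a.toWord := FreeGroup.mk_toWord.symm
  have eb : b = FreeGroup.mk b.toWord := FreeGroup.mk_toWord.symm
  generalize a.toWord = LA at hA rA ea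
  generalize b.toWord = LB at hB rB eb
  subst ea eb
  obtain ⟨s, hs1, hs2, -⟩ := g4_pick hk (LA.head hA)
    ((LA.getLast hA).1, !(LA.getLast hA).2) (LA.head hA)
  obtain ⟨t, ht1, ht2, ht3⟩ := g4_pick hk (s.1, !s.2)
    ((LB.head hB).1, !(LB.head hB).2) (LB.getLast hB)
  refine ⟨FreeGroup.mk [s, t], Subgroup.mem_top _, fun hc => ?_⟩
  have hw : FreeGroup.mk [s, t] * FreeGroup.mk LB * (FreeGroup.mk [s, t])⁻¹ =
      FreeGroup.mk (s :: (t :: (LB ++ [(t.1, !t.2), (s.1, !s.2)]))) := by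
    rw [FreeGroup.inv_mk, FreeGroup.mul_mk, FreeGroup.mul_mk]
    simp [FreeGroup.invRev]
  rw [hw] at hc
  have hhA : LA.head? = some (LA.head hA) := List.head?_eq_some_head hA
  have hlA : LA.getLast? = some (LA.getLast hA) := List.getLast?_eq_some_getLast hA
  have hhB : LB.head? = some (LB.head hB) := List.head?_eq_some_head hB
  have hlB : LB.getLast? = some (LB.getLast hB) := List.getLast?_eq_some_getLast hB
  have r1 : FreeGroup.IsReduced [(t.1, !t.2), (s.1, !s.2)] := by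
    rw [FreeGroup.isReduced_cons_cons]
    refine ⟨g4_rel _ _ ?_, FreeGroup.IsReduced.singleton⟩
    intro e
    apply ht1
    rw [e]; simp
  have r2 : FreeGroup.IsReduced (LB ++ [(t.1, !t.2), (s.1, !s.2)]) := by
    refine List.IsChain.append rB r1 ?_
    intro x hx y hy
    rw [hlB] at hx
    simp only [Option.mem_def, Option.some.injEq, List.head?_cons] at hx hy
    subst hx hy
    exact g4_rel _ _ (g4_ne _ _ ht3)
  have r3 : FreeGroup.IsReduced (t :: (LB ++ [(t.1, !t.2), (s.1, !s.2)])) := by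
    refine List.isChain_cons.mpr ⟨?_, r2⟩
    intro y hy
    rw [List.head?_append, hhB] at hy
    simp only [Option.mem_def, Option.some_or, Option.some.injEq] at hy
    subst hy
    refine g4_rel _ _ fun e => ht2 ?_
    rw [e]; simp
  have r4 : FreeGroup.IsReduced (s :: (t :: (LB ++ [(t.1, !t.2), (s.1, !s.2)]))) := by
    rw [FreeGroup.isReduced_cons_cons]
    exact ⟨g4_rel _ _ ht1, r3⟩
  have hlast : (s :: (t :: (LB ++ [(t.1, !t.2), (s.1, !s.2)]))).getLast? = some (s.1, !s.2) := by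
    have : s :: (t :: (LB ++ [(t.1, !t.2), (s.1, !s.2)])) =
        (s :: t :: LB ++ [(t.1, !t.2)]) ++ [(s.1, !s.2)] := by simp
    rw [this, List.getLast?_concat]
  generalize hW : t :: (LB ++ [(t.1, !t.2), (s.1, !s.2)]) = W at r4 hlast hc
  have r5 : FreeGroup.IsReduced (LA ++ s :: W) := by
    refine List.IsChain.append rA r4 ?_
    intro x hx y hy
    rw [hlA] at hx
    simp only [Option.mem_def, Option.some.injEq, List.head?_cons] at hx hy
    subst hx hy
    exact g4_rel _ _ hs2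
  have r6 : FreeGroup.IsReduced (s :: W ++ LA) := by
    refine List.IsChain.append r4 rA ?_
    intro x hx y hy
    rw [hlast] at hx
    rw [hhA] at hy
    simp only [Option.mem_def, Option.some.injEq] at hx hy
    subst hx hy
    refine g4_rel _ _ fun e => hs1 ?_
    rw [e]; simp
  have e1 := congrArg FreeGroup.toWord hc.eq
  rw [FreeGroup.mul_mk, FreeGroup.mul_mk, FreeGroup.toWord_mk, FreeGroup.toWord_mk,
    r5.reduce_eq, r6.reduce_eq] at e1
  have e2 := congrArg List.head? e1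
  rw [List.head?_append, hhA] at e2
  simp only [Option.some_or, List.cons_append, List.head?_cons, Option.some.injEq] at e2
  exact hs1 e2.symm

theorem g4_range (k : ℕ) :
    (FreeGroup.lift (fun j : Fin k => A N j k)).range = Fs N k := by
  rw [FreeGroup.range_lift_eq_closure, Fs]
  refine congrArg Subgroup.closure (Set.ext fun g => ?_)
  constructor
  · rintro ⟨j, rfl⟩
    exact ⟨j, j.2, rfl⟩
  · rintro ⟨j, hj, rfl⟩
    exact ⟨⟨j, hj⟩, rfl⟩

theorem Fs_prime {k : ℕ} (h2 : 2 ≤ k) (hk : k < N) : PrimeGp (Fs N k) := by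
  rw [← g4_range]
  rintro _ ⟨a, rfl⟩ _ ⟨b, rfl⟩ ha hb
  obtain ⟨e, -, he⟩ := free_prime h2 a (Subgroup.mem_top _) b (Subgroup.mem_top _)
    (fun h => ha (by rw [h, map_one])) (fun h => hb (by rw [h, map_one]))
  refine ⟨_, ⟨e, rfl⟩, fun hc => he ?_⟩
  apply ev_inj hk
  have := hc.eq
  simpa only [map_mul, map_inv] using this

/-- the length homomorphism -/
def g4_len (N : ℕ) : BraidGroup N →* Multiplicative ℤ :=
  braidLift (fun _ => Multiplicative.ofAdd (1 : ℤ)) (fun _ => rfl) (fun _ _ _ => rfl) N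

theorem g4_len_A {j k : ℕ} (h : j < k) (hk : k < N) :
    g4_len N (A N j k) = Multiplicative.ofAdd (2 : ℤ) := by
  have e : g4_len N (sg N j) = Multiplicative.ofAdd (1 : ℤ) :=
    braidLift_sg _ _ _ (by omega)
  rw [A, map_mul, map_mul, map_inv, mul_inv_cancel_comm, map_pow, e]
  rfl

theorem A_ne {j k : ℕ} (h : j < k) (hk : k < N) : A N j k ≠ 1 := by
  intro e
  have := g4_len_A h hk
  rw [e, map_one] at this
  exact absurd this (by decide)

theorem A_noncomm {i j k : ℕ} (h : i < j) (hj : j < k) (hk : k < N) :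
    ¬ Commute (A N i k) (A N j k) := by
  intro hc
  have e : (FreeGroup.of (⟨i, h.trans hj⟩ : Fin k)) * FreeGroup.of ⟨j, hj⟩ =
      FreeGroup.of ⟨j, hj⟩ * FreeGroup.of ⟨i, h.trans hj⟩ := by
    apply ev_inj hk
    simpa only [map_mul, FreeGroup.lift_apply_of] using hc.eq
  have r : ∀ p q : Fin k, FreeGroup.IsReduced [(p, true), (q, true)] := fun p q => by
    rw [FreeGroup.isReduced_cons_cons]
    exact ⟨fun _ => rfl, FreeGroup.IsReduced.singleton⟩
  have e1 := congrArg FreeGroup.toWord e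
  rw [FreeGroup.toWord_mul, FreeGroup.toWord_mul] at e1
  simp only [FreeGroup.toWord_of, List.cons_append, List.nil_append] at e1
  rw [(r _ _).reduce_eq, (r _ _).reduce_eq] at e1
  simp only [List.cons.injEq, Prod.mk.injEq, Fin.mk.injEq] at e1
  omega

/-- the product of the first generators of a free factor -/
def g4_y (N k : ℕ) : ℕ → BraidGroup N
  | 0 => 1
  | m + 1 => g4_y N k m * A N m k

theorem g4_y_mem {k m : ℕ} (hm : m ≤ k) : g4_y N k m ∈ Fs N k := by
  induction m with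
  | zero => exact one_mem _
  | succ m ih =>
    exact mul_mem (ih (by omega)) (Subgroup.subset_closure ⟨m, by omega, rfl⟩)

theorem g4_y_len {k m : ℕ} (hm : m ≤ k) (hk : k < N) :
    g4_len N (g4_y N k m) = Multiplicative.ofAdd (2 * m : ℤ) := by
  induction m with
  | zero => simp [g4_y]
  | succ m ih =>
    rw [g4_y, map_mul, ih (by omega), g4_len_A (by omega) hk, ← ofAdd_add]
    exact congrArg Multiplicative.ofAdd (by push_cast; ring)

theorem g4_y_low {k i m : ℕ} (hi : i + 1 < k) (hk : k < N) (hm : m ≤ i) :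
    Commute (sg N i) (g4_y N k m) := by
  induction m with
  | zero => exact Commute.one_right _
  | succ m ih =>
    exact (ih (by omega)).mul_right (A_comm (by omega) hk (by omega))

theorem g4_y_high {k i m : ℕ} (hi : i + 1 < k) (hk : k < N) (hm : i + 2 ≤ m) (hmk : m ≤ k) :
    Commute (sg N i) (g4_y N k m) := by
  induction m, hm using Nat.le_induction with
  | base =>
    have e : g4_y N k (i + 2) = g4_y N k i * (A N i k * A N (i + 1) k) := by
      rw [← mul_assoc]; rfl
    rw [e]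
    refine (g4_y_low hi hk le_rfl).mul_right ?_
    have h1 := A_lower (N := N) hi hk
    have h2 := A_hur (N := N) hi hk
    have h3 : A N (i + 1) k * sg N i = sg N i * A N i k := by
      rw [← h1]; group
    have h4 : A N i k * sg N i = sg N i * (A N i k * A N (i + 1) k * (A N i k)⁻¹) := by
      rw [← h2]; group
    change sg N i * (A N i k * A N (i + 1) k) = A N i k * A N (i + 1) k * sg N i
    rw [mul_assoc, h3, ← mul_assoc (A N i k), h4]
    group
  | succ m hm ih =>
    exact (ih (by omega)).mul_right (A_comm (by omega) hk (by omega))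

theorem exists_y {k : ℕ} (h : 1 ≤ k) (hk : k < N) :
    ∃ y ∈ Fs N k, y ≠ 1 ∧ ∀ g ∈ Bs N k, Commute y g := by
  refine ⟨g4_y N k k, g4_y_mem le_rfl, fun e => ?_, fun g hg => ?_⟩
  · have := g4_y_len (N := N) (le_refl k) hk
    rw [e, map_one] at this
    have h2 := congrArg Multiplicative.toAdd this
    simp only [toAdd_one, toAdd_ofAdd] at h2
    omega
  · induction hg using Subgroup.closure_induction with
    | mem x hx =>
      obtain ⟨i, hi, rfl⟩ := hx
      exact (g4_y_high hi hk (by omega) le_rfl).symm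
    | one => exact Commute.one_right _
    | mul x y _ _ hx hy => exact hx.mul_right hy
    | inv x _ hx => exact hx.inv_right

theorem exists_iota {m : ℕ} (hm : m ≤ N) : ∃ ι : BraidGroup m →* BraidGroup N,
    (∀ i, i + 1 < m → ι (sg m i) = sg N i) ∧ ∀ κ, ι κ ∈ Bs N m := by
  have hrel : ∀ r ∈ braidRels m,
      FreeGroup.lift (fun i : Fin (m - 1) => sg N i) r = 1 := by
    rintro r (⟨i, j, hij, rfl⟩ | ⟨i, j, hij, rfl⟩)
    · simp only [map_mul, map_inv, FreeGroup.lift_apply_of, mul_inv_eq_one, ← hij]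
      exact sg_braid (by have := j.2; omega)
    · simp only [map_mul, map_inv, FreeGroup.lift_apply_of, mul_inv_eq_one]
      exact (sg_far hij).eq
  have h1 : ∀ i, i + 1 < m → PresentedGroup.toGroup hrel (sg m i) = sg N i := by
    intro i hi
    have hi' : i < m - 1 := by omega
    rw [sg, dif_pos hi', PresentedGroup.toGroup.of]
  refine ⟨PresentedGroup.toGroup hrel, h1, fun κ => ?_⟩
  have hκ : κ ∈ Bs m m := by rw [Bs_top]; exact Subgroup.mem_top _
  induction hκ using Subgroup.closure_induction with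
  | mem x hx =>
    obtain ⟨i, hi, rfl⟩ := hx
    rw [h1 i hi]
    exact sg_mem hi
  | one => rw [map_one]; exact one_mem _
  | mul x y _ _ hx hy => rw [map_mul]; exact mul_mem hx hy
  | inv x _ hx => rw [map_inv]; exact inv_mem hx
end Rowg4


end Pool.Agent.MP_b64966_al.PG
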