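import Pool.Agent.MP_b64966_al.PG.Grp

namespace Pool.Agent.MP_b64966_al.PG

open Module

universe u

variable {N : ℕ}
variable {K : Type u} [Field K] {V : Type u} [AddCommGroup V] [Module K V]

section Rowtw
theorem rep_tw {n : ℕ} {R : BraidGroup N → End K V} (hR : IsRep (Ps N n) R) {g : BraidGroup N}
    (hg : g ∈ Bs N n) : IsRep (Ps N n) (tw g R) := by
  refine ⟨?_, fun a ha b hb => ?_⟩
  · unfold tw
    rw [mul_one, mul_inv_cancel, hR.1]
  · unfold tw
    rw [← hR.2 _ (conj_mem_Ps hg ha) _ (conj_mem_Ps hg hb)]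
    congr 1
    group

theorem tw_sc {G : Type*} [Group G] {H : Subgroup G} {R : G → End K V} (hR : IsRep H R) {x p : G}
    (hx : x ∈ H) (hp : p ∈ H) {c : K} (h : R x = c • (1 : End K V)) :
    R (p * x * p⁻¹) = c • (1 : End K V) := by
  rw [hR.2 _ (mul_mem hp hx) _ (inv_mem hp), hR.2 _ hp _ hx, h, mul_smul_comm, mul_one,
    smul_mul_assoc, ← hR.2 _ hp _ (inv_mem hp), mul_inv_cancel, hR.1]

theorem tw_comm {k : ℕ} (hk : k < N) {R : BraidGroup N → End K V}
    (hR : IsRep (Ps N (k + 1)) R) (hF : PF (Fs N k) R) {x w : BraidGroup N}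
    (hx : x ∈ Ps N (k + 1)) {c : K} (h : R x = c • (1 : End K V)) (hw : w ∈ Fs N k) :
    Commute x w := by
  have hw' : w ∈ Ps N (k + 1) := Fs_le (Nat.lt_succ_self k) hk hw
  have h1 : w * x * w⁻¹ * x⁻¹ ∈ Fs N k := by
    have e : w * x * w⁻¹ * x⁻¹ = w * (x * w⁻¹ * x⁻¹) := by group
    rw [e]
    exact mul_mem hw (Fs_normP hk hx (inv_mem hw))
  have h2 := hF _ h1 ⟨1, by
    rw [hR.2 _ (mul_mem (mul_mem hw' hx) (inv_mem hw')) _ (inv_mem hx), tw_sc hR hx hw' h, ← h,
      ← hR.2 _ hx _ (inv_mem hx), mul_inv_cancel, hR.1, one_smul]⟩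
  rw [mul_inv_eq_one, mul_inv_eq_iff_eq_mul] at h2
  exact h2.symm

theorem pf_tw {k : ℕ} (h2 : 2 ≤ k) (hk : k < N) {R : BraidGroup N → End K V}
    (hR : IsRep (Ps N (k + 1)) R) (hF : PF (Fs N k) R) {g : BraidGroup N}
    (hg : g ∈ Bs N (k + 1)) : PF (Fs N k) (tw g R) := by
  rintro f hf ⟨c, hc⟩
  by_contra hne
  have hA : ∀ j < k, A N j k ∈ Fs N k := fun j hj => Subgroup.subset_closure ⟨j, hj, rfl⟩
  have hP : Fs N k ≤ Ps N (k + 1) := Fs_le (Nat.lt_succ_self k) hk
  obtain ⟨j, hj, f0, hf0, b, hb, e1⟩ := coset hk (inv_mem hg)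
  obtain ⟨w, w1, w2, w3⟩ : ∃ w ∈ Fs N k, w ≠ 1 ∧ dsc N j k * w * (dsc N j k)⁻¹ ∈ Fs N k := by
    rcases hj.lt_or_eq with h | rfl
    · refine ⟨A N j k, hA j h, A_ne h hk, ?_⟩
      have e : dsc N j k * A N j k * (dsc N j k)⁻¹ = A N (k - 1) k := by
        rw [← (dsc_A h hk).2]
        group
      rw [e]
      exact hA _ (by omega)
    · obtain ⟨i, rfl⟩ : ∃ i, j = i + 1 := ⟨j - 1, by omega⟩
      refine ⟨A N 0 (i + 1), hA 0 (by omega), A_ne (by omega) hk, ?_⟩
      have e : dsc N (i + 1) (i + 1) = 1 := by simp [dsc]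
      rw [e, one_mul, inv_one, mul_one]
      exact hA 0 (by omega)
  have a1 : g⁻¹ * w * g ∈ Fs N k := by
    have e : g⁻¹ * w * g = f0 * (b * (dsc N j k * w * (dsc N j k)⁻¹) * b⁻¹) * f0⁻¹ := by
      rw [← inv_inv g, e1]
      group
    rw [e]
    exact mul_mem (mul_mem hf0 (Fs_norm hk hb w3)) (inv_mem hf0)
  have a2 : g⁻¹ * w * g ≠ 1 := fun h => w2 (by
    have e : w = g * (g⁻¹ * w * g) * g⁻¹ := by group
    rw [e, h]
    group)
  obtain ⟨e, he, h3⟩ := Fs_prime h2 hk _ a1 _ hf a2 hne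
  have x1 := conj_mem_Ps hg (hP hf)
  have x2 := conj_mem_Ps hg (hP he)
  have h4 := tw_comm hk hR hF (mul_mem (mul_mem x2 x1) (inv_mem x2)) (tw_sc hR x1 x2 hc) w1
  apply h3
  have h5 : g⁻¹ * w * g * (e * f * e⁻¹) =
      g⁻¹ * (w * (g * e * g⁻¹ * (g * f * g⁻¹) * (g * e * g⁻¹)⁻¹)) * g := by group
  have h6 : e * f * e⁻¹ * (g⁻¹ * w * g) =
      g⁻¹ * (g * e * g⁻¹ * (g * f * g⁻¹) * (g * e * g⁻¹)⁻¹ * w) * g := by group
  unfold Commute SemiconjBy
  rw [h5, h6, h4.eq]

theorem pf_down {k l : ℕ} (hl : 2 ≤ l) (hlk : l ≤ k) (hk : k < N) {R : BraidGroup N → End K V}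
    (hR : IsRep (Ps N (k + 1)) R) (hF : PF (Fs N k) R) : PF (Fs N l) R := by
  rcases hlk.lt_or_eq with h | rfl
  swap
  · exact hF
  rintro f hf ⟨c, hc⟩
  obtain ⟨ι, h1, -⟩ := exists_iota (N := N) (m := k) hk.le
  have h2 : Bs N k ≤ ι.range := by
    refine (Subgroup.closure_le _).2 ?_
    rintro x ⟨i, hi, rfl⟩
    exact ⟨sg k i, h1 i hi⟩
  obtain ⟨κ, rfl⟩ := h2 (Fs_le h hk.le hf).1
  rw [artin_faithful le_rfl hk ι h1 κ fun a ha =>
    tw_comm hk hR hF (Fs_le (by omega) hk hf) hc (Subgroup.subset_closure ⟨a, ha, rfl⟩), map_one]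

theorem tw_tw {G α : Type*} [Group G] (g g' : G) (R : G → α) : tw g' (tw g R) = tw (g * g') R := by
  funext b
  unfold tw
  congr 1
  group

theorem good_tw {M : ℕ} (h3 : 3 ≤ M) (hM : M ≤ N) {R : BraidGroup N → End K V}
    {lam : BraidGroup N → K} (h : Good M R lam) {g : BraidGroup N} (hg : g ∈ Bs N M) :
    Good M (tw g R) (tw g lam) := by
  obtain ⟨k, rfl⟩ : ∃ k, M = k + 1 := ⟨M - 1, by omega⟩
  refine ⟨rep_tw h.rep hg, fun U hU => h.irr U fun p hp v hv => ?_,
    pf_tw (k := k) (by omega) hM h.rep h.pf hg, fun a => h.lam0 _, fun p hp a ha => ?_,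
    fun g' hg' => ?_, fun g' hg' => ?_⟩
  · have h1 := hU _ (conj_mem_Ps (inv_mem hg) hp) v hv
    have e : g * (g⁻¹ * p * g⁻¹⁻¹) * g⁻¹ = p := by group
    unfold tw at h1
    rwa [e] at h1
  · unfold tw
    rw [← h.lamc _ (conj_mem_Ps hg hp) _ (conj_mem_Ps hg ha)]
    congr 1
    group
  · rw [tw_tw, tw_tw]
    exact h.h1 _ (mul_mem hg hg')
  · rw [tw_tw, tw_tw]
    exact h.h2 _ (mul_mem hg hg')
end Rowtw

section Rowla
theorem la_top [Infinite K] [FiniteDimensional K V] {ι : Type} [Fintype ι]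
    (t x : ι → End K V) (h1 : ∀ i j, Commute (t i) (t j))
    (h2 : ∀ i j, i ≠ j → Commute (t i) (x j))
    (h3 : ∀ i, ∃ v, t i (x i v) ≠ x i (t i v)) : Fintype.card ι ≤ finrank K V := by
  classical
  obtain ⟨v, hv⟩ := Submodule.exists_forall_notMem_of_forall_ne_top
    (fun i => LinearMap.ker (t i * x i - x i * t i)) (fun i hi => by
      obtain ⟨w, hw⟩ := h3 i
      have : w ∈ LinearMap.ker (t i * x i - x i * t i) := hi ▸ Submodule.mem_top
      exact hw (sub_eq_zero.1 this))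
  obtain ⟨ξ, hξ⟩ := Module.exists_dual_forall_apply_ne_zero (K := K)
    (fun i => (t i * x i - x i * t i) v) (fun i => hv i)
  let T : (ι → K) →ₗ[K] End K V := Fintype.linearCombination K t
  have hT : ∀ a, T a = ∑ i, a i • t i := fun a => Fintype.linearCombination_apply K t a
  have hTT : ∀ a b, Commute (T a) (T b) := by
    intro a b
    rw [hT, hT]
    exact Commute.sum_left _ _ _ fun i _ => Commute.sum_right _ _ _ fun j _ =>
      ((h1 i j).smul_left _).smul_right _
  have hTx : ∀ a j, T a * x j - x j * T a = a j • (t j * x j - x j * t j) := by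
    intro a j
    rw [hT, Finset.sum_mul, Finset.mul_sum, ← Finset.sum_sub_distrib, Finset.sum_eq_single j]
    · rw [smul_mul_assoc, mul_smul_comm, smul_sub]
    · intro i _ hi
      rw [smul_mul_assoc, mul_smul_comm, (h2 i j hi).eq, sub_self]
    · simp
  let α : (ι → K) →ₗ[K] V := (LinearMap.applyₗ v).comp T
  let β : (ι → K) →ₗ[K] Dual K V := (LinearMap.llcomp K V V K ξ).comp T
  have hβ : ∀ a : LinearMap.ker α, (β.comp (LinearMap.ker α).subtype) a ∈
      (LinearMap.range α).dualAnnihilator := by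
    intro a
    rw [Submodule.mem_dualAnnihilator]
    rintro _ ⟨b, rfl⟩
    have ha : T a v = 0 := a.2
    have e : T a (T b v) = T b (T a v) := LinearMap.congr_fun (hTT a b).eq v
    show ξ (T a (T b v)) = 0
    rw [e, ha, map_zero, map_zero]
  have hinj : Function.Injective
      (LinearMap.codRestrict _ (β.comp (LinearMap.ker α).subtype) hβ) := by
    rw [injective_iff_map_eq_zero]
    intro a ha
    have hb : β a = 0 := congrArg Subtype.val ha
    have ha' : T a v = 0 := a.2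
    ext j
    have e1 : ξ (T a (x j v)) = 0 := LinearMap.congr_fun hb (x j v)
    have e2 : ξ ((T a * x j - x j * T a) v) = 0 := by
      show ξ (T a (x j v) - x j (T a v)) = 0
      rw [ha', map_zero, sub_zero, e1]
    rw [hTx, LinearMap.smul_apply, map_smul, smul_eq_mul, mul_eq_zero] at e2
    exact e2.resolve_right (hξ j)
  have f1 := LinearMap.finrank_le_finrank_of_injective hinj
  have f2 := LinearMap.finrank_range_add_finrank_ker α
  have f3 := Subspace.finrank_add_finrank_dualAnnihilator_eq (LinearMap.range α)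
  rw [Module.finrank_fintype_fun_eq_card] at f2
  omega

theorem l_one [Infinite K] [FiniteDimensional K V] {ι : Type} [Fintype ι] (U : Submodule K V)
    (t x : ι → End K V) (ht : ∀ i, ∀ v ∈ U, t i v ∈ U) (hx : ∀ i, ∀ v ∈ U, x i v ∈ U)
    (h1 : ∀ i j, Commute (t i) (t j)) (h2 : ∀ i j, i ≠ j → Commute (t i) (x j))
    (h3 : ∀ i, ∃ v ∈ U, t i (x i v) ≠ x i (t i v)) : Fintype.card ι ≤ finrank K U := by
  refine la_top (fun i => (t i).restrict (ht i)) (fun i => (x i).restrict (hx i)) ?_ ?_ ?_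
  · intro i j
    exact LinearMap.ext fun v => Subtype.ext (LinearMap.congr_fun (h1 i j).eq v.1)
  · intro i j hij
    exact LinearMap.ext fun v => Subtype.ext (LinearMap.congr_fun (h2 i j hij).eq v.1)
  · intro i
    obtain ⟨v, hv, hne⟩ := h3 i
    exact ⟨⟨v, hv⟩, fun e => hne (congrArg Subtype.val e)⟩

theorem la_rank_inj {W : Type u} [AddCommGroup W] [Module K W] [FiniteDimensional K V]
    [FiniteDimensional K W] (j : W →ₗ[K] V) (hj : Function.Injective j) (T : End K V)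
    (T' : End K W) (h : ∀ w, j (T' w) = T (j w)) :
    finrank K (LinearMap.range T) + finrank K W ≤ finrank K (LinearMap.range T') + finrank K V := by
  have hm : ∀ w : LinearMap.ker T', (j.comp (LinearMap.ker T').subtype) w ∈ LinearMap.ker T := by
    intro w
    have hw : T' w = 0 := w.2
    show T (j w) = 0
    rw [← h, hw, map_zero]
  have hinj : Function.Injective (LinearMap.codRestrict _ _ hm) := by
    intro a b hab
    exact Subtype.ext (hj (congrArg Subtype.val hab))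
  have f1 := LinearMap.finrank_le_finrank_of_injective hinj
  have f2 := LinearMap.finrank_range_add_finrank_ker T
  have f3 := LinearMap.finrank_range_add_finrank_ker T'
  omega

theorem la_rank_surj {W : Type u} [AddCommGroup W] [Module K W] [FiniteDimensional K V]
    [FiniteDimensional K W] (p : V →ₗ[K] W) (hp : Function.Surjective p) (T : End K V)
    (T' : End K W) (h : ∀ v, p (T v) = T' (p v)) :
    finrank K (LinearMap.range T) + finrank K W ≤ finrank K (LinearMap.range T') + finrank K V := by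
  let g := p.comp (LinearMap.range T).subtype
  have f1 := LinearMap.finrank_range_add_finrank_ker g
  have f2 : finrank K (LinearMap.range g) ≤ finrank K (LinearMap.range T') := by
    refine Submodule.finrank_mono ?_
    rintro _ ⟨⟨_, v, rfl⟩, rfl⟩
    exact ⟨p v, (h v).symm⟩
  have hm : ∀ w : LinearMap.ker g, ((LinearMap.range T).subtype.comp (LinearMap.ker g).subtype) w ∈
      LinearMap.ker p := fun w => w.2
  have hinj : Function.Injective (LinearMap.codRestrict _ _ hm) := by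
    intro a b hab
    have e := congrArg Subtype.val hab
    exact Subtype.ext (Subtype.ext e)
  have f3 := LinearMap.finrank_le_finrank_of_injective hinj
  have f4 := LinearMap.finrank_range_add_finrank_ker p
  rw [LinearMap.range_eq_top.2 hp, finrank_top] at f4
  omega

theorem la_mul {G : Type} [Group G] {H : Subgroup G} {R : G → End K V} (hR : IsRep H R)
    {a b : G} (ha : a ∈ H) (hb : b ∈ H) (v : V) : R (a * b) v = R a (R b v) := by
  rw [hR.2 a ha b hb]; rfl

theorem la_inv {G : Type} [Group G] {H : Subgroup G} {R : G → End K V} (hR : IsRep H R)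
    {a : G} (ha : a ∈ H) (v : V) : R a (R a⁻¹ v) = v := by
  rw [← la_mul hR ha (inv_mem ha), mul_inv_cancel, hR.1]; rfl

theorem la_pf {G : Type} [Group G] {H F : Subgroup G} (hF : F ≤ H) (hp : PrimeGp F)
    {R : G → End K V} (hR : IsRep H R) (hf : PF F R) (U : Submodule K V)
    (hU : ∀ g ∈ H, ∀ v ∈ U, R g v ∈ U) {a b : G} (ha : a ∈ F) (hb : b ∈ F) (ha1 : a ≠ 1)
    (hb1 : b ≠ 1) {c d : K} (hc : ∀ v ∈ U, R a v = c • v) (hd : ∀ v, R b v - d • v ∈ U) :
    False := by
  have cj : ∀ e ∈ F, ∀ g ∈ F, ∀ v, R (e * g * e⁻¹) v = R e (R g (R e⁻¹ v)) := by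
    intro e he g hg v
    rw [la_mul hR (hF (mul_mem he hg)) (hF (inv_mem he)), la_mul hR (hF he) (hF hg)]
  obtain ⟨e, he, hne⟩ := hp a ha b hb ha1 hb1
  have hb' : e * b * e⁻¹ ∈ F := mul_mem (mul_mem he hb) (inv_mem he)
  have hd' : ∀ v, R (e * b * e⁻¹) v - d • v ∈ U := by
    intro v
    have := hU e (hF he) _ (hd (R e⁻¹ v))
    rwa [map_sub, map_smul, la_inv hR (hF he), ← cj e he b hb] at this
  generalize e * b * e⁻¹ = b' at hne hb' hd'
  have hz : a * b' * (b' * a)⁻¹ ∈ F := mul_mem (mul_mem ha hb') (inv_mem (mul_mem hb' ha))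
  have hz1 : a * b' * (b' * a)⁻¹ ≠ 1 := fun h0 => hne (mul_inv_eq_one.1 h0)
  have hi : (b' * a)⁻¹ ∈ H := hF (inv_mem (mul_mem hb' ha))
  have e1 : ∀ v, R (a * b' * (b' * a)⁻¹) v = R a (R b' (R (b' * a)⁻¹ v)) := by
    intro v
    rw [la_mul hR (hF (mul_mem ha hb')) hi, la_mul hR (hF ha) (hF hb')]
  have e2 : ∀ v, R b' (R a (R (b' * a)⁻¹ v)) = v := by
    intro v
    rw [← la_mul hR (hF hb') (hF ha), la_inv hR (hF (mul_mem hb' ha))]
  have t1 : ∀ v ∈ U, R (a * b' * (b' * a)⁻¹) v = v := by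
    intro v hv
    have hw := hU _ hi v hv
    rw [e1, hc _ (hU _ (hF hb') _ hw), ← map_smul, ← hc _ hw, e2]
  have t2 : ∀ v, R (a * b' * (b' * a)⁻¹) v - v ∈ U := by
    intro v
    have := sub_mem (hU a (hF ha) _ (hd' (R (b' * a)⁻¹ v))) (hd' (R a (R (b' * a)⁻¹ v)))
    rwa [map_sub, map_smul, sub_sub_sub_cancel_right, e2, ← e1] at this
  generalize a * b' * (b' * a)⁻¹ = z at hz hz1 t1 t2
  obtain ⟨e', he', hne'⟩ := hp z hz z hz hz1 hz1
  have hz' : e' * z * e'⁻¹ ∈ F := mul_mem (mul_mem he' hz) (inv_mem he')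
  have t1' : ∀ v ∈ U, R (e' * z * e'⁻¹) v = v := by
    intro v hv
    rw [cj e' he' z hz, t1 _ (hU _ (hF (inv_mem he')) v hv), la_inv hR (hF he')]
  have t2' : ∀ v, R (e' * z * e'⁻¹) v - v ∈ U := by
    intro v
    have := hU e' (hF he') _ (t2 (R e'⁻¹ v))
    rwa [map_sub, la_inv hR (hF he'), ← cj e' he' z hz] at this
  generalize e' * z * e'⁻¹ = z' at hne' hz' t1' t2'
  have cm : ∀ v, R z (R z' v) = R z' (R z v) := by
    intro v
    have s1 := t1 _ (t2' v)
    have s2 := t1' _ (t2 v)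
    rw [map_sub] at s1 s2
    rw [sub_eq_iff_eq_add.1 s1, sub_eq_iff_eq_add.1 s2]
    abel
  have hm : z' * z ∈ F := mul_mem hz' hz
  refine hne' (mul_inv_eq_one.1 (hf _ (mul_mem (mul_mem hz hz') (inv_mem hm)) ⟨1, ?_⟩))
  ext v
  rw [la_mul hR (hF (mul_mem hz hz')) (hF (inv_mem hm)), la_mul hR (hF hz) (hF hz'), cm,
    ← la_mul hR (hF hz') (hF hz), la_inv hR (hF hm)]
  simp

theorem la_subq [IsAlgClosed K] {G : Type} [Group G] (H F : Subgroup G)
    (hF : F ≤ H) (hp : PrimeGp F) (h1 : ∃ f ∈ F, f ≠ 1) (lam : G → K) (I : Set (G × G × G))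
    (hI : ∀ x ∈ I, x.1 ∈ H ∧ x.2.1 ∈ H ∧ x.2.2 ∈ H) (t : G) (ht : t ∈ H)
    (hc : ∀ g ∈ H, Commute t g) (n : ℕ) :
    ∀ (V : Type u) [AddCommGroup V] [Module K V] [FiniteDimensional K V], finrank K V < n →
    ∀ (R : G → End K V), IsRep H R → PF F R → (∀ x ∈ I, K3 R lam x.1 x.2.1 x.2.2) →
    ∃ (W : Type u) (_ : AddCommGroup W) (_ : Module K W) (_ : FiniteDimensional K W)
      (R' : G → End K W), IsRep H R' ∧ Irr H R' ∧ PF F R' ∧
      (∀ x ∈ I, K3 R' lam x.1 x.2.1 x.2.2) ∧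
      ∃ c : K, finrank K (LinearMap.range (R t - c • (1 : End K V))) + finrank K W
        ≤ finrank K V := by
  classical
  induction n with
  | zero => intro V _ _ _ h; omega
  | succ n ih =>
    intro V _ _ _ hn R hR hf hK
    by_cases hirr : Irr H R
    · refine ⟨V, inferInstance, inferInstance, inferInstance, R, hR, hirr, hf, hK, ?_⟩
      have hnt : Nontrivial V := by
        by_contra h0
        rw [not_nontrivial_iff_subsingleton] at h0
        obtain ⟨f, hf1, hf2⟩ := h1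
        exact hf2 (hf f hf1 ⟨1, Subsingleton.elim _ _⟩)
      obtain ⟨c, hc'⟩ := Module.End.exists_eigenvalue (R t)
      refine ⟨c, ?_⟩
      have hinv : ∀ g ∈ H, ∀ v ∈ (R t).eigenspace c, R g v ∈ (R t).eigenspace c := by
        intro g hg v hv
        rw [Module.End.mem_eigenspace_iff] at hv ⊢
        rw [← la_mul hR ht hg, (hc g hg).eq, la_mul hR hg ht, hv, map_smul]
      have htop := (hirr _ hinv).resolve_left hc'
      have e : R t - c • (1 : End K V) = 0 := by
        ext v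
        have hv : v ∈ (R t).eigenspace c := htop ▸ Submodule.mem_top
        rw [Module.End.mem_eigenspace_iff] at hv
        simp [hv]
      rw [e, LinearMap.range_zero, finrank_bot, zero_add]
    · unfold Irr at hirr
      push Not at hirr
      obtain ⟨U, hU, hU0, hU1⟩ := hirr
      let R1 : G → End K U := fun g => if hg : g ∈ H then (R g).restrict (hU g hg) else 0
      let R2 : G → End K (V ⧸ U) := fun g =>
        if hg : g ∈ H then U.mapQ U (R g) (fun v hv => hU g hg v hv) else 0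
      have r1 : ∀ g ∈ H, ∀ w : U, (R1 g w : V) = R g w := by
        intro g hg w
        simp only [R1, dif_pos hg]
        rfl
      have r2 : ∀ g ∈ H, ∀ v : V, R2 g (U.mkQ v) = U.mkQ (R g v) := by
        intro g hg v
        simp only [R2, dif_pos hg]
        rfl
      by_cases p1 : PF F R1
      · have hlt : finrank K U < n := lt_of_lt_of_le (Submodule.finrank_lt hU1) (by omega)
        have s1 : IsRep H R1 := by
          refine ⟨?_, fun a ha b hb => ?_⟩
          · ext w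
            rw [r1 1 (one_mem _), hR.1]; rfl
          · ext w
            rw [r1 _ (mul_mem ha hb), la_mul hR ha hb, Module.End.mul_apply, r1 a ha, r1 b hb]
        have s2 : ∀ x ∈ I, K3 R1 lam x.1 x.2.1 x.2.2 := by
          intro x hx
          obtain ⟨a1, a2, a3⟩ := hI x hx
          refine LinearMap.ext fun w => Subtype.ext ?_
          have := LinearMap.congr_fun (hK x hx) (w : V)
          simpa [Nn, r1 _ a1, r1 _ a2, r1 _ a3] using this
        obtain ⟨W, i1, i2, i3, R', q1, q2, q3, q4, c, q5⟩ := ih U hlt R1 s1 p1 s2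
        refine ⟨W, i1, i2, i3, R', q1, q2, q3, q4, c, ?_⟩
        have := la_rank_inj U.subtype U.injective_subtype (R t - c • (1 : End K V))
          (R1 t - c • (1 : End K U)) (fun w => by simp [r1 t ht])
        omega
      by_cases p2 : PF F R2
      · have hlt : finrank K (V ⧸ U) < n := by
          have f1 := U.finrank_quotient_add_finrank
          have f2 : finrank K U ≠ 0 := fun h0 => hU0 (Submodule.finrank_eq_zero.1 h0)
          omega
        have s1 : IsRep H R2 := by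
          refine ⟨LinearMap.ext fun w => ?_, fun a ha b hb => LinearMap.ext fun w => ?_⟩
          · obtain ⟨v, rfl⟩ := U.mkQ_surjective w
            rw [r2 1 (one_mem _), hR.1]; rfl
          · obtain ⟨v, rfl⟩ := U.mkQ_surjective w
            rw [r2 _ (mul_mem ha hb), la_mul hR ha hb, Module.End.mul_apply, r2 b hb, r2 a ha]
        have s2 : ∀ x ∈ I, K3 R2 lam x.1 x.2.1 x.2.2 := by
          intro x hx
          obtain ⟨a1, a2, a3⟩ := hI x hx
          refine LinearMap.ext fun w => ?_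
          obtain ⟨v, rfl⟩ := U.mkQ_surjective w
          have e0 : (R x.2.1 * R x.2.2 - R x.2.2 * R x.2.1) (Nn R lam x.1 v) = 0 :=
            LinearMap.congr_fun (hK x hx) v
          have e1 : Nn R2 lam x.1 (U.mkQ v) = U.mkQ (Nn R lam x.1 v) := by
            unfold Nn
            rw [LinearMap.sub_apply, LinearMap.sub_apply, r2 _ a1, map_sub]; rfl
          show R2 x.2.1 (R2 x.2.2 (Nn R2 lam x.1 (U.mkQ v))) -
            R2 x.2.2 (R2 x.2.1 (Nn R2 lam x.1 (U.mkQ v))) = 0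
          rw [e1, r2 _ a3, r2 _ a2, r2 _ a2, r2 _ a3, ← map_sub]
          exact (congrArg U.mkQ e0).trans (map_zero _)
        obtain ⟨W, i1, i2, i3, R', q1, q2, q3, q4, c, q5⟩ := ih (V ⧸ U) hlt R2 s1 p2 s2
        refine ⟨W, i1, i2, i3, R', q1, q2, q3, q4, c, ?_⟩
        have := la_rank_surj U.mkQ U.mkQ_surjective (R t - c • (1 : End K V))
          (R2 t - c • (1 : End K (V ⧸ U))) (fun v => by
            rw [LinearMap.sub_apply, LinearMap.sub_apply, r2 t ht, map_sub]; rfl)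
        omega
      exfalso
      unfold PF at p1 p2
      push Not at p1 p2
      obtain ⟨a, ha, ⟨c, hc1⟩, ha1⟩ := p1
      obtain ⟨b, hb, ⟨d, hd1⟩, hb1⟩ := p2
      refine la_pf hF hp hR hf U hU ha hb ha1 hb1 (c := c) (d := d) (fun v hv => ?_) (fun v => ?_)
      · have := r1 a (hF ha) ⟨v, hv⟩
        rw [hc1] at this
        exact this.symm
      · have := r2 b (hF hb) v
        rw [hd1] at this
        exact (Submodule.Quotient.eq U).1 this.symm

theorem subq [IsAlgClosed K] [FiniteDimensional K V] {G : Type} [Group G] (H F : Subgroup G)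
    (hF : F ≤ H) (hp : PrimeGp F) (h1 : ∃ f ∈ F, f ≠ 1) (lam : G → K) (I : Set (G × G × G))
    (hI : ∀ x ∈ I, x.1 ∈ H ∧ x.2.1 ∈ H ∧ x.2.2 ∈ H) (t : G) (ht : t ∈ H)
    (hc : ∀ g ∈ H, Commute t g) (R : G → End K V) (hR : IsRep H R) (hf : PF F R)
    (hK : ∀ x ∈ I, K3 R lam x.1 x.2.1 x.2.2) :
    ∃ (W : Type u) (_ : AddCommGroup W) (_ : Module K W) (_ : FiniteDimensional K W)
      (R' : G → End K W), IsRep H R' ∧ Irr H R' ∧ PF F R' ∧
      (∀ x ∈ I, K3 R' lam x.1 x.2.1 x.2.2) ∧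
      ∃ c : K, finrank K (LinearMap.range (R t - c • (1 : End K V))) + finrank K W
        ≤ finrank K V :=
  la_subq H F hF hp h1 lam I hI t ht hc _ V (Nat.lt_succ_self _) R hR hf hK
end Rowla

section Rowbadle
theorem badle_comm {G : Type*} [Group G] {H : Subgroup G} {R : G → End K V} (hR : IsRep H R)
    {a b : G} (ha : a ∈ H) (hb : b ∈ H) (h : Commute a b) : Commute (R a) (R b) := by
  show R a * R b = R b * R a
  rw [← hR.2 a ha b hb, ← hR.2 b hb a ha, h.eq]

theorem badle_inv {G : Type*} [Group G] {H : Subgroup G} {R : G → End K V} (hR : IsRep H R)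
    (lam : G → K) {a b : G} (ha : a ∈ H) (hb : b ∈ H) (h : Commute a b) :
    ∀ v ∈ LinearMap.range (Nn R lam b), R a v ∈ LinearMap.range (Nn R lam b) := by
  rintro _ ⟨w, rfl⟩
  refine ⟨R a w, ?_⟩
  have e := congrArg (fun T : End K V => T w) (badle_comm hR ha hb h).eq
  simp only [End.mul_apply] at e
  simp only [Nn, LinearMap.sub_apply, LinearMap.smul_apply, End.one_apply, map_sub, map_smul, e]

theorem badle_far {i j : ℕ} (h : i + 2 ≤ j ∨ j + 2 ≤ i ∨ i = j) :
    Commute (A N i (i + 1)) (A N j (j + 1)) := by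
  rw [A_succ, A_succ]
  rcases h with h | h | h
  · exact (sg_far h).pow_pow 2 2
  · exact (sg_far h).symm.pow_pow 2 2
  · rw [h]

theorem badle_zero {j : ℕ} (h : 2 ≤ j) (hj : j < N) :
    Commute (A N 0 j * A N 1 j) (A N 0 1) := by
  have e1 : sg N 0 * A N 0 j * (sg N 0)⁻¹ = A N 1 j := A_lower (by omega) hj
  have e2 : (sg N 0)⁻¹ * A N 0 j * sg N 0 = A N 0 j * A N 1 j * (A N 0 j)⁻¹ :=
    A_hur (by omega) hj
  have e3 : A N 0 1 = sg N 0 ^ 2 := A_succ 0
  rw [e3]
  refine Commute.pow_right ?_ 2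
  show A N 0 j * A N 1 j * sg N 0 = sg N 0 * (A N 0 j * A N 1 j)
  calc _ = sg N 0 * ((sg N 0)⁻¹ * A N 0 j * sg N 0) * A N 0 j := by rw [← e1]; group
    _ = _ := by rw [e2]; group

theorem bad_le [Infinite K] [FiniteDimensional K V] {n r : ℕ} (hn : n ≤ N) :
    ∃ h : ℕ → BraidGroup N, (∀ s, h s ∈ Bs N n) ∧
      ∀ (R : BraidGroup N → End K V) (lam : BraidGroup N → K), IsRep (Ps N n) R →
      finrank K (LinearMap.range (Nn R lam (A N 0 1))) ≤ r →
      ∀ T : Finset ℕ, (∀ s ∈ T, s < (n - 2) / 3 ∧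
      ¬ (K3 (tw (h s) R) (tw (h s) lam) (A N 0 1) (A N 2 3) (A N 3 4) ∧
        K3 (tw (h s) R) (tw (h s) lam) (A N 0 1) (A N 2 3) (A N 0 2 * A N 1 2))) →
      T.card ≤ r := by
  have ex : ∀ s : ℕ, ∃ g ∈ Bs N n, s < (n - 2) / 3 → ∀ a b, a < b → b ≤ 4 →
      g * A N a b * g⁻¹ =
        A N (if a < 2 then a else a + 3 * s) (if b < 2 then b else b + 3 * s) := fun s => by
    by_cases hs : s < (n - 2) / 3
    · obtain ⟨g, hg, h⟩ := emb (r := 4) hn (fun a => if a < 2 then a else a + 3 * s)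
        (fun a _ => by split_ifs <;> omega) (by
          show (if 4 < 2 then 4 else 4 + 3 * s) < n
          rw [if_neg (by omega)]
          omega)
      exact ⟨g, hg, fun _ => h⟩
    · exact ⟨1, one_mem _, fun h => absurd h hs⟩
  choose h hh he using ex
  refine ⟨h, hh, fun R lam hR hr T hT => ?_⟩
  have ey : ∀ s : T, ∃ y ∈ Ps N n, Commute y (A N 0 1) ∧
      (∀ s' : ℕ, s' ≠ s → Commute (A N (2 + 3 * s') (2 + 3 * s' + 1)) y) ∧
      ¬ K3 R lam (A N 0 1) (A N (2 + 3 * s) (2 + 3 * s + 1)) y := fun s => by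
    obtain ⟨hs, hb⟩ := hT s s.2
    have e01 : h s * A N 0 1 * (h s)⁻¹ = A N 0 1 := he s hs 0 1 (by omega) (by omega)
    have e23 : h s * A N 2 3 * (h s)⁻¹ = A N (2 + 3 * s) (2 + 3 * s + 1) := by
      rw [he s hs 2 3 (by omega) (by omega), if_neg (by omega), if_neg (by omega),
        show 3 + 3 * (s : ℕ) = 2 + 3 * s + 1 by omega]
    have e34 : h s * A N 3 4 * (h s)⁻¹ = A N (3 + 3 * s) (3 + 3 * s + 1) := by
      rw [he s hs 3 4 (by omega) (by omega), if_neg (by omega), if_neg (by omega),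
        show 4 + 3 * (s : ℕ) = 3 + 3 * s + 1 by omega]
    have e02 : h s * A N 0 2 * (h s)⁻¹ = A N 0 (2 + 3 * s) := he s hs 0 2 (by omega) (by omega)
    have e12 : h s * A N 1 2 * (h s)⁻¹ = A N 1 (2 + 3 * s) := he s hs 1 2 (by omega) (by omega)
    have e2 : h s * (A N 0 2 * A N 1 2) * (h s)⁻¹ = A N 0 (2 + 3 * s) * A N 1 (2 + 3 * s) := by
      rw [← e02, ← e12]
      group
    simp only [K3, Nn, tw, e01, e23, e34, e2] at hb
    rcases not_and_or.1 hb with hb | hb
    · refine ⟨A N (3 + 3 * s) (3 + 3 * s + 1), A_mem (by omega) (by omega) hn,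
        badle_far (j := 0) (by omega), fun s' hs' => badle_far (by omega), hb⟩
    · refine ⟨A N 0 (2 + 3 * s) * A N 1 (2 + 3 * s),
        mul_mem (A_mem (by omega) (by omega) hn) (A_mem (by omega) (by omega) hn),
        badle_zero (by omega) (by omega), fun s' hs' => ?_, hb⟩
      rw [A_succ]
      refine Commute.pow_left (Commute.mul_right ?_ ?_) 2
      · exact A_comm (by omega) (by omega) (by omega)
      · exact A_comm (by omega) (by omega) (by omega)
  choose y y1 y2 y3 y4 using ey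
  have tm : ∀ s : T, A N (2 + 3 * s) (2 + 3 * s + 1) ∈ Ps N n := fun s =>
    A_mem (by omega) (by have := (hT s s.2).1; omega) hn
  rcases T.eq_empty_or_nonempty with rfl | ⟨s0, hs0⟩
  · exact Nat.zero_le r
  have m0 : A N 0 1 ∈ Ps N n := A_mem (by omega) (by have := (hT s0 hs0).1; omega) hn
  have key := l_one (K := K) (ι := T) (LinearMap.range (Nn R lam (A N 0 1)))
    (fun s => R (A N (2 + 3 * s) (2 + 3 * s + 1))) (fun s => R (y s))
    (fun s => badle_inv hR lam (tm s) m0 (badle_far (j := 0) (by omega)))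
    (fun s => badle_inv hR lam (y1 s) m0 (y2 s))
    (fun s s' => badle_comm hR (tm s) (tm s') (badle_far (by omega)))
    (fun s s' hne => badle_comm hR (tm s) (y1 s') (y3 s' s fun e => hne (Subtype.ext e)))
    (fun s => by
      by_contra hc
      refine y4 s (LinearMap.ext fun w => ?_)
      have := not_exists.1 hc (Nn R lam (A N 0 1) w)
      simp only [LinearMap.mem_range, exists_apply_eq_apply, true_and, ne_eq, not_not] at this
      simp only [End.mul_apply, LinearMap.sub_apply, LinearMap.zero_apply, this, sub_self])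
  rw [Fintype.card_coe] at key
  exact key.trans hr
end Rowbadle

section Rowaverage
theorem average_fin {G : Type*} [Group G] [Fintype G] (B : G → Prop) (E : Finset G) (π : ℕ → G)
    {S r m : ℕ} (hc : ∀ g, ∀ T : Finset ℕ, (∀ s ∈ T, s < S ∧ B (g * π s)) → T.card ≤ r)
    (hE : E.card ≤ m) (hS : m * r < S) : ∃ g, ∀ e ∈ E, ¬ B (g * e) := by
  classical
  by_contra h0
  push Not at h0
  have h1 : ∀ x : G, (Finset.univ.filter fun g => B (g * x)).card =
      (Finset.univ.filter B).card := fun x =>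
    Finset.card_equiv (Equiv.mulRight x) fun g => by simp
  have h2 : S * (Finset.univ.filter B).card ≤ Fintype.card G * r := by
    calc S * (Finset.univ.filter B).card
        = ∑ s ∈ Finset.range S, (Finset.univ.filter fun g => B (g * π s)).card := by
          simp [h1]
      _ = ∑ g : G, ((Finset.range S).filter fun s => B (g * π s)).card := by
          simp only [Finset.card_filter]
          exact Finset.sum_comm
      _ ≤ _ := by
          refine (Finset.sum_le_card_nsmul _ _ r fun g _ => hc g _ fun s hs => ?_).trans ?_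
          · exact ⟨Finset.mem_range.1 (Finset.mem_filter.1 hs).1, (Finset.mem_filter.1 hs).2⟩
          · simp
  have h3 : Fintype.card G ≤ m * (Finset.univ.filter B).card := by
    have h4 : (Finset.univ : Finset G) ⊆
        E.biUnion fun e => Finset.univ.filter fun g => B (g * e) := fun g _ => by
      obtain ⟨e, he, h5⟩ := h0 g
      exact Finset.mem_biUnion.2 ⟨e, he, Finset.mem_filter.2 ⟨Finset.mem_univ _, h5⟩⟩
    refine (Finset.card_le_card h4).trans (Finset.card_biUnion_le.trans ?_)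
    simp only [h1, Finset.sum_const, smul_eq_mul]
    exact Nat.mul_le_mul_right _ hE
  have h5 : 0 < Fintype.card G := Fintype.card_pos
  generalize (Finset.univ.filter B).card = β at h2 h3
  have h6 : 0 < β := Nat.pos_of_ne_zero fun h => by rw [h] at h3; omega
  have h7 := Nat.mul_le_mul_right r h3
  have h8 := Nat.mul_lt_mul_of_pos_right hS h6
  nlinarith only [h2, h7, h8]

theorem average_inj {m : ℕ} (hm : m ≤ N) :
    ∃ F : Equiv.Perm ℕ → Fin m → Fin m, Set.InjOn F ((Bs N m).map (permHom N)) := by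
  classical
  refine ⟨fun w i => if h : w i < m then ⟨w i, h⟩ else i, ?_⟩
  have h1 : ∀ g ∈ Bs N m, ∀ i < m, permHom N g i < m := fun g hg i hi => by
    by_contra h
    have := (permHom N g).injective (Bs_fix hm hg (not_lt.1 h))
    omega
  rintro _ ⟨g, hg, rfl⟩ _ ⟨g', hg', rfl⟩ e
  ext i
  by_cases hi : i < m
  · have h2 := congrFun e ⟨i, hi⟩
    simp only [h1 g hg i hi, h1 g' hg' i hi, dif_pos] at h2
    exact congrArg Fin.val h2
  · rw [Bs_fix hm hg (not_lt.1 hi), Bs_fix hm hg' (not_lt.1 hi)]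

theorem average {n M S r : ℕ} (hn : n ≤ N) (hM : M ≤ n) (Bad : BraidGroup N → Prop)
    (hB : ∀ p ∈ Ps N n, ∀ g ∈ Bs N n, Bad g → Bad (p * g)) (h : ℕ → BraidGroup N)
    (hh : ∀ s, h s ∈ Bs N n)
    (hc : ∀ g ∈ Bs N n, ∀ T : Finset ℕ, (∀ s ∈ T, s < S ∧ Bad (g * h s)) → T.card ≤ r)
    (hS : M ^ M * r < S) : ∃ g ∈ Bs N n, ∀ e ∈ Bs N M, ¬ Bad (g * e) := by
  classical
  obtain ⟨F, hF⟩ := average_inj hn
  obtain ⟨F', hF'⟩ := average_inj (hM.trans hn)
  have : Finite ((Bs N n).map (permHom N)) :=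
    Finite.of_injective (fun w => F w.1) fun a b e => Subtype.ext (hF a.2 b.2 e)
  have := Fintype.ofFinite ((Bs N n).map (permHom N))
  have h1 : ∀ g ∈ Bs N n, ∀ g' ∈ Bs N n, permHom N g = permHom N g' → Bad g → Bad g' := by
    intro g hg g' hg' e hb
    have h2 := hB (g' * g⁻¹) ⟨(Bs N n).mul_mem hg' ((Bs N n).inv_mem hg), by
      change permHom N (g' * g⁻¹) = 1
      rw [map_mul, map_inv, e, mul_inv_cancel]⟩ g hg hb
    rwa [inv_mul_cancel_right] at h2
  obtain ⟨⟨_, g, hg, rfl⟩, h2⟩ := average_fin (G := (Bs N n).map (permHom N))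
    (fun w => ∃ g ∈ Bs N n, permHom N g = w.1 ∧ Bad g)
    (Finset.univ.filter fun w => w.1 ∈ (Bs N M).map (permHom N))
    (fun s => ⟨permHom N (h s), h s, hh s, rfl⟩) (S := S) (r := r) (m := M ^ M)
    (by
      rintro ⟨_, g, hg, rfl⟩ T hT
      refine hc g hg T fun s hs => ⟨(hT s hs).1, ?_⟩
      obtain ⟨g', h3, h4, h5⟩ := (hT s hs).2
      exact h1 g' h3 _ (mul_mem hg (hh s)) (by rw [h4, map_mul]; rfl) h5)
    (by
      refine (Finset.card_le_card_of_injOn (t := Finset.univ) (fun w => F' w.1)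
        (fun _ _ => Finset.mem_coe.2 (Finset.mem_univ _)) fun a ha b hb e => Subtype.ext
          (hF' (Finset.mem_filter.1 (Finset.mem_coe.1 ha)).2
            (Finset.mem_filter.1 (Finset.mem_coe.1 hb)).2 e)).trans ?_
      simp) hS
  refine ⟨g, hg, fun e he hb => h2 ⟨permHom N e, e, Bs_mono hM he, rfl⟩
    (Finset.mem_filter.2 ⟨Finset.mem_univ _, e, he, rfl⟩)
    ⟨g * e, mul_mem hg (Bs_mono hM he), by rw [map_mul]; rfl, hb⟩⟩
end Rowaverage

section Rowpk
/-- the relation holds for all conjugates of the triple -/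
def pkP (M : ℕ) (R : BraidGroup N → End K V) (lam : BraidGroup N → K)
    (c p q : BraidGroup N) : Prop :=
  ∀ g ∈ Bs N M, K3 R lam (g * c * g⁻¹) (g * p * g⁻¹) (g * q * g⁻¹)

theorem pk_fwd {M : ℕ} {R : BraidGroup N → End K V} {lam : BraidGroup N → K}
    {c p q c' p' q' e : BraidGroup N} (h : pkP M R lam c p q) (he : e ∈ Bs N M)
    (h1 : e * c * e⁻¹ = c') (h2 : e * p * e⁻¹ = p') (h3 : e * q * e⁻¹ = q') :
    pkP M R lam c' p' q' := by
  intro g hg
  have e0 : ∀ x : BraidGroup N, g * e * x * (g * e)⁻¹ = g * (e * x * e⁻¹) * g⁻¹ := fun x => by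
    group
  have h4 := h (g * e) ((Bs N M).mul_mem hg he)
  rwa [e0, e0, e0, h1, h2, h3] at h4

theorem pk_bwd {M : ℕ} {R : BraidGroup N → End K V} {lam : BraidGroup N → K}
    {c p q c' p' q' e : BraidGroup N} (h : pkP M R lam c p q) (he : e ∈ Bs N M)
    (h1 : e * c' * e⁻¹ = c) (h2 : e * p' * e⁻¹ = p) (h3 : e * q' * e⁻¹ = q) :
    pkP M R lam c' p' q' :=
  pk_fwd h ((Bs N M).inv_mem he) (by rw [← h1]; group) (by rw [← h2]; group)
    (by rw [← h3]; group)

theorem pk_two {G : Type*} [Group G] {s t x y z : G} (h1 : s * x * s⁻¹ = y)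
    (h2 : t * y * t⁻¹ = z) : t * s * x * (t * s)⁻¹ = z := by
  rw [← h2, ← h1]
  group

theorem pk_self (i : ℕ) : sg N i * A N i (i + 1) * (sg N i)⁻¹ = A N i (i + 1) := by
  rw [A_succ]
  group

theorem pk_shift {i : ℕ} (h : i + 2 < N) :
    sg N (i + 1) * sg N i * A N (i + 1) (i + 1 + 1) * (sg N (i + 1) * sg N i)⁻¹ =
      A N i (i + 1) := by
  have e : sg N (i + 1) * sg N i * sg N (i + 1) * (sg N (i + 1) * sg N i)⁻¹ = sg N i := by
    rw [← sg_braid h]
    group
  rw [A_succ, A_succ, ← conj_pow, e]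

theorem pk_fix {i k m : ℕ} (h : i < k) (hk : k < N)
    (hm : m + 1 < i ∨ (i < m ∧ m + 1 < k) ∨ k < m) :
    sg N m * A N i k * (sg N m)⁻¹ = A N i k := (A_comm h hk hm).mul_inv_cancel

theorem pk_base {M : ℕ} (hM : M ≤ N) (h5 : 5 ≤ M) {R : BraidGroup N → End K V}
    {lam : BraidGroup N → K} (h : Good M R lam) :
    pkP M R lam (A N 0 1) (A N 2 4) (A N 3 4) ∧ pkP M R lam (A N 0 1) (A N 2 3) (A N 2 4) ∧
      pkP M R lam (A N 0 1) (A N 2 3) (A N 3 4) := by
  have h0 : pkP M R lam (A N 0 1) (A N 2 3) (A N 3 4) := h.h1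
  exact ⟨pk_fwd h0 (sg_mem (i := 3) (by omega)) (pk_fix (by omega) (by omega) (by omega))
      (A_raise (by omega)) (pk_self 3),
    pk_bwd h0 (sg_mem (i := 2) (by omega)) (pk_fix (by omega) (by omega) (by omega))
      (pk_self 2) (A_lower (by omega) (by omega)), h0⟩

theorem pk_base3 {M : ℕ} (hM : M ≤ N) (h5 : 5 ≤ M) {R : BraidGroup N → End K V}
    {lam : BraidGroup N → K} (h : Good M R lam) :
    pkP M R lam (A N 2 3) (A N 0 4) (A N 1 4) ∧ pkP M R lam (A N 2 3) (A N 0 1) (A N 0 4) ∧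
      pkP M R lam (A N 2 3) (A N 0 1) (A N 1 4) := by
  obtain ⟨b1, b2, b3⟩ := pk_base hM h5 h
  have m1 : sg N 1 * sg N 0 ∈ Bs N M := (Bs N M).mul_mem (sg_mem (by omega)) (sg_mem (by omega))
  have m2 : sg N 2 * sg N 1 ∈ Bs N M := (Bs N M).mul_mem (sg_mem (by omega)) (sg_mem (by omega))
  have c1 := pk_shift (N := N) (i := 0) (by omega)
  have c2 := pk_shift (N := N) (i := 1) (by omega)
  have p1 : sg N 1 * sg N 0 * A N 0 4 * (sg N 1 * sg N 0)⁻¹ = A N 2 4 :=
    pk_two (A_lower (by omega) (by omega)) (A_lower (by omega) (by omega))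
  have p2 : sg N 1 * sg N 0 * A N 3 4 * (sg N 1 * sg N 0)⁻¹ = A N 3 4 :=
    pk_two (pk_fix (by omega) (by omega) (by omega)) (pk_fix (by omega) (by omega) (by omega))
  have p3 : sg N 1 * sg N 0 * A N 0 3 * (sg N 1 * sg N 0)⁻¹ = A N 2 3 :=
    pk_two (A_lower (by omega) (by omega)) (A_lower (by omega) (by omega))
  have q1 : sg N 2 * sg N 1 * A N 0 4 * (sg N 2 * sg N 1)⁻¹ = A N 0 4 :=
    pk_two (pk_fix (by omega) (by omega) (by omega)) (pk_fix (by omega) (by omega) (by omega))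
  have q2 : sg N 2 * sg N 1 * A N 1 4 * (sg N 2 * sg N 1)⁻¹ = A N 3 4 :=
    pk_two (A_lower (by omega) (by omega)) (A_lower (by omega) (by omega))
  have q3 : sg N 2 * sg N 1 * A N 0 1 * (sg N 2 * sg N 1)⁻¹ = A N 0 3 :=
    pk_two (A_raise (by omega)) (A_raise (by omega))
  exact ⟨pk_bwd (pk_bwd b1 m1 c1 p1 p2) m2 c2 q1 q2, pk_bwd (pk_bwd b2 m1 c1 p3 p1) m2 c2 q3 q1,
    pk_bwd (pk_bwd b3 m1 c1 p3 p2) m2 c2 q3 q2⟩

theorem pk_emb {M : ℕ} (hM : M ≤ N) {a b c d e : ℕ} (h1 : a < b) (h2 : b < c) (h3 : c < d)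
    (h4 : d < e) (h5 : e < M) : 5 ≤ M ∧ ∃ g ∈ Bs N M, ∀ x y, x < y → y ≤ 4 →
      g * A N x y * g⁻¹ = A N ([a, b, c, d, e].getD x 0) ([a, b, c, d, e].getD y 0) := by
  refine ⟨by omega, emb hM (fun x => [a, b, c, d, e].getD x 0) (fun x hx => ?_) h5⟩
  interval_cases x <;> assumption

theorem pk1 {M : ℕ} (hM : M ≤ N) {R : BraidGroup N → End K V} {lam : BraidGroup N → K}
    (h : Good M R lam) {a b i j l : ℕ} (h1 : a < b) (h2 : b < i) (h3 : i < j) (h4 : j < l)
    (h5 : l < M) : K3 R lam (A N a b) (A N i l) (A N j l) ∧ K3 R lam (A N a b) (A N i j) (A N i l) ∧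
      K3 R lam (A N a b) (A N i j) (A N j l) := by
  obtain ⟨h6, g, hg, H⟩ := pk_emb hM h1 h2 h3 h4 h5
  obtain ⟨b1, b2, b3⟩ := pk_base hM h6 h
  have c1 := b1 g hg
  have c2 := b2 g hg
  have c3 := b3 g hg
  rw [H _ _ (by omega) (by omega), H _ _ (by omega) (by omega), H _ _ (by omega) (by omega)]
    at c1 c2 c3
  exact ⟨c1, c2, c3⟩

theorem pk2 {M : ℕ} (hM : M ≤ N) (h5 : 5 ≤ M) {R : BraidGroup N → End K V}
    {lam : BraidGroup N → K} (h : Good M R lam) {a b i l : ℕ} (h1 : a < b) (h2 : b < i)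
    (h3 : i < l) (h4 : l < M) : K3 R lam (A N a b) (A N i l) (A N a l * A N b l) := by
  obtain ⟨g, hg, H⟩ := emb (r := 3) hM (fun x => [a, b, i, l].getD x 0) (fun x hx => by
    interval_cases x <;> assumption) h4
  have e0 : ∀ s x y : BraidGroup N, s * (x * y) * s⁻¹ = s * x * s⁻¹ * (s * y * s⁻¹) :=
    fun s x y => by group
  have h0 : pkP M R lam (A N 0 1) (A N 2 3) (A N 0 2 * A N 1 2) := h.h2
  have b1 : pkP M R lam (A N 0 1) (A N 2 3) (A N 0 3 * A N 1 3) :=
    pk_fwd h0 (sg_mem (i := 2) (by omega)) (pk_fix (by omega) (by omega) (by omega)) (pk_self 2)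
      (by rw [e0, A_raise (by omega), A_raise (by omega)])
  have c1 := b1 g hg
  rw [e0, H 0 1 (by omega) (by omega), H 2 3 (by omega) (by omega), H 0 3 (by omega) (by omega),
    H 1 3 (by omega) (by omega)] at c1
  exact c1

theorem pk3 {M : ℕ} (hM : M ≤ N) {R : BraidGroup N → End K V} {lam : BraidGroup N → K}
    (h : Good M R lam) {a b i j l : ℕ} (h1 : i < j) (h2 : j < a) (h3 : a < b) (h4 : b < l)
    (h5 : l < M) : K3 R lam (A N a b) (A N i l) (A N j l) ∧ K3 R lam (A N a b) (A N i j) (A N i l) ∧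
      K3 R lam (A N a b) (A N i j) (A N j l) := by
  obtain ⟨h6, g, hg, H⟩ := pk_emb hM h1 h2 h3 h4 h5
  obtain ⟨b1, b2, b3⟩ := pk_base3 hM h6 h
  have c1 := b1 g hg
  have c2 := b2 g hg
  have c3 := b3 g hg
  rw [H _ _ (by omega) (by omega), H _ _ (by omega) (by omega), H _ _ (by omega) (by omega)]
    at c1 c2 c3
  exact ⟨c1, c2, c3⟩

theorem pk4 {M : ℕ} (hM : M ≤ N) (h5 : 5 ≤ M) {R : BraidGroup N → End K V}
    {lam : BraidGroup N → K} (h : Good M R lam) : K3 R lam (A N 3 4) (A N 0 1) (A N 1 2) := by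
  have m1 : sg N 3 * sg N 2 ∈ Bs N M := (Bs N M).mul_mem (sg_mem (by omega)) (sg_mem (by omega))
  have b1 : pkP M R lam (A N 3 4) (A N 0 1) (A N 1 2) :=
    pk_bwd (pk_base3 hM h5 h).2.2 m1 (pk_shift (i := 2) (by omega))
      (pk_two (pk_fix (by omega) (by omega) (by omega)) (pk_fix (by omega) (by omega) (by omega)))
      (pk_two (A_raise (by omega)) (A_raise (by omega)))
  simpa only [one_mul, inv_one, mul_one] using b1 1 (Bs N M).one_mem
end Rowpk

section Rowsa
theorem sa_r1 {E : Type*} [Ring E] {x p q r : E} (hqr : q * r = r * q) (hxr : x * r = r * x)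
    (h1 : x * q * r = q * x * r) (h2 : x * p * r = p * x * r) :
    x * (p * q * r) = p * q * r * x := by
  calc x * (p * q * r) = x * p * (q * r) := by simp only [mul_assoc]
    _ = x * p * r * q := by rw [hqr]; simp only [mul_assoc]
    _ = p * x * (r * q) := by rw [h2]; simp only [mul_assoc]
    _ = p * (x * q * r) := by rw [← hqr]; simp only [mul_assoc]
    _ = p * q * (x * r) := by rw [h1]; simp only [mul_assoc]
    _ = p * q * r * x := by rw [hxr]; simp only [mul_assoc]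

theorem sa_r2 {E : Type*} [Ring E] {x q r : E} (hqr : q * r = r * q) (hxq : x * q = q * x)
    (h : x * r * q = r * x * q) : x * (q * r) = q * r * x := by
  calc x * (q * r) = x * r * q := by rw [hqr]; simp only [mul_assoc]
    _ = r * (x * q) := by rw [h]; simp only [mul_assoc]
    _ = q * r * x := by rw [hxq, hqr]; simp only [mul_assoc]

theorem sa_r3 {E : Type*} [Ring E] {x y z y' T : E} (h1 : (z * (x * y) - x * y * z) * T = 0)
    (h2 : (y * z - z * y) * T = 0) (h3 : y * T = T * y) (h4 : y * y' = 1) :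
    (x * z - z * x) * T = 0 := by
  have h5 : (x * z - z * x) * (y * T) =
      -(x * ((y * z - z * y) * T)) - (z * (x * y) - x * y * z) * T := by noncomm_ring
  rw [h1, h2, h3, mul_zero, neg_zero, sub_zero] at h5
  calc (x * z - z * x) * T = (x * z - z * x) * (T * y) * y' := by
        rw [mul_assoc, mul_assoc, h4, mul_one]
    _ = 0 := by rw [h5, zero_mul]

theorem sa_r4 {E : Type*} [Ring E] {a b a' b' p : E} (h1 : a * p = p * a') (h2 : b * p = p * b') :
    (a * b - b * a) * p = p * (a' * b' - b' * a') := by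
  rw [sub_mul, mul_sub, mul_assoc, mul_assoc, h1, h2, ← mul_assoc, ← mul_assoc, h1, h2,
    mul_assoc, mul_assoc]

theorem sa_neg {E : Type*} [Ring E] {x y T : E} (h : (x * y - y * x) * T = 0) :
    (y * x - x * y) * T = 0 := by
  rw [← neg_sub, neg_mul, h, neg_zero]

theorem sa_left {E : Type*} [Ring E] {c p T w : E} (h : c * p = 0) (e : T = p * w) :
    c * T = 0 := by
  rw [e, ← mul_assoc, h, zero_mul]

theorem sa_cj {G : Type*} [Group G] {g h x y z : G} (h1 : h * x * h⁻¹ = y)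
    (h2 : g * y * g⁻¹ = z) : g * h * x * (g * h)⁻¹ = z := by
  rw [← h2, ← h1]; group

theorem sa_fix {G : Type*} [Group G] {g x : G} (h : Commute g x) : g * x * g⁻¹ = x := by
  rw [h.eq, mul_inv_cancel_right]

theorem sa_cA {i k m : ℕ} (h : i < k) (hk : k < N)
    (hm : m + 1 < i ∨ (i < m ∧ m + 1 < k) ∨ k < m) : Commute (A N m (m + 1)) (A N i k) := by
  rw [A_succ]
  exact (A_comm h hk hm).pow_left 2

section
variable {G : Type*} [Group G] {H : Subgroup G} {R : G → End K V} {lam : G → K}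

theorem sa_inv (h : IsRep H R) {a : G} (ha : a ∈ H) : R a * R a⁻¹ = 1 ∧ R a⁻¹ * R a = 1 := by
  rw [← h.2 a ha _ (H.inv_mem ha), ← h.2 _ (H.inv_mem ha) a ha, mul_inv_cancel, inv_mul_cancel]
  exact ⟨h.1, h.1⟩

theorem sa_RN (lam : G → K) (h : IsRep H R) {a b : G} (ha : a ∈ H) (hb : b ∈ H)
    (c : Commute a b) : R a * Nn R lam b = Nn R lam b * R a := by
  have e : R a * R b = R b * R a := by rw [← h.2 a ha b hb, ← h.2 b hb a ha, c.eq]
  simp only [Nn, mul_sub, sub_mul, e, mul_smul_comm, smul_mul_assoc, mul_one, one_mul]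

theorem sa_NN (lam : G → K) (h : IsRep H R) {a b : G} (ha : a ∈ H) (hb : b ∈ H)
    (c : Commute a b) : Nn R lam a * Nn R lam b = Nn R lam b * Nn R lam a := by
  have e := sa_RN lam h ha hb c
  rw [show Nn R lam a = R a - lam a • (1 : End K V) from rfl]
  simp only [mul_sub, sub_mul, e, mul_smul_comm, smul_mul_assoc, mul_one, one_mul]

omit [Group G] in
theorem sa_k3 {c p q : G} (h : K3 R lam c p q) :
    R q * Nn R lam p * Nn R lam c = Nn R lam p * R q * Nn R lam c ∧
    R p * Nn R lam q * Nn R lam c = Nn R lam q * R p * Nn R lam c ∧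
    Nn R lam p * Nn R lam q * Nn R lam c = Nn R lam q * Nn R lam p * Nn R lam c := by
  have e : R p * R q * Nn R lam c = R q * R p * Nn R lam c := by
    rw [← sub_eq_zero, ← sub_mul]; exact h
  rw [show Nn R lam p = R p - lam p • (1 : End K V) from rfl,
    show Nn R lam q = R q - lam q • (1 : End K V) from rfl]
  simp only [mul_sub, sub_mul, e, mul_smul_comm, smul_mul_assoc, mul_one, one_mul, smul_sub,
    smul_smul, mul_comm (lam p) (lam q), true_and]
  abel

end

theorem cm {M : ℕ} (h3 : 3 ≤ M) (hM : M ≤ N) {R : BraidGroup N → End K V}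
    {lam : BraidGroup N → K} (h : Good M R lam) (T : End K V)
    (h1 : ∀ j < M - 1, Commute (R (A N j (M - 1))) T)
    (h2 : ∀ i j, i < j → j < M - 1 →
      (R (A N i (M - 1)) * R (A N j (M - 1)) - R (A N j (M - 1)) * R (A N i (M - 1))) * T = 0) :
    T = 0 := by
  have hR := h.rep
  have hI := h.irr
  have hP := h.pf
  obtain ⟨k, rfl⟩ : ∃ k, M = k + 1 := ⟨M - 1, by omega⟩
  rw [Nat.add_sub_cancel] at h1 h2 hP
  have hk : k < N := hM
  have hF : Fs N k ≤ Ps N (k + 1) := Fs_le (Nat.lt_succ_self k) hM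
  have c1 : ∀ f ∈ Fs N k, R f * T = T * R f := fun f hf => by
    induction hf using Subgroup.closure_induction with
    | mem x hx =>
      obtain ⟨j, hj, rfl⟩ := hx
      exact (h1 j hj).eq
    | one => rw [hR.1, one_mul, mul_one]
    | mul x y hx hy ix iy =>
      rw [hR.2 x (hF hx) y (hF hy), mul_assoc, iy, ← mul_assoc, ix, mul_assoc]
    | inv x hx ix =>
      obtain ⟨e1, e2⟩ := sa_inv hR (hF hx)
      calc R x⁻¹ * T = R x⁻¹ * (T * R x) * R x⁻¹ := by rw [mul_assoc, mul_assoc, e1, mul_one]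
        _ = T * R x⁻¹ := by rw [← ix, ← mul_assoc, e2, one_mul]
  have c2 : ∀ z : End K V, (∀ j < k, (R (A N j k) * z - z * R (A N j k)) * T = 0) →
      ∀ f ∈ Fs N k, (R f * z - z * R f) * T = 0 := fun z hz f hf => by
    induction hf using Subgroup.closure_induction with
    | mem x hx =>
      obtain ⟨j, hj, rfl⟩ := hx
      exact hz j hj
    | one => rw [hR.1, one_mul, mul_one, sub_self, zero_mul]
    | mul x y hx hy ix iy =>
      have e : (R x * R y * z - z * (R x * R y)) * T =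
          R x * ((R y * z - z * R y) * T) + (R x * z - z * R x) * (R y * T) := by noncomm_ring
      rw [hR.2 x (hF hx) y (hF hy), e, iy, c1 y hy, ← mul_assoc _ T, ix, mul_zero, zero_mul,
        add_zero]
    | inv x hx ix =>
      obtain ⟨e1, e2⟩ := sa_inv hR (hF hx)
      have e : R x⁻¹ * (R x * z - z * R x) * R x⁻¹ =
          R x⁻¹ * R x * z * R x⁻¹ - R x⁻¹ * z * (R x * R x⁻¹) := by noncomm_ring
      rw [e1, e2, one_mul, mul_one] at e
      apply sa_neg
      rw [← e, mul_assoc, c1 _ ((Fs N k).inv_mem hx), ← mul_assoc, mul_assoc (R x⁻¹), ix,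
        mul_zero, zero_mul]
  have c3 : ∀ f ∈ Fs N k, ∀ g ∈ Fs N k, (R f * R g - R g * R f) * T = 0 := fun f hf g hg => by
    refine c2 _ (fun j hj => sa_neg (c2 _ (fun i hi => ?_) g hg)) f hf
    rcases lt_trichotomy i j with hij | rfl | hij
    · exact h2 i j hij hj
    · rw [sub_self, zero_mul]
    · exact sa_neg (h2 j i hij hi)
  have hU : ∀ v, v ∈ (⨅ f ∈ Fs N k, ⨅ g ∈ Fs N k, LinearMap.ker (R f * R g - R g * R f)) ↔
      ∀ f ∈ Fs N k, ∀ g ∈ Fs N k, (R f * R g - R g * R f) v = 0 := fun v => by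
    simp only [Submodule.mem_iInf, LinearMap.mem_ker]
  rcases hI (⨅ f ∈ Fs N k, ⨅ g ∈ Fs N k, LinearMap.ker (R f * R g - R g * R f))
    (fun p hp v hv => (hU _).2 fun f hf g hg => by
      have s : ∀ f ∈ Fs N k, p⁻¹ * f * p⁻¹⁻¹ ∈ Fs N k ∧
          R f * R p = R p * R (p⁻¹ * f * p⁻¹⁻¹) := fun f hf => by
        have m := Fs_normP hk ((Ps N (k + 1)).inv_mem hp) hf
        refine ⟨m, ?_⟩
        rw [← hR.2 f (hF hf) p hp, ← hR.2 p hp _ (hF m)]
        congr 1
        group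
      obtain ⟨f1, f2⟩ := s f hf
      obtain ⟨g1, g2⟩ := s g hg
      rw [← End.mul_apply, sa_r4 f2 g2, End.mul_apply, (hU v).1 hv _ f1 _ g1, map_zero])
    with e | e
  · ext v
    have : T v ∈ (⨅ f ∈ Fs N k, ⨅ g ∈ Fs N k, LinearMap.ker (R f * R g - R g * R f)) :=
      (hU _).2 fun f hf g hg => by rw [← End.mul_apply, c3 f hf g hg, LinearMap.zero_apply]
    rw [e] at this
    exact this
  · exfalso
    have m0 : A N 0 k ∈ Fs N k := Subgroup.subset_closure ⟨0, by omega, rfl⟩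
    have m1 : A N 1 k ∈ Fs N k := Subgroup.subset_closure ⟨1, by omega, rfl⟩
    have e1 : R (A N 0 k) * R (A N 1 k) = R (A N 1 k) * R (A N 0 k) := by
      rw [← sub_eq_zero]
      ext v
      exact (hU v).1 (e ▸ Submodule.mem_top) _ m0 _ m1
    have m2 := (Fs N k).mul_mem m0 m1
    have m3 := (Fs N k).mul_mem m1 m0
    have e2 := hP _ ((Fs N k).mul_mem m2 ((Fs N k).inv_mem m3)) ⟨1, by
      rw [hR.2 _ (hF m2) _ (hF ((Fs N k).inv_mem m3)), hR.2 _ (hF m0) _ (hF m1), e1,
        ← hR.2 _ (hF m1) _ (hF m0), (sa_inv hR (hF m3)).1, one_smul]⟩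
    exact A_noncomm (show 0 < 1 by omega) (show 1 < k by omega) hk (mul_inv_eq_one.1 e2)

theorem stageA1 {M : ℕ} (h6 : 6 ≤ M) (hM : M ≤ N) {R : BraidGroup N → End K V}
    {lam : BraidGroup N → K} (h : Good M R lam) :
    Nn R lam (A N 1 2) * Nn R lam (A N 0 1) * Nn R lam (A N 3 4) = 0 ∧
      Nn R lam (A N 0 1) * Nn R lam (A N 3 4) * Nn R lam (A N 1 2) = 0 := by
  have hR := h.rep
  have hk : M - 1 < M := by omega
  have hN : M - 1 < N := by omega
  have mx : ∀ j < M - 1, A N j (M - 1) ∈ Ps N M := fun j hj => A_mem hj hk hM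
  have ma : A N 0 1 ∈ Ps N M := A_mem (by omega) (by omega) hM
  have ma' : A N 1 2 ∈ Ps N M := A_mem (by omega) (by omega) hM
  have mb : A N 3 4 ∈ Ps N M := A_mem (by omega) (by omega) hM
  have cab := sa_NN lam hR ma mb (sa_cA (m := 0) (by omega) (by omega) (by omega))
  have cb := sa_NN lam hR ma' mb (sa_cA (m := 1) (by omega) (by omega) (by omega))
  have k4 := (sa_k3 (pk4 hM (by omega) h)).2.2
  have ca : ∀ j < M - 1, 2 ≤ j → R (A N j (M - 1)) * Nn R lam (A N 0 1) =
      Nn R lam (A N 0 1) * R (A N j (M - 1)) := fun j hj h2 =>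
    sa_RN lam hR (mx j hj) ma (sa_cA (m := 0) hj hN (by omega)).symm
  have ca' : ∀ j < M - 1, j = 0 ∨ 3 ≤ j → R (A N j (M - 1)) * Nn R lam (A N 1 2) =
      Nn R lam (A N 1 2) * R (A N j (M - 1)) := fun j hj h2 =>
    sa_RN lam hR (mx j hj) ma' (sa_cA (m := 1) hj hN (by omega)).symm
  have cc : ∀ j < M - 1, j ≤ 2 ∨ 5 ≤ j → R (A N j (M - 1)) * Nn R lam (A N 3 4) =
      Nn R lam (A N 3 4) * R (A N j (M - 1)) := fun j hj h2 =>
    sa_RN lam hR (mx j hj) mb (sa_cA (m := 3) hj hN (by omega)).symm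
  have p01 := pk3 hM h (a := 3) (b := 4) (i := 0) (j := 1) (by omega) (by omega) (by omega)
    (by omega) hk
  have p12 := pk3 hM h (a := 3) (b := 4) (i := 1) (j := 2) (by omega) (by omega) (by omega)
    (by omega) hk
  have p34 := pk1 hM h (a := 0) (b := 1) (i := 3) (j := 4) (by omega) (by omega) (by omega)
    (by omega) hk
  have c1 : ∀ j < M - 1, R (A N j (M - 1)) *
      (Nn R lam (A N 1 2) * Nn R lam (A N 0 1) * Nn R lam (A N 3 4)) =
      Nn R lam (A N 1 2) * Nn R lam (A N 0 1) * Nn R lam (A N 3 4) * R (A N j (M - 1)) := by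
    intro j hj
    by_cases h2 : j ≤ 2
    · refine sa_r1 cab (cc j hj (Or.inl h2)) ?_ ?_
      · obtain rfl | rfl | rfl : j = 0 ∨ j = 1 ∨ j = 2 := by omega
        · exact (sa_k3 p01.2.1).1
        · exact (sa_k3 p01.2.2).1
        · rw [ca 2 hj le_rfl]
      · obtain rfl | rfl | rfl : j = 0 ∨ j = 1 ∨ j = 2 := by omega
        · rw [ca' 0 hj (Or.inl rfl)]
        · exact (sa_k3 p12.2.1).1
        · exact (sa_k3 p12.2.2).1
    · have e : R (A N j (M - 1)) * (Nn R lam (A N 0 1) * Nn R lam (A N 3 4)) =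
          Nn R lam (A N 0 1) * Nn R lam (A N 3 4) * R (A N j (M - 1)) := by
        refine sa_r2 cab (ca j hj (by omega)) ?_
        obtain rfl | rfl | h5 : j = 3 ∨ j = 4 ∨ 5 ≤ j := by omega
        · exact (sa_k3 p34.2.1).1
        · exact (sa_k3 p34.2.2).1
        · rw [cc j hj (Or.inr h5)]
      rw [mul_assoc (Nn R lam (A N 1 2)), ← mul_assoc, ca' j hj (by omega), mul_assoc, e,
        ← mul_assoc]
  have t1 : Nn R lam (A N 1 2) * Nn R lam (A N 0 1) * Nn R lam (A N 3 4) =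
      Nn R lam (A N 0 1) * (Nn R lam (A N 1 2) * Nn R lam (A N 3 4)) := by
    rw [← k4, mul_assoc]
  have t2 : Nn R lam (A N 1 2) * Nn R lam (A N 0 1) * Nn R lam (A N 3 4) =
      Nn R lam (A N 3 4) * (Nn R lam (A N 1 2) * Nn R lam (A N 0 1)) := by
    rw [mul_assoc, cab, ← mul_assoc, cb, mul_assoc]
  have c2 : ∀ i j, 2 ≤ i → i < j → j < M - 1 →
      (R (A N i (M - 1)) * R (A N j (M - 1)) - R (A N j (M - 1)) * R (A N i (M - 1))) *
      (Nn R lam (A N 1 2) * Nn R lam (A N 0 1) * Nn R lam (A N 3 4)) = 0 :=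
    fun i j h2 hij hj => sa_left
      (pk1 hM h (a := 0) (b := 1) (by omega) (by omega) hij hj hk).1 t1
  have c3 : ∀ j, 3 ≤ j → j < M - 1 →
      (R (A N 1 (M - 1)) * R (A N j (M - 1)) - R (A N j (M - 1)) * R (A N 1 (M - 1))) *
      (Nn R lam (A N 1 2) * Nn R lam (A N 0 1) * Nn R lam (A N 3 4)) = 0 := fun j h3 hj => by
    have p := pk2 hM (by omega) h (a := 1) (b := 2) (by omega) h3 hj hk
    rw [K3, hR.2 _ (mx 1 (by omega)) _ (mx 2 (by omega))] at p
    exact sa_r3 (sa_left p (mul_assoc _ _ _)) (c2 2 j le_rfl h3 hj) (c1 2 (by omega))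
      (sa_inv hR (mx 2 (by omega))).1
  have c4 : ∀ j, 3 ≤ j → j < M - 1 →
      (R (A N 0 (M - 1)) * R (A N j (M - 1)) - R (A N j (M - 1)) * R (A N 0 (M - 1))) *
      (Nn R lam (A N 1 2) * Nn R lam (A N 0 1) * Nn R lam (A N 3 4)) = 0 := fun j h3 hj => by
    have p := pk2 hM (by omega) h (a := 0) (b := 1) (by omega) (by omega) hj hk
    rw [K3, hR.2 _ (mx 0 (by omega)) _ (mx 1 (by omega))] at p
    exact sa_r3 (sa_left p t1) (c3 j h3 hj) (c1 1 (by omega)) (sa_inv hR (mx 1 (by omega))).1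
  have z := cm (by omega) hM h _ c1 fun i j hij hj => by
    by_cases h2 : j ≤ 2
    · exact sa_left (pk3 hM h (a := 3) (b := 4) hij (by omega) (by omega) (by omega) hk).1 t2
    · obtain rfl | rfl | h5 : i = 0 ∨ i = 1 ∨ 2 ≤ i := by omega
      · exact c4 j (by omega) hj
      · exact c3 j (by omega) hj
      · exact c2 i j h5 hij hj
  refine ⟨z, ?_⟩
  rw [mul_assoc, ← cb, ← t1, z]

theorem sa_two {M : ℕ} (h6 : 6 ≤ M) (hM : M ≤ N) {R : BraidGroup N → End K V}
    {lam : BraidGroup N → K} (h : Good M R lam) :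
    Nn R lam (A N 0 1) * Nn R lam (A N 2 3) = 0 := by
  have hR := h.rep
  have hk : M - 1 < M := by omega
  have hN : M - 1 < N := by omega
  have mx : ∀ j < M - 1, A N j (M - 1) ∈ Ps N M := fun j hj => A_mem hj hk hM
  have ma : A N 0 1 ∈ Ps N M := A_mem (by omega) (by omega) hM
  have mb : A N 2 3 ∈ Ps N M := A_mem (by omega) (by omega) hM
  have cab := sa_NN lam hR ma mb (sa_cA (m := 0) (by omega) (by omega) (by omega))
  have tw1 : ∀ g ∈ Bs N M, ∀ y, g * A N 0 1 * g⁻¹ = A N 0 1 → g * A N 3 4 * g⁻¹ = A N 2 3 →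
      g * A N 1 2 * g⁻¹ = y →
      R y * (Nn R lam (A N 0 1) * Nn R lam (A N 2 3)) =
        lam y • (Nn R lam (A N 0 1) * Nn R lam (A N 2 3)) ∧
      Nn R lam (A N 0 1) * Nn R lam (A N 2 3) * R y =
        lam y • (Nn R lam (A N 0 1) * Nn R lam (A N 2 3)) := fun g hg y e1 e2 e3 => by
    have s : Nn R lam (g * A N 1 2 * g⁻¹) * Nn R lam (g * A N 0 1 * g⁻¹) *
        Nn R lam (g * A N 3 4 * g⁻¹) = 0 ∧ Nn R lam (g * A N 0 1 * g⁻¹) *
        Nn R lam (g * A N 3 4 * g⁻¹) * Nn R lam (g * A N 1 2 * g⁻¹) = 0 :=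
      stageA1 h6 hM (good_tw (by omega) hM h hg)
    rw [e1, e2, e3, mul_assoc (Nn R lam y), show Nn R lam y = R y - lam y • (1 : End K V) from rfl,
      sub_mul, mul_sub, smul_mul_assoc, mul_smul_comm, one_mul, mul_one, sub_eq_zero,
      sub_eq_zero] at s
    exact s
  obtain ⟨e, he, h0⟩ := emb (r := 4) hM (fun a => if a < 4 then a else M - 1)
    (fun a ha => by split_ifs <;> omega) (by simpa using hk)
  have e01 : e * A N 0 1 * e⁻¹ = A N 0 1 := h0 0 1 (by omega) (by omega)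
  have e23 : e * A N 2 3 * e⁻¹ = A N 2 3 := h0 2 3 (by omega) (by omega)
  have e04 : e * A N 0 4 * e⁻¹ = A N 0 (M - 1) := h0 0 4 (by omega) (by omega)
  have e14 : e * A N 1 4 * e⁻¹ = A N 1 (M - 1) := h0 1 4 (by omega) (by omega)
  have g01 : sg N 3 * sg N 2 * A N 0 1 * (sg N 3 * sg N 2)⁻¹ = A N 0 1 :=
    sa_cj (sa_fix (A_comm (by omega) (by omega) (by omega)))
      (sa_fix (A_comm (by omega) (by omega) (by omega)))
  have g12 : sg N 3 * sg N 2 * A N 1 2 * (sg N 3 * sg N 2)⁻¹ = A N 1 4 :=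
    sa_cj (A_raise (by omega)) (A_raise (by omega))
  have g34 : sg N 3 * sg N 2 * A N 3 4 * (sg N 3 * sg N 2)⁻¹ = A N 2 3 := by
    have b : sg N 2 * sg N 3 * sg N 2 = sg N 3 * sg N 2 * sg N 3 := sg_braid (by omega)
    have b1 : sg N 3 * sg N 2 * sg N 3 * (sg N 3 * sg N 2)⁻¹ = sg N 2 := by rw [← b]; group
    rw [show A N 3 4 = sg N 3 ^ 2 from A_succ 3, show A N 2 3 = sg N 2 ^ 2 from A_succ 2,
      ← conj_pow, b1]
  have s01 : (sg N 0)⁻¹ * A N 0 1 * (sg N 0)⁻¹⁻¹ = A N 0 1 := by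
    rw [show A N 0 1 = sg N 0 ^ 2 from A_succ 0]; group
  have s23 : (sg N 0)⁻¹ * A N 2 3 * (sg N 0)⁻¹⁻¹ = A N 2 3 :=
    sa_fix (A_comm (by omega) (by omega) (by omega)).inv_left
  have s14 : (sg N 0)⁻¹ * A N 1 4 * (sg N 0)⁻¹⁻¹ = A N 0 4 := by
    rw [← show sg N 0 * A N 0 4 * (sg N 0)⁻¹ = A N 1 4 from A_lower (by omega) (by omega)]; group
  have mg : sg N 3 * sg N 2 ∈ Bs N M :=
    (Bs N M).mul_mem (sg_mem (by omega)) (sg_mem (by omega))
  have low : ∀ j < 2, R (A N j (M - 1)) * (Nn R lam (A N 0 1) * Nn R lam (A N 2 3)) =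
        lam (A N j (M - 1)) • (Nn R lam (A N 0 1) * Nn R lam (A N 2 3)) ∧
      Nn R lam (A N 0 1) * Nn R lam (A N 2 3) * R (A N j (M - 1)) =
        lam (A N j (M - 1)) • (Nn R lam (A N 0 1) * Nn R lam (A N 2 3)) := fun j hj => by
    obtain rfl | rfl : j = 0 ∨ j = 1 := by omega
    · exact tw1 _ ((Bs N M).mul_mem he ((Bs N M).mul_mem
        ((Bs N M).inv_mem (sg_mem (i := 0) (by omega))) mg)) _ (sa_cj (sa_cj g01 s01) e01)
        (sa_cj (sa_cj g34 s23) e23) (sa_cj (sa_cj g12 s14) e04)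
    · exact tw1 _ ((Bs N M).mul_mem he mg) _ (sa_cj g01 e01) (sa_cj g34 e23) (sa_cj g12 e14)
  have p23 := pk1 hM h (a := 0) (b := 1) (i := 2) (j := 3) (by omega) (by omega) (by omega)
    (by omega) hk
  have c1 : ∀ j < M - 1, R (A N j (M - 1)) * (Nn R lam (A N 0 1) * Nn R lam (A N 2 3)) =
      Nn R lam (A N 0 1) * Nn R lam (A N 2 3) * R (A N j (M - 1)) := by
    intro j hj
    by_cases h2 : j < 2
    · exact (low j h2).1.trans (low j h2).2.symm
    · refine sa_r2 cab (sa_RN lam hR (mx j hj) ma (sa_cA (m := 0) hj hN (by omega)).symm) ?_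
      obtain rfl | rfl | h5 : j = 2 ∨ j = 3 ∨ 4 ≤ j := by omega
      · exact (sa_k3 p23.2.1).1
      · exact (sa_k3 p23.2.2).1
      · rw [sa_RN lam hR (mx j hj) mb (sa_cA (m := 2) hj hN (by omega)).symm]
  refine cm (by omega) hM h _ c1 fun i j hij hj => ?_
  by_cases h2 : i < 2
  · rw [sub_mul, mul_assoc, mul_assoc, c1 j hj, ← mul_assoc (R (A N i (M - 1))), (low i h2).1,
      mul_smul_comm, smul_mul_assoc, c1 j hj, sub_self]
  · exact sa_left (pk1 hM h (a := 0) (b := 1) (by omega) (by omega) hij hj hk).1 rfl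

theorem stageA {M : ℕ} (h6 : 6 ≤ M) (hM : M ≤ N) {R : BraidGroup N → End K V}
    {lam : BraidGroup N → K} (h : Good M R lam) : TypeA M R lam :=
  fun _ hg => sa_two h6 hM (good_tw (by omega) hM h hg)
end Rowsa

section Rowpt
theorem pt_c1 {G : Type*} [Group G] {a b : G} (h : a * b * a = b * a * b) :
    Commute a (b * a * a * b) := by
  show a * (b * a * a * b) = b * a * a * b * a
  calc a * (b * a * a * b) = (a * b * a) * a * b := by simp only [mul_assoc]
    _ = b * a * (b * a * b) := by rw [h]; simp only [mul_assoc]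
    _ = b * a * a * b * a := by rw [← h]; simp only [mul_assoc]

theorem pt_c2 {G : Type*} [Group G] {a b : G} (h : a * b * a = b * a * b) :
    a ^ 2 * (b * a ^ 2 * b⁻¹) = a * b * b * a := by
  calc a ^ 2 * (b * a ^ 2 * b⁻¹) = a * (a * b * a) * a * b⁻¹ := by
        simp only [pow_two, mul_assoc]
    _ = a * b * (a * b * a) * b⁻¹ := by rw [h]; simp only [mul_assoc]; rw [← mul_assoc a b (a * b⁻¹), ← mul_assoc (a * b) a b⁻¹, h]; simp only [mul_assoc]
    _ = a * b * b * a := by rw [h]; simp only [mul_assoc, mul_inv_cancel, mul_one]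

theorem pt_z {G : Type*} [Group G] {a b : G} (h : a * b * a = b * a * b) :
    Commute (a ^ 2 * (b * a ^ 2 * b⁻¹) * b ^ 2) a ∧ Commute (a ^ 2 * (b * a ^ 2 * b⁻¹) * b ^ 2) b ∧
      Commute (a ^ 2) ((b * a ^ 2 * b⁻¹) * b ^ 2) := by
  have e1 : (b * a ^ 2 * b⁻¹) * b ^ 2 = b * a * a * b := by
    simp only [pow_two, mul_assoc, inv_mul_cancel_left]
  refine ⟨?_, ?_, ?_⟩
  · rw [mul_assoc, e1]
    exact ((Commute.refl a).pow_left 2).mul_left (pt_c1 h).symm
  · rw [pt_c2 h]
    exact (pt_c1 h.symm).symm.mul_left ((Commute.refl b).pow_left 2)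
  · rw [e1]
    exact (pt_c1 h).pow_left 2

theorem pt_conj {G : Type*} [Group G] {x y : G} (h : Commute x y) (g : G) :
    Commute (g * x * g⁻¹) (g * y * g⁻¹) := h.map (MulAut.conj g)

theorem pt_mul {G : Type*} [Group G] (g x y : G) :
    g * (x * y) * g⁻¹ = (g * x * g⁻¹) * (g * y * g⁻¹) := by
  simp only [mul_assoc, inv_mul_cancel_left]

theorem pt_inv {G : Type*} [Group G] (g x : G) : g * x⁻¹ * g⁻¹ = (g * x * g⁻¹)⁻¹ := by
  simp only [mul_inv_rev, inv_inv, mul_assoc]

theorem pt_cc {G : Type*} [Group G] (g e x : G) :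
    g * e * x * (g * e)⁻¹ = g * (e * x * e⁻¹) * g⁻¹ := by
  simp only [mul_inv_rev, mul_assoc]

theorem pz {i j k : ℕ} (h1 : i < j) (h2 : j < k) (hk : k < N) :
    Commute (A N i j * A N i k * A N j k) (A N i k) ∧
      Commute (A N i j * A N i k * A N j k) (A N j k) ∧ Commute (A N i j) (A N i k * A N j k) := by
  obtain ⟨g, -, hg⟩ := emb (N := N) (r := 2) (n := N) le_rfl
    (fun n => if n = 0 then i else if n = 1 then j else k)
    (by
      intro a ha
      have : a = 0 ∨ a = 1 := by omega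
      rcases this with rfl | rfl
      · simpa using h1
      · simpa using h2)
    (by simpa using hk)
  have e01 : g * A N 0 1 * g⁻¹ = A N i j := by simpa using hg 0 1 (by omega) (by omega)
  have e02 : g * A N 0 2 * g⁻¹ = A N i k := by simpa using hg 0 2 (by omega) (by omega)
  have e12 : g * A N 1 2 * g⁻¹ = A N j k := by simpa using hg 1 2 (by omega) (by omega)
  have hb : sg N 0 * sg N 1 * sg N 0 = sg N 1 * sg N 0 * sg N 1 := sg_braid (i := 0) (by omega)
  have a01 : A N 0 1 = sg N 0 ^ 2 := A_succ 0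
  have a12 : A N 1 2 = sg N 1 ^ 2 := A_succ 1
  have a02 : A N 0 2 = sg N 1 * sg N 0 ^ 2 * (sg N 1)⁻¹ := by
    rw [← a01]; exact (A_raise (i := 0) (k := 1) (by omega)).symm
  obtain ⟨za, zb, zc⟩ := pt_z hb
  have z1 : Commute (A N 0 1 * A N 0 2 * A N 1 2) (A N 0 2) := by
    rw [a01, a12, a02]
    exact (zb.mul_right (za.pow_right 2)).mul_right zb.inv_right
  have z2 : Commute (A N 0 1 * A N 0 2 * A N 1 2) (A N 1 2) := by
    rw [a01, a12, a02]
    exact zb.pow_right 2
  have z3 : Commute (A N 0 1) (A N 0 2 * A N 1 2) := by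
    rw [a01, a12, a02]
    exact zc
  have w1 := pt_conj z1 g
  have w2 := pt_conj z2 g
  have w3 := pt_conj z3 g
  rw [pt_mul, pt_mul, e01, e02, e12] at w1 w2
  rw [pt_mul, e01, e02, e12] at w3
  exact ⟨w1, w2, w3⟩

theorem pt_Rc {G : Type*} [Group G] {H : Subgroup G} {R : G → End K V} (hR : IsRep H R)
    {x y : G} (hx : x ∈ H) (hy : y ∈ H) (h : Commute x y) : Commute (R x) (R y) := by
  show R x * R y = R y * R x
  rw [← hR.2 x hx y hy, ← hR.2 y hy x hx, h.eq]

theorem pt_Nc {G : Type*} [Group G] {R : G → End K V} (lam : G → K) {T : End K V} {y : G}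
    (h : Commute T (R y)) : Commute T (Nn R lam y) :=
  h.sub_right ((Commute.one_right T).smul_right (lam y))

theorem pt_pair {M : ℕ} (h4 : 3 < M) (hM : M ≤ N) {R : BraidGroup N → End K V}
    {lam : BraidGroup N → K} (h : Good M R lam) (hA : TypeA M R lam) {g p q : BraidGroup N}
    (hg : g ∈ Bs N M) (hp : g * A N 0 1 * g⁻¹ = p) (hq : g * A N 2 3 * g⁻¹ = q) :
    Nn R lam p * Nn R lam q = 0 ∧ Nn R lam q * Nn R lam p = 0 := by
  have h0 : Nn R lam (g * A N 0 1 * g⁻¹) * Nn R lam (g * A N 2 3 * g⁻¹) = 0 := hA g hg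
  have m1 : g * A N 0 1 * g⁻¹ ∈ Ps N M := conj_mem_Ps hg (A_mem (by omega) (by omega) hM)
  have m2 : g * A N 2 3 * g⁻¹ ∈ Ps N M := conj_mem_Ps hg (A_mem (by omega) (by omega) hM)
  have c0 : Commute (A N 0 1) (A N 2 3) := by
    have a01 : A N 0 1 = sg N 0 ^ 2 := A_succ 0
    have a23 : A N 2 3 = sg N 2 ^ 2 := A_succ 2
    rw [a01, a23]
    exact (sg_far (i := 0) (j := 2) le_rfl).pow_pow 2 2
  have c1 := pt_conj c0 g
  rw [hp, hq] at h0 c1
  rw [hp] at m1
  rw [hq] at m2
  have c2 : Commute (Nn R lam p) (Nn R lam q) :=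
    pt_Nc lam (pt_Nc lam (pt_Rc h.rep m1 m2 c1).symm).symm
  exact ⟨h0, by rw [← c2.eq]; exact h0⟩

theorem pt_emb {M : ℕ} (hM : M ≤ N) {a b c k : ℕ} (h1 : a < b) (h2 : b < c) (h3 : c < k)
    (h4 : k < M) : ∃ g ∈ Bs N M, g * A N 0 1 * g⁻¹ = A N a b ∧ g * A N 0 2 * g⁻¹ = A N a c ∧
      g * A N 0 3 * g⁻¹ = A N a k ∧ g * A N 1 2 * g⁻¹ = A N b c ∧ g * A N 1 3 * g⁻¹ = A N b k ∧
      g * A N 2 3 * g⁻¹ = A N c k := by
  obtain ⟨g, hm, hg⟩ := emb (N := N) (r := 3) (n := M) hM
    (fun n => if n = 0 then a else if n = 1 then b else if n = 2 then c else k)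
    (by
      intro x hx
      have : x = 0 ∨ x = 1 ∨ x = 2 := by omega
      rcases this with rfl | rfl | rfl
      · simpa using h1
      · simpa using h2
      · simpa using h3)
    (by simpa using h4)
  refine ⟨g, hm, ?_, ?_, ?_, ?_, ?_, ?_⟩
  · simpa using hg 0 1 (by omega) (by omega)
  · simpa using hg 0 2 (by omega) (by omega)
  · simpa using hg 0 3 (by omega) (by omega)
  · simpa using hg 1 2 (by omega) (by omega)
  · simpa using hg 1 3 (by omega) (by omega)
  · simpa using hg 2 3 (by omega) (by omega)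

theorem pt_flip {G : Type*} [Group G] {s x y : G} (h : s * x * s⁻¹ = y) :
    s⁻¹ * y * s⁻¹⁻¹ = x := by
  rw [← h]; simp only [inv_inv, mul_assoc, inv_mul_cancel_left, inv_mul_cancel, mul_one]

theorem pt_fix {G : Type*} [Group G] {s x : G} (h : Commute s x) : s * x * s⁻¹ = x := by
  rw [h.eq, mul_inv_cancel_right]

theorem pt1 {M : ℕ} (hM : M ≤ N) {R : BraidGroup N → End K V} {lam : BraidGroup N → K}
    (h : Good M R lam) (hA : TypeA M R lam) {a b c k : ℕ} (h1 : a < b) (h2 : b < c) (h3 : c < k)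
    (h4 : k < M) :
    (Nn R lam (A N a b) * Nn R lam (A N c k) = 0 ∧ Nn R lam (A N c k) * Nn R lam (A N a b) = 0) ∧
    (Nn R lam (A N b c) * Nn R lam (A N a k) = 0 ∧ Nn R lam (A N a k) * Nn R lam (A N b c) = 0) ∧
    (Nn R lam ((A N a k)⁻¹ * A N a c * A N a k) * Nn R lam (A N b k) = 0 ∧
      Nn R lam (A N b k) * Nn R lam ((A N a k)⁻¹ * A N a c * A N a k) = 0) := by
  obtain ⟨g, hg, e01, e02, e03, e12, e13, e23⟩ := pt_emb hM h1 h2 h3 h4
  have hM4 : 3 < M := by omega
  have s0 : sg N 0 ∈ Bs N M := sg_mem (by omega)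
  have s1 : sg N 1 ∈ Bs N M := sg_mem (by omega)
  have hb : sg N 0 * sg N 1 * sg N 0 = sg N 1 * sg N 0 * sg N 1 := sg_braid (i := 0) (by omega)
  have a01 : A N 0 1 = sg N 0 ^ 2 := A_succ 0
  have a12 : A N 1 2 = sg N 1 ^ 2 := A_succ 1
  have l13 : sg N 1 * A N 1 3 * (sg N 1)⁻¹ = A N 2 3 := A_lower (i := 1) (by omega) (by omega)
  have l03 : sg N 0 * A N 0 3 * (sg N 0)⁻¹ = A N 1 3 := A_lower (i := 0) (by omega) (by omega)
  have r01 : sg N 1 * A N 0 1 * (sg N 1)⁻¹ = A N 0 2 := A_raise (i := 0) (k := 1) (by omega)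
  refine ⟨pt_pair hM4 hM h hA hg e01 e23, ?_, ?_⟩
  · refine pt_pair hM4 hM h hA (g := g * ((sg N 0)⁻¹ * (sg N 1)⁻¹))
      (mul_mem hg (mul_mem (inv_mem s0) (inv_mem s1))) ?_ ?_
    · rw [pt_cc, ← e12]
      have : (sg N 0)⁻¹ * (sg N 1)⁻¹ * A N 0 1 * ((sg N 0)⁻¹ * (sg N 1)⁻¹)⁻¹ = A N 1 2 := by
        have e : (sg N 0)⁻¹ * (sg N 1)⁻¹ * sg N 0 * ((sg N 0)⁻¹ * (sg N 1)⁻¹)⁻¹ = sg N 1 := by
          calc (sg N 0)⁻¹ * (sg N 1)⁻¹ * sg N 0 * ((sg N 0)⁻¹ * (sg N 1)⁻¹)⁻¹
              = (sg N 0)⁻¹ * (sg N 1)⁻¹ * (sg N 0 * sg N 1 * sg N 0) := by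
                simp only [mul_inv_rev, inv_inv, mul_assoc]
            _ = (sg N 0)⁻¹ * (sg N 0 * sg N 1) := by
                rw [hb]; simp only [mul_assoc, inv_mul_cancel_left]
            _ = sg N 1 := by simp only [inv_mul_cancel_left]
        rw [a01, a12, pow_two, pow_two, pt_mul, e]
      rw [this]
    · rw [pt_cc, pt_cc, pt_flip l13, pt_flip l03, e03]
  · have m13 : A N 1 3 ∈ Bs N M := (A_mem (i := 1) (k := 3) (by omega) hM4 hM).1
    refine pt_pair hM4 hM h hA (g := g * (sg N 1 * A N 1 3)) (mul_mem hg (mul_mem s1 m13)) ?_ ?_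
    · have z := (pz (N := N) (i := 0) (j := 1) (k := 3) (by omega) (by omega) (by omega)).2.2
      have e : A N 1 3 * A N 0 1 * (A N 1 3)⁻¹ = (A N 0 3)⁻¹ * A N 0 1 * A N 0 3 := by
        calc A N 1 3 * A N 0 1 * (A N 1 3)⁻¹
            = (A N 0 3)⁻¹ * (A N 0 3 * A N 1 3 * A N 0 1) * (A N 1 3)⁻¹ := by
              simp only [mul_assoc, inv_mul_cancel_left]
          _ = (A N 0 3)⁻¹ * A N 0 1 * A N 0 3 := by
              rw [← z.eq]; simp only [mul_assoc, mul_inv_cancel, mul_one]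
      have f03 : sg N 1 * A N 0 3 * (sg N 1)⁻¹ = A N 0 3 :=
        pt_fix (A_comm (i := 0) (k := 3) (m := 1) (by omega) (by omega) (by omega))
      rw [pt_cc, pt_cc, e, pt_mul (sg N 1), pt_mul (sg N 1), pt_inv, f03, r01, pt_mul, pt_mul,
        pt_inv, e03, e02]
    · have hu : (sg N 1)⁻¹ * A N 1 3 * sg N 1 = A N 1 3 * A N 2 3 * (A N 1 3)⁻¹ :=
        A_hur (i := 1) (k := 3) (by omega) (by omega)
      rw [pt_cc, pt_cc, ← hu, ← e13]
      simp only [mul_assoc, mul_inv_cancel_left]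

theorem pt_abs {G : Type*} [Group G] {H : Subgroup G} {R : G → End K V} (hR : IsRep H R)
    {lam : G → K} {t p q x : G} (ht : t ∈ H) (hp : p ∈ H) (hq : q ∈ H) (hx : x ∈ H)
    (hl : lam t ≠ 0) (c1 : Commute q (t * p)) (c2 : Commute p x) (c3 : Commute q x)
    (h0 : Nn R lam t * Nn R lam x = 0) : K3 R lam x p q := by
  have d1 := (pt_Rc hR hq (mul_mem ht hp) c1).eq
  rw [hR.2 t ht p hp] at d1
  have d2 := (pt_Nc lam (pt_Rc hR hp hx c2)).eq
  have d3 := (pt_Nc lam (pt_Rc hR hq hx c3)).eq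
  have d0 : R t * Nn R lam x = lam t • Nn R lam x := by
    have : (R t - lam t • (1 : End K V)) * Nn R lam x = 0 := h0
    rw [sub_mul, smul_mul_assoc, one_mul, sub_eq_zero] at this
    exact this
  show (R p * R q - R q * R p) * Nn R lam x = 0
  generalize Nn R lam x = n at d0 d2 d3 ⊢
  have k1 : R t * R p * R q * n = lam t • (R p * R q * n) := by
    calc R t * R p * R q * n = R t * (R p * (R q * n)) := by simp only [mul_assoc]
      _ = (R t * n) * R p * R q := by
          rw [d3, ← mul_assoc (R p), d2]; simp only [mul_assoc]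
      _ = lam t • (n * R p * R q) := by rw [d0, smul_mul_assoc, smul_mul_assoc]
      _ = lam t • (R p * R q * n) := by
          rw [← d2, mul_assoc (R p) n, ← d3, mul_assoc]
  have k2 : R q * (R t * R p) * n = lam t • (R q * R p * n) := by
    calc R q * (R t * R p) * n = R q * (R t * (R p * n)) := by simp only [mul_assoc]
      _ = R q * ((R t * n) * R p) := by rw [d2]; simp only [mul_assoc]
      _ = lam t • (R q * (n * R p)) := by rw [d0, smul_mul_assoc, mul_smul_comm]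
      _ = lam t • (R q * R p * n) := by rw [← d2, mul_assoc]
  rw [d1, k1] at k2
  rw [sub_mul, sub_eq_zero]
  exact smul_right_injective _ hl k2

theorem pt_w {G : Type*} [Group G] {a b c : G} (h1 : a * b * a = b * a * b)
    (h2 : b * c * b = c * b * c) (h3 : a * c = c * a) :
    Commute b (a * b * c * c * b * a) ∧ Commute c (a * b * c * c * b * a) := by
  constructor
  · show b * (a * b * c * c * b * a) = a * b * c * c * b * a * b
    calc b * (a * b * c * c * b * a) = (b * a * b) * c * c * b * a := by simp only [mul_assoc]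
      _ = a * b * (a * c) * c * b * a := by rw [← h1]; simp only [mul_assoc]
      _ = a * b * c * (a * c) * b * a := by rw [h3]; simp only [mul_assoc]; rw [← mul_assoc a c, h3]; simp only [mul_assoc]
      _ = a * b * c * c * (a * b * a) := by rw [h3]; simp only [mul_assoc]
      _ = a * b * c * c * b * a * b := by rw [h1]; simp only [mul_assoc]
  · show c * (a * b * c * c * b * a) = a * b * c * c * b * a * c
    calc c * (a * b * c * c * b * a) = (c * a) * b * c * c * b * a := by simp only [mul_assoc]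
      _ = a * (c * b * c) * c * b * a := by rw [← h3]; simp only [mul_assoc]
      _ = a * b * c * (b * c * b) * a := by rw [← h2]; simp only [mul_assoc]
      _ = a * b * c * c * b * (c * a) := by rw [h2]; simp only [mul_assoc]
      _ = a * b * c * c * b * a * c := by rw [← h3]; simp only [mul_assoc]

theorem pt_k3 {M : ℕ} (h4 : 3 < M) (hM : M ≤ N) {R : BraidGroup N → End K V}
    {lam : BraidGroup N → K} (h : Good M R lam) (hA : TypeA M R lam) {g : BraidGroup N}
    (hg : g ∈ Bs N M) :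
    K3 R lam (g * A N 2 3 * g⁻¹) (g * (A N 0 2 * A N 0 3 * A N 2 3) * g⁻¹)
      (g * (A N 1 2 * A N 1 3 * A N 2 3) * g⁻¹) := by
  have m : ∀ i k, i < k → k ≤ 3 → A N i k ∈ Ps N M := fun i k h1 h2 => A_mem h1 (by omega) hM
  have hb : sg N 0 * sg N 1 * sg N 0 = sg N 1 * sg N 0 * sg N 1 := sg_braid (i := 0) (by omega)
  have hc : sg N 1 * sg N 2 * sg N 1 = sg N 2 * sg N 1 * sg N 2 := sg_braid (i := 1) (by omega)
  have hf : sg N 0 * sg N 2 = sg N 2 * sg N 0 := (sg_far (i := 0) (j := 2) le_rfl).eq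
  have a01 : A N 0 1 = sg N 0 ^ 2 := A_succ 0
  have a12 : A N 1 2 = sg N 1 ^ 2 := A_succ 1
  have a23 : A N 2 3 = sg N 2 ^ 2 := A_succ 2
  have a02 : A N 0 2 = sg N 1 * sg N 0 ^ 2 * (sg N 1)⁻¹ := by
    rw [← a01]; exact (A_raise (i := 0) (k := 1) (by omega)).symm
  have a13 : A N 1 3 = sg N 2 * sg N 1 ^ 2 * (sg N 2)⁻¹ := by
    rw [← a12]; exact (A_raise (i := 1) (k := 2) (by omega)).symm
  have l13 : sg N 1 * A N 1 3 * (sg N 1)⁻¹ = A N 2 3 := A_lower (i := 1) (by omega) (by omega)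
  have l03 : sg N 0 * A N 0 3 * (sg N 0)⁻¹ = A N 1 3 := A_lower (i := 0) (by omega) (by omega)
  have w : A N 0 1 * A N 0 2 * A N 0 3 = sg N 0 * sg N 1 * sg N 2 * sg N 2 * sg N 1 * sg N 0 := by
    rw [a01, a02, pt_c2 hb, ← pt_flip l03, ← pt_flip l13, a23]
    simp only [pow_two, inv_inv, mul_assoc, mul_inv_cancel_left]
  obtain ⟨wb, wc⟩ := pt_w hb hc hf
  rw [← w] at wb wc
  have z12 := (pz (N := N) (i := 1) (j := 2) (k := 3) (by omega) (by omega) (by omega)).2.1
  have z02 := (pz (N := N) (i := 0) (j := 2) (k := 3) (by omega) (by omega) (by omega)).2.1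
  have c0 : Commute (A N 1 2 * A N 1 3 * A N 2 3) (A N 0 1 * A N 0 2 * A N 0 3) := by
    generalize A N 0 1 * A N 0 2 * A N 0 3 = W at wb wc ⊢
    rw [a12, a13, a23]
    exact ((wb.pow_left 2).mul_left ((wc.mul_left (wb.pow_left 2)).mul_left wc.inv_left)).mul_left
      (wc.pow_left 2)
  have c1 : Commute (A N 1 2 * A N 1 3 * A N 2 3) (A N 0 1 * (A N 0 2 * A N 0 3 * A N 2 3)) := by
    have := c0.mul_right z12
    simpa only [mul_assoc] using this
  have c1' := pt_conj c1 g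
  rw [pt_mul g (A N 0 1)] at c1'
  exact pt_abs h.rep (t := g * A N 0 1 * g⁻¹) (conj_mem_Ps hg (m 0 1 (by omega) (by omega)))
    (conj_mem_Ps hg (mul_mem (mul_mem (m 0 2 (by omega) (by omega)) (m 0 3 (by omega) (by omega)))
      (m 2 3 (by omega) (by omega))))
    (conj_mem_Ps hg (mul_mem (mul_mem (m 1 2 (by omega) (by omega)) (m 1 3 (by omega) (by omega)))
      (m 2 3 (by omega) (by omega))))
    (conj_mem_Ps hg (m 2 3 (by omega) (by omega))) (h.lam0 _) c1' (pt_conj z02 g) (pt_conj z12 g)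
    (hA g hg)

theorem pt2 {M : ℕ} (hM : M ≤ N) {R : BraidGroup N → End K V} {lam : BraidGroup N → K}
    (h : Good M R lam) (hA : TypeA M R lam) {a b c k : ℕ} (h1 : a < b) (h2 : b < c) (h3 : c < k)
    (h4 : k < M) :
    K3 R lam (A N c k) (A N a c * A N a k * A N c k) (A N b c * A N b k * A N c k) ∧
    K3 R lam (A N b k) (A N a b * A N a k * A N b k) (A N b c * A N b k * A N c k) ∧
    K3 R lam (A N a k) (A N a b * A N a k * A N b k) (A N a c * A N a k * A N c k) := by
  obtain ⟨g, hg, e01, e02, e03, e12, e13, e23⟩ := pt_emb hM h1 h2 h3 h4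
  have hM4 : 3 < M := by omega
  have s0 : sg N 0 ∈ Bs N M := sg_mem (by omega)
  have s1 : sg N 1 ∈ Bs N M := sg_mem (by omega)
  have a01 : A N 0 1 = sg N 0 ^ 2 := A_succ 0
  have a12 : A N 1 2 = sg N 1 ^ 2 := A_succ 1
  have l13 : sg N 1 * A N 1 3 * (sg N 1)⁻¹ = A N 2 3 := A_lower (i := 1) (by omega) (by omega)
  have l03 : sg N 0 * A N 0 3 * (sg N 0)⁻¹ = A N 1 3 := A_lower (i := 0) (by omega) (by omega)
  have l02 : sg N 0 * A N 0 2 * (sg N 0)⁻¹ = A N 1 2 := A_lower (i := 0) (by omega) (by omega)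
  have r01 : sg N 1 * A N 0 1 * (sg N 1)⁻¹ = A N 0 2 := A_raise (i := 0) (k := 1) (by omega)
  have f03 : sg N 1 * A N 0 3 * (sg N 1)⁻¹ = A N 0 3 :=
    pt_fix (A_comm (i := 0) (k := 3) (m := 1) (by omega) (by omega) (by omega))
  have f23 : sg N 0 * A N 2 3 * (sg N 0)⁻¹ = A N 2 3 :=
    pt_fix (A_comm (i := 2) (k := 3) (m := 0) (by omega) (by omega) (by omega))
  have f12 : sg N 1 * A N 1 2 * (sg N 1)⁻¹ = A N 1 2 := by
    rw [a12]; exact pt_fix ((Commute.refl _).pow_right 2)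
  have f01 : sg N 0 * A N 0 1 * (sg N 0)⁻¹ = A N 0 1 := by
    rw [a01]; exact pt_fix ((Commute.refl _).pow_right 2)
  have u13 : (sg N 1)⁻¹ * A N 1 3 * (sg N 1)⁻¹⁻¹ = A N 1 3 * A N 2 3 * (A N 1 3)⁻¹ := by
    rw [inv_inv]; exact A_hur (i := 1) (k := 3) (by omega) (by omega)
  have u03 : (sg N 0)⁻¹ * A N 0 3 * (sg N 0)⁻¹⁻¹ = A N 0 3 * A N 1 3 * (A N 0 3)⁻¹ := by
    rw [inv_inv]; exact A_hur (i := 0) (k := 3) (by omega) (by omega)
  have b02 : (sg N 1)⁻¹ * (A N 0 2 * A N 0 3 * A N 2 3) * (sg N 1)⁻¹⁻¹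
      = A N 0 1 * A N 0 3 * A N 1 3 := by
    rw [pt_mul, pt_mul, pt_flip r01, pt_flip f03, pt_flip l13]
  have b12 : (sg N 1)⁻¹ * (A N 1 2 * A N 1 3 * A N 2 3) * (sg N 1)⁻¹⁻¹
      = A N 1 2 * A N 1 3 * A N 2 3 := by
    rw [pt_mul, pt_mul, pt_flip f12, u13, pt_flip l13]
    simp only [mul_assoc, inv_mul_cancel, mul_one]
  have c01 : (sg N 0)⁻¹ * (A N 0 1 * A N 0 3 * A N 1 3) * (sg N 0)⁻¹⁻¹
      = A N 0 1 * A N 0 3 * A N 1 3 := by
    rw [pt_mul, pt_mul, pt_flip f01, u03, pt_flip l03]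
    simp only [mul_assoc, inv_mul_cancel, mul_one]
  have c12 : (sg N 0)⁻¹ * (A N 1 2 * A N 1 3 * A N 2 3) * (sg N 0)⁻¹⁻¹
      = A N 0 2 * A N 0 3 * A N 2 3 := by
    rw [pt_mul, pt_mul, pt_flip l02, pt_flip l03, pt_flip f23]
  refine ⟨?_, ?_, ?_⟩
  · have := pt_k3 hM4 hM h hA hg
    rw [pt_mul, pt_mul, pt_mul, pt_mul, e02, e03, e23, e12, e13] at this
    exact this
  · have := pt_k3 hM4 hM h hA (mul_mem hg (inv_mem s1))
    rw [pt_cc, pt_cc, pt_cc, pt_flip l13, b02, b12, pt_mul, pt_mul, pt_mul, pt_mul,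
      e01, e03, e13, e12, e23] at this
    exact this
  · have := pt_k3 hM4 hM h hA (mul_mem (mul_mem hg (inv_mem s0)) (inv_mem s1))
    rw [pt_cc, pt_cc, pt_cc, pt_cc, pt_cc, pt_cc, pt_flip l13, b02, b12, pt_flip l03, c01, c12,
      pt_mul, pt_mul, pt_mul, pt_mul, e01, e03, e13, e02, e23] at this
    exact this
end Rowpt

section Rowsb0
theorem sb0_comm {G : Type*} [Group G] {H : Subgroup G} {R : G → End K V} (hR : IsRep H R)
    {a b : G} (ha : a ∈ H) (hb : b ∈ H) (h : Commute a b) : Commute (R a) (R b) := by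
  show R a * R b = R b * R a
  rw [← hR.2 a ha b hb, ← hR.2 b hb a ha, h.eq]

theorem sb0_unit {G : Type*} [Group G] {H : Subgroup G} {R : G → End K V} (hR : IsRep H R)
    {a : G} (ha : a ∈ H) {c : K} (hc : c ≠ 0) : IsUnit (c • R a) := by
  refine ⟨⟨c • R a, c⁻¹ • R a⁻¹, ?_, ?_⟩, rfl⟩
  · rw [smul_mul_smul_comm, mul_inv_cancel₀ hc, one_smul, ← hR.2 a ha _ (inv_mem ha),
      mul_inv_cancel, hR.1]
  · rw [smul_mul_smul_comm, inv_mul_cancel₀ hc, one_smul, ← hR.2 _ (inv_mem ha) a ha,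
      inv_mul_cancel, hR.1]

theorem sb0_inv [FiniteDimensional K V] {G : Type*} [Group G] {H : Subgroup G} {R : G → End K V}
    (hR : IsRep H R) {a : G} (ha : a ∈ H) (U : Submodule K V) (h : ∀ v ∈ U, R a v ∈ U) :
    ∀ v ∈ U, R a⁻¹ v ∈ U := by
  have e : ∀ v, R a⁻¹ (R a v) = v := fun v => by
    rw [← End.mul_apply, ← hR.2 _ (inv_mem ha) a ha, inv_mul_cancel, hR.1, End.one_apply]
  have inj : Function.Injective ((R a).restrict h) := fun x y hxy => by
    have := congrArg (fun z : U => R a⁻¹ (z : V)) hxy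
    simp only [LinearMap.coe_restrict_apply, e] at this
    exact Subtype.ext this
  intro v hv
  obtain ⟨w, hw⟩ := LinearMap.injective_iff_surjective.1 inj ⟨v, hv⟩
  have : R a (w : V) = v := congrArg Subtype.val hw
  rw [← this, e]
  exact w.2

theorem sb0_kill {P Q : End K V} {a b : K} (ha : a ≠ 0) (hb : b ≠ 0)
    (h : (P - a • (1 : End K V)) * (Q - b • (1 : End K V)) = 0 ∧
      (Q - b • (1 : End K V)) * (P - a • (1 : End K V)) = 0) :
    a⁻¹ • P * (b⁻¹ • Q - 1) = b⁻¹ • Q - 1 ∧ (b⁻¹ • Q - 1) * a⁻¹ • P = b⁻¹ • Q - 1 := by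
  have e1 : a⁻¹ • P - 1 = a⁻¹ • (P - a • (1 : End K V)) := by
    rw [smul_sub, smul_smul, inv_mul_cancel₀ ha, one_smul]
  have e2 : b⁻¹ • Q - 1 = b⁻¹ • (Q - b • (1 : End K V)) := by
    rw [smul_sub, smul_smul, inv_mul_cancel₀ hb, one_smul]
  have k1 : (a⁻¹ • P - 1) * (b⁻¹ • Q - 1) = 0 := by
    rw [e1, e2, smul_mul_smul_comm, h.1, smul_zero]
  have k2 : (b⁻¹ • Q - 1) * (a⁻¹ • P - 1) = 0 := by
    rw [e1, e2, smul_mul_smul_comm, h.2, smul_zero]
  rw [sub_mul, one_mul, sub_eq_zero] at k1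
  rw [mul_sub, mul_one, sub_eq_zero] at k2
  exact ⟨k1, k2⟩

theorem sb0_z2 {Z P X Y T : End K V} (h1 : Z = P * X * Y) (h2 : Z = X * Y * P)
    (h : P * T = T ∧ T * P = T) : Z * T = X * Y * T ∧ T * Z = T * X * Y := by
  constructor
  · rw [h2, mul_assoc, h.1]
  · rw [h1, ← mul_assoc, ← mul_assoc, h.2]

theorem sb0_k3 {P Q T : End K V} {a b c : K} (hc : c ≠ 0)
    (h : (P * Q - Q * P) * (T - c • (1 : End K V)) = 0) :
    (a • P * b • Q - b • Q * a • P) * (c⁻¹ • T - 1) = 0 ∧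
      (b • Q * a • P - a • P * b • Q) * (c⁻¹ • T - 1) = 0 := by
  have e2 : c⁻¹ • T - 1 = c⁻¹ • (T - c • (1 : End K V)) := by
    rw [smul_sub, smul_smul, inv_mul_cancel₀ hc, one_smul]
  have k : (a • P * b • Q - b • Q * a • P) * (c⁻¹ • T - 1) = 0 := by
    rw [e2, smul_mul_smul_comm, smul_mul_smul_comm, mul_comm b a, ← smul_sub, smul_mul_smul_comm,
      h, smul_zero]
  refine ⟨k, ?_⟩
  rw [← neg_sub, neg_mul, k, neg_zero]

theorem star_of [FiniteDimensional K V] {M : ℕ} (h4 : 4 ≤ M) (hM : M ≤ N)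
    {R : BraidGroup N → End K V} {lam : BraidGroup N → K} (h : Good M R lam)
    (hA : TypeA M R lam) : ∃ Z, Star (M - 1) (Xg (M - 1) R lam 1) Z := by
  obtain ⟨k, rfl⟩ : ∃ k, M = k + 1 := ⟨M - 1, by omega⟩
  rw [Nat.add_sub_cancel]
  have hk : k < N := by omega
  have hX : Xg k R lam 1 = fun a => (lam (A N a k))⁻¹ • R (A N a k) := by
    funext a
    simp only [Xg, inv_one, one_mul, mul_one]
  rw [hX]
  have hR := h.rep
  have mA : ∀ {i j : ℕ}, i < j → j ≤ k → A N i j ∈ Ps N (k + 1) := fun h1 h2 =>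
    A_mem h1 (by omega) hM
  let c : ℕ → ℕ → K := fun i j => (lam (A N i j))⁻¹ * (lam (A N i k))⁻¹ * (lam (A N j k))⁻¹
  have c0 : ∀ i j, c i j ≠ 0 := fun i j =>
    mul_ne_zero (mul_ne_zero (inv_ne_zero (h.lam0 _)) (inv_ne_zero (h.lam0 _)))
      (inv_ne_zero (h.lam0 _))
  let W : ℕ → ℕ → BraidGroup N := fun i j => A N i j * A N i k * A N j k
  have mW : ∀ {i j : ℕ}, i < j → j < k → W i j ∈ Ps N (k + 1) := fun h1 h2 =>
    mul_mem (mul_mem (mA h1 h2.le) (mA (h1.trans h2) le_rfl)) (mA h2 le_rfl)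
  let Z : ℕ → ℕ → End K V := fun i j => c (min i j) (max i j) • R (W (min i j) (max i j))
  have zs : ∀ i j, Z i j = Z j i := fun i j => by simp only [Z, min_comm, max_comm]
  have zl : ∀ {i j : ℕ}, i < j → Z i j = c i j • R (W i j) := fun h1 => by
    simp only [Z, min_eq_left h1.le, max_eq_right h1.le]
  have zg : ∀ {i j : ℕ}, i < j → Z j i = c i j • R (W i j) := fun h1 => by rw [zs, zl h1]
  have tri : ∀ {a b d : BraidGroup N} {x y z : K}, a ∈ Ps N (k + 1) → b ∈ Ps N (k + 1) →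
      d ∈ Ps N (k + 1) → (x * y * z) • R (a * b * d) = x • R a * y • R b * z • R d :=
    fun ha hb hd => by
      rw [smul_mul_smul_comm, smul_mul_smul_comm, hR.2 _ (mul_mem ha hb) _ hd, hR.2 _ ha _ hb]
  have f1 : ∀ {i j : ℕ}, i < j → j < k →
      c i j • R (W i j) = (lam (A N i j))⁻¹ • R (A N i j) * (lam (A N i k))⁻¹ • R (A N i k) *
        (lam (A N j k))⁻¹ • R (A N j k) ∧
      c i j • R (W i j) = (lam (A N i k))⁻¹ • R (A N i k) * (lam (A N j k))⁻¹ • R (A N j k) *
        (lam (A N i j))⁻¹ • R (A N i j) := fun {i j} h1 h2 => by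
    refine ⟨tri (mA h1 h2.le) (mA (h1.trans h2) le_rfl) (mA h2 le_rfl), ?_⟩
    rw [← tri (mA (h1.trans h2) le_rfl) (mA h2 le_rfl) (mA h1 h2.le), ← (pz h1 h2 hk).2.2.eq,
      ← mul_assoc, mul_comm _ (lam (A N i j))⁻¹, ← mul_assoc]
  have f2 : ∀ {i j : ℕ}, i < j → j < k →
      c i j • R (W i j) = (lam ((A N i k)⁻¹ * A N i j * A N i k))⁻¹ •
        R ((A N i k)⁻¹ * A N i j * A N i k) * (lam (A N j k))⁻¹ • R (A N j k) *
        (lam (A N i k))⁻¹ • R (A N i k) ∧
      c i j • R (W i j) = (lam (A N j k))⁻¹ • R (A N j k) * (lam (A N i k))⁻¹ • R (A N i k) *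
        (lam ((A N i k)⁻¹ * A N i j * A N i k))⁻¹ • R ((A N i k)⁻¹ * A N i j * A N i k) :=
    fun {i j} h1 h2 => by
      have m1 := mA (h1.trans h2) le_rfl
      have m2 := mA h2 le_rfl
      have m3 := mA h1 h2.le
      have m4 := mul_mem (mul_mem (inv_mem m1) m3) m1
      have el : lam ((A N i k)⁻¹ * A N i j * A N i k) = lam (A N i j) := by
        have := h.lamc _ (inv_mem m1) _ m3
        rwa [inv_inv] at this
      have w1 : (A N i k)⁻¹ * A N i j * A N i k * A N j k * A N i k = W i j := by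
        calc _ = (A N i k)⁻¹ * (A N i j * A N i k * A N j k * A N i k) := by group
          _ = _ := by rw [(pz h1 h2 hk).1.eq, inv_mul_cancel_left]
      have w2 : A N j k * A N i k * ((A N i k)⁻¹ * A N i j * A N i k) = W i j := by
        calc _ = A N j k * (A N i j * A N i k * A N j k) * (A N j k)⁻¹ := by group
          _ = _ := by rw [← (pz h1 h2 hk).2.1.eq, mul_inv_cancel_right]
      rw [← tri m4 m2 m1, ← tri m2 m1 m4, w1, w2, el]
      constructor
      · rw [mul_right_comm]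
      · rw [mul_comm _ (lam (A N i j))⁻¹, mul_comm (lam (A N j k))⁻¹, ← mul_assoc]
  refine ⟨Z, fun j hj => sb0_unit hR (mA hj le_rfl) (inv_ne_zero (h.lam0 _)),
    fun i hi j hj hne => ?_, zs, fun j hj e => ?_, fun i hi j hj hne => ?_,
    fun l hl i hi j hj hy => ?_, fun q hq i hi j hj h1 h2 h3 => ?_, fun U hU hZ => ?_⟩
  · rcases lt_or_gt_of_ne hne with h1 | h1
    · rw [zl h1]
      exact sb0_unit hR (mW h1 hj) (c0 _ _)
    · rw [zg h1]
      exact sb0_unit hR (mW h1 hi) (c0 _ _)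
  · refine A_ne hj hk (h.pf _ (Subgroup.subset_closure ⟨j, hj, rfl⟩) ⟨lam (A N j k), ?_⟩)
    have e' : (lam (A N j k))⁻¹ • R (A N j k) = 1 := e
    rw [← e', smul_smul, mul_inv_cancel₀ (h.lam0 _), one_smul]
  · rcases lt_or_gt_of_ne hne with h1 | h1
    · rw [zl h1]
      exact ((sb0_comm hR (mW h1 hj) (mA hi le_rfl) (pz h1 hj hk).1).smul_left _).smul_right _
    · rw [zg h1]
      exact ((sb0_comm hR (mW h1 hi) (mA hi le_rfl) (pz h1 hi hk).2.1).smul_left _).smul_right _
  · rcases hy with ⟨h1, h2⟩ | ⟨h1, h2⟩ | ⟨h1, h2⟩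
    · rw [zl h2]
      exact sb0_z2 (f1 h2 hj).1 (f1 h2 hj).2 (sb0_kill (h.lam0 _) (h.lam0 _)
        (pt1 hM h hA h1 h2 hj (Nat.lt_succ_self k)).2.1)
    · rw [zl h1]
      exact sb0_z2 (f1 h1 hj).1 (f1 h1 hj).2 (sb0_kill (h.lam0 _) (h.lam0 _)
        (pt1 hM h hA h1 h2 hl (Nat.lt_succ_self k)).1)
    · rw [zg (h1.trans h2)]
      exact sb0_z2 (f2 (h1.trans h2) hi).1 (f2 (h1.trans h2) hi).2 (sb0_kill (h.lam0 _) (h.lam0 _)
        (pt1 hM h hA h1 h2 hi (Nat.lt_succ_self k)).2.2)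
  · have main : ∀ {i j : ℕ}, i < j → j < k → q ≠ i → q ≠ j →
        (Z q i * Z q j - Z q j * Z q i) * ((lam (A N q k))⁻¹ • R (A N q k) - 1) = 0 ∧
        (Z q j * Z q i - Z q i * Z q j) * ((lam (A N q k))⁻¹ • R (A N q k) - 1) = 0 := by
      intro i j hij hj h1 h2
      rcases lt_or_gt_of_ne h1 with h1 | h1
      · rw [zl h1, zl (h1.trans hij)]
        exact sb0_k3 (h.lam0 _) (pt2 hM h hA h1 hij hj (Nat.lt_succ_self k)).2.2
      · rcases lt_or_gt_of_ne h2 with h2 | h2
        · rw [zg h1, zl h2]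
          exact sb0_k3 (h.lam0 _) (pt2 hM h hA h1 h2 hj (Nat.lt_succ_self k)).2.1
        · rw [zg h1, zg h2]
          exact sb0_k3 (h.lam0 _) (pt2 hM h hA hij h2 hq (Nat.lt_succ_self k)).1
    rcases lt_or_gt_of_ne h3 with h3 | h3
    · exact (main h3 hj h1 h2).1
    · exact (main h3 hi h2 h1).2
  · have un : ∀ {x : K} {T : End K V}, x ≠ 0 → (∀ v ∈ U, (x • T) v ∈ U) → ∀ v ∈ U, T v ∈ U :=
      fun {x T} hx hT v hv => (U.smul_mem_iff hx).1 (hT v hv)
    have pm : ∀ {a b : BraidGroup N}, (a ∈ Ps N (k + 1) ∧ ∀ v ∈ U, R a v ∈ U) →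
        (b ∈ Ps N (k + 1) ∧ ∀ v ∈ U, R b v ∈ U) →
        (a * b ∈ Ps N (k + 1) ∧ ∀ v ∈ U, R (a * b) v ∈ U) := fun ha hb =>
      ⟨mul_mem ha.1 hb.1, fun v hv => by
        rw [hR.2 _ ha.1 _ hb.1, End.mul_apply]
        exact ha.2 _ (hb.2 v hv)⟩
    have pi : ∀ {a : BraidGroup N}, (a ∈ Ps N (k + 1) ∧ ∀ v ∈ U, R a v ∈ U) →
        (a⁻¹ ∈ Ps N (k + 1) ∧ ∀ v ∈ U, R a⁻¹ v ∈ U) := fun ha =>
      ⟨inv_mem ha.1, sb0_inv hR ha.1 U ha.2⟩
    have px : ∀ {i : ℕ}, i < k → (A N i k ∈ Ps N (k + 1) ∧ ∀ v ∈ U, R (A N i k) v ∈ U) :=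
      fun {i} hi => ⟨mA hi le_rfl, un (inv_ne_zero (h.lam0 _)) (hU i hi)⟩
    refine h.irr U fun g hg => ?_
    suffices H : g ∈ Ps N (k + 1) ∧ ∀ v ∈ U, R g v ∈ U from H.2
    refine Subgroup.closure_induction
      (p := fun g _ => g ∈ Ps N (k + 1) ∧ ∀ v ∈ U, R g v ∈ U) ?_ ?_
      (fun a b _ _ ha hb => pm ha hb) (fun a _ ha => pi ha) (Ps_gen hM hg)
    · rintro _ ⟨i, l, h1, h2, rfl⟩
      rcases Nat.lt_succ_iff_lt_or_eq.1 h2 with h2 | rfl
      · have pw : W i l ∈ Ps N (k + 1) ∧ ∀ v ∈ U, R (W i l) v ∈ U :=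
          ⟨mW h1 h2, un (c0 i l) (by
            rw [← zl h1]
            exact hZ i (h1.trans h2) l h2 h1.ne)⟩
        have e : A N i l = W i l * (A N l k)⁻¹ * (A N i k)⁻¹ := by
          simp only [W, mul_inv_cancel_right]
        rw [e]
        exact pm (pm pw (pi (px h2))) (pi (px (h1.trans h2)))
      · exact px h1
    · refine ⟨one_mem _, fun v hv => ?_⟩
      rw [hR.1]
      exact hv
end Rowsb0

section Rowsb1
section SB1
variable {k : ℕ} {X : ℕ → End K V} {Z : ℕ → ℕ → End K V}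

theorem cyc_or {a b c : ℕ} (hab : a ≠ b) (hbc : b ≠ c) (hac : a ≠ c) : Cyc a b c ∨ Cyc c b a := by
  unfold Cyc
  omega

theorem comm_N {T S : End K V} (h : Commute T S) : Commute T (S - 1) :=
  h.sub_right (Commute.one_right T)

theorem star_cyc (h : Star k X Z) {a b c : ℕ}
    (ha : a < k) (hb : b < k) (hc : c < k) (hy : Cyc a b c) :
    X a * ((X a - 1) * (X b - 1) * (X c - 1)) = (Z a b - X a) * (X a - 1) * (X c - 1) := by
  have hab : a ≠ b := by unfold Cyc at hy; omega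
  have h1 := (h.z2 c hc a ha b hb (by unfold Cyc at hy ⊢; omega)).1
  have h2 := (comm_N (h.z1 a ha b hb hab)).eq
  have h3 : Z a b * (X a - 1) * (X c - 1) = (X a - 1) * (X a * X b * (X c - 1)) := by
    rw [h2, mul_assoc, h1]
  rw [sub_mul (Z a b), sub_mul (Z a b * _), h3]
  noncomm_ring

theorem star_anti (h : Star k X Z) {a b c : ℕ}
    (ha : a < k) (hb : b < k) (hc : c < k) (hy : Cyc c b a) :
    (X a - 1) * (X b - 1) * Z c a * (X c - 1) = (Z a b - X a) * (X a - 1) * (X c - 1) * X c := by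
  have hab : a ≠ b := by unfold Cyc at hy; omega
  have h1 := (h.z2 b hb a ha c hc (by unfold Cyc at hy ⊢; omega)).2
  have h2 := (h.z2 c hc b hb a ha hy).1
  have h3 := (comm_N (h.z1 a ha b hb hab)).eq
  have h4 : Z a b * (X a - 1) * (X c - 1) = (X a - 1) * (X b * X a * (X c - 1)) := by
    rw [h3, mul_assoc, h.zs a b, h2]
  rw [sub_mul (Z a b), sub_mul (Z a b * _), h4, h.zs c a, mul_assoc (X a - 1), h1]
  noncomm_ring

theorem star_int (h : Star k X Z) {a b c : ℕ}
    (ha : a < k) (hb : b < k) (hc : c < k) (hab : a ≠ b) (hbc : b ≠ c) (hac : a ≠ c) :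
    Z a b * (X a - 1) * (X c - 1) * X c = X a * (X a - 1) * Z c b * (X c - 1) := by
  rcases cyc_or hab hbc hac with hy | hy
  · have h1 := (h.z2 c hc a ha b hb (by unfold Cyc at hy ⊢; omega)).1
    have h2 := (comm_N (h.z1 a ha b hb hab)).eq
    have h3 := (h.z2 a ha b hb c hc hy).2
    rw [h2, mul_assoc (X a - 1), h1, h.zs c b, mul_assoc (X a) (X a - 1), mul_assoc (X a) (_ * _),
      h3]
    noncomm_ring
  · obtain ⟨xa, hxa⟩ := h.xu a ha
    obtain ⟨xb, hxb⟩ := h.xu b hb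
    obtain ⟨xc, hxc⟩ := h.xu c hc
    have h1 := (h.z2 c hc b hb a ha hy).1
    have h3 := (h.z2 a ha c hc b hb (by unfold Cyc at hy ⊢; omega)).2
    have ca := h.z1 a ha b hb hab
    have cb : Commute (Z a b) (X b) := h.zs b a ▸ h.z1 b hb a ha hab.symm
    have cc := h.z1 c hc b hb hbc.symm
    have cb' : Commute (Z c b) (X b) := h.zs b c ▸ h.z1 b hb c hc hbc
    rw [h.zs b a] at h1
    set B : End K V := ((xb⁻¹ : (End K V)ˣ) : End K V) with hB
    have b1 : B * X b = 1 := by rw [← hxb, hB, Units.inv_mul]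
    have b2 : X b * B = 1 := by rw [← hxb, hB, Units.mul_inv]
    have zb : Commute (Z a b) B := by rw [hB]; exact (hxb ▸ cb : Commute _ (xb : End K V)).units_inv_right
    have zb' : Commute (Z c b) B := by
      rw [hB]; exact (hxb ▸ cb' : Commute _ (xb : End K V)).units_inv_right
    have e1 : Z a b * ((X a - 1) * B * (X c - 1)) = X a * ((X a - 1) * (X c - 1)) := by
      calc Z a b * ((X a - 1) * B * (X c - 1)) = (X a - 1) * B * (Z a b * (X c - 1)) := by
            rw [← mul_assoc, ← mul_assoc, (comm_N ca).eq, mul_assoc _ (Z a b), zb.eq]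
            simp only [mul_assoc]
        _ = (X a - 1) * (B * X b) * X a * (X c - 1) := by rw [h1]; simp only [mul_assoc]
        _ = _ := by rw [b1]; noncomm_ring
    have e2 : (X a - 1) * B * (X c - 1) * Z c b = (X a - 1) * (X c - 1) * X c := by
      have e3 : (X a - 1) * B * Z c b = (X a - 1) * X c := by
        rw [mul_assoc, ← zb'.eq, ← mul_assoc, h3, mul_assoc, b2, mul_one]
      rw [mul_assoc _ (X c - 1), ← (comm_N cc).eq, ← mul_assoc, e3]
      noncomm_ring
    calc Z a b * (X a - 1) * (X c - 1) * X c = Z a b * ((X a - 1) * (X c - 1) * X c) := by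
          simp only [mul_assoc]
      _ = Z a b * ((X a - 1) * B * (X c - 1)) * Z c b := by rw [← e2]; simp only [mul_assoc]
      _ = _ := by rw [e1, mul_assoc, mul_assoc, ← (comm_N cc).eq]; simp only [mul_assoc]

theorem star_cf (h : Star k X Z)
    (E : ℕ → Submodule K V) (hE : ∀ q < k, E q ≤ LinearMap.range (X q - 1))
    (hN : ∀ p < k, ∀ q < k, ∀ v ∈ E q, (X p - 1) v ∈ E p)
    (hZ : ∀ q < k, ∀ l < k, q ≠ l → ∀ v ∈ E q, Z q l v ∈ E q) :
    (∀ q < k, E q = ⊥) ∨ ((∀ q < k, E q = LinearMap.range (X q - 1)) ∧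
      ∀ U : Submodule K V, (∀ q < k, E q ≤ U) → U = ⊤) := by
  let S : Submodule K V := ⨆ q : {q // q < k}, E q
  have hle : ∀ q < k, E q ≤ S := fun q hq => le_iSup (fun q : {q // q < k} => E q) ⟨q, hq⟩
  have hNS : ∀ p < k, S ≤ (E p).comap (X p - 1) := fun p hp =>
    iSup_le fun q v hv => hN p hp q q.2 v hv
  have hX : ∀ j < k, ∀ v ∈ S, X j v ∈ S := by
    intro j hj v hv
    have := add_mem (hle j hj (hNS j hj hv)) hv
    simpa using this
  have hZS : ∀ i < k, ∀ j < k, i ≠ j → ∀ v ∈ S, Z i j v ∈ S := by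
    intro i hi j hj hij
    refine (iSup_le fun q v hv => ?_ : S ≤ S.comap (Z i j))
    show Z i j v ∈ S
    by_cases h1 : q.1 = i
    · exact hle i hi (hZ i hi j hj hij v (h1 ▸ hv))
    by_cases h2 : q.1 = j
    · rw [h.zs]
      exact hle j hj (hZ j hj i hi hij.symm v (h2 ▸ hv))
    obtain ⟨w, hw⟩ := hE q q.2 hv
    have hvS := hle q q.2 hv
    rcases cyc_or h1 hij h2 with hy | hy
    · have := LinearMap.congr_fun (h.z2 q q.2 i hi j hj hy).1 w
      simp only [End.mul_apply, hw] at this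
      rw [this]
      exact hX i hi _ (hX j hj _ hvS)
    · have := LinearMap.congr_fun (h.z2 q q.2 j hj i hi (by unfold Cyc at hy ⊢; omega)).1 w
      simp only [End.mul_apply, hw] at this
      rw [h.zs, this]
      exact hX j hj _ (hX i hi _ hvS)
  rcases h.irr S hX hZS with h0 | h0
  · exact Or.inl fun q hq => eq_bot_iff.2 (h0 ▸ hle q hq)
  · refine Or.inr ⟨fun q hq => le_antisymm (hE q hq) ?_, fun U hU => ?_⟩
    · rintro _ ⟨w, rfl⟩
      exact hNS q hq (h0 ▸ Submodule.mem_top)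
    · exact eq_top_iff.2 (h0 ▸ iSup_le fun q => hU q q.2)

noncomputable def Yy (X : ℕ → End K V) (Z : ℕ → ℕ → End K V) (q l : ℕ) : End K V :=
  Ring.inverse (X q) * Z q l

theorem surj_on [FiniteDimensional K V] (E : Submodule K V) {T : End K V} (hT : IsUnit T)
    (h : ∀ v ∈ E, T v ∈ E) {w : V} (hw : w ∈ E) : ∃ w' ∈ E, T w' = w := by
  have hi : Function.Injective (T.restrict h) := fun a b hab =>
    Subtype.ext (((End.isUnit_iff T).1 hT).1 (congrArg Subtype.val hab))
  obtain ⟨w', h'⟩ := LinearMap.injective_iff_surjective.1 hi ⟨w, hw⟩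
  exact ⟨w', w'.2, congrArg Subtype.val h'⟩

theorem pres {T S : End K V} (h : Commute T S) {v : V} (hv : v ∈ LinearMap.range S) :
    T v ∈ LinearMap.range S := by
  obtain ⟨w, rfl⟩ := hv
  exact ⟨T w, (LinearMap.congr_fun h.eq w).symm⟩

theorem pow_pres {E : Submodule K V} {T : End K V} (h : ∀ v ∈ E, T v ∈ E) (m : ℕ) :
    ∀ v ∈ E, (T ^ m) v ∈ E := by
  induction m with
  | zero => intro v hv; simpa using hv
  | succ m ih => intro v hv; rw [pow_succ, End.mul_apply]; exact ih _ (h v hv)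

theorem pow_int {E : Submodule K V} {T S P : End K V} (h : ∀ v ∈ E, T v ∈ E)
    (h2 : ∀ v ∈ E, S (P v) = P (T v)) (m : ℕ) : ∀ v ∈ E, (S ^ m) (P v) = P ((T ^ m) v) := by
  induction m with
  | zero => intro v _; simp
  | succ m ih =>
    intro v hv
    rw [pow_succ, pow_succ, End.mul_apply, End.mul_apply, h2 v hv, ih _ (h v hv)]

theorem xy (h : Star k X Z) {q : ℕ} (hq : q < k) (l : ℕ) : X q * Yy X Z q l = Z q l := by
  rw [Yy, ← mul_assoc, Ring.mul_inverse_cancel _ (h.xu q hq), one_mul]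

theorem yu (h : Star k X Z) {q l : ℕ} (hq : q < k) (hl : l < k) (hql : q ≠ l) :
    IsUnit (Yy X Z q l) :=
  (h.xu q hq).ringInverse.mul (h.zu q hq l hl hql)

theorem yx (h : Star k X Z) {q l : ℕ} (hq : q < k) (hl : l < k) (hql : q ≠ l) :
    Commute (Yy X Z q l) (X q) := by
  show _ * _ = _ * _
  rw [xy h hq, Yy, mul_assoc, (h.z1 q hq l hl hql).eq, ← mul_assoc,
    Ring.inverse_mul_cancel _ (h.xu q hq), one_mul]

theorem y_mem (h : Star k X Z) {q l : ℕ} (hq : q < k) (hl : l < k) (hql : q ≠ l) :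
    ∀ v ∈ LinearMap.range (X q - 1), Yy X Z q l v ∈ LinearMap.range (X q - 1) :=
  fun _ hv => pres (comm_N (yx h hq hl hql)) hv

theorem y_int (h : Star k X Z) {a b c : ℕ}
    (ha : a < k) (hb : b < k) (hc : c < k) (hab : a ≠ b) (hbc : b ≠ c) (hac : a ≠ c) :
    ∀ w ∈ LinearMap.range (X c - 1), Yy X Z a b ((X a - 1) w) = (X a - 1) (Yy X Z c b w) := by
  rintro _ ⟨w, rfl⟩
  have e : Yy X Z a b * (X a - 1) * (X c - 1) = (X a - 1) * Yy X Z c b * (X c - 1) := by
    refine (h.xu a ha).mul_left_cancel ((h.xu c hc).mul_right_cancel ?_)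
    have h1 := star_int h ha hb hc hab hbc hac
    rw [← xy h ha b, ← xy h hc b, ← (yx h hc hb hbc.symm).eq] at h1
    calc _ = X a * Yy X Z a b * (X a - 1) * (X c - 1) * X c := by simp only [mul_assoc]
      _ = _ := by rw [h1]; noncomm_ring
  exact LinearMap.congr_fun e w

theorem y_comm (h : Star k X Z) {q i j : ℕ} (hq : q < k) (hi : i < k) (hj : j < k) (h1 : q ≠ i)
    (h2 : q ≠ j) : ∀ w ∈ LinearMap.range (X q - 1),
      Yy X Z q i (Yy X Z q j w) = Yy X Z q j (Yy X Z q i w) := by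
  rintro _ ⟨w, rfl⟩
  by_cases hij : i = j
  · rw [hij]
  have e : Yy X Z q i * Yy X Z q j * (X q - 1) = Yy X Z q j * Yy X Z q i * (X q - 1) := by
    refine ((h.xu q hq).mul (h.xu q hq)).mul_left_cancel ?_
    have h3 := h.y1 q hq i hi j hj h1 h2 hij
    have e1 : ∀ {a b}, a < k → q ≠ a → X q * X q * (Yy X Z q a * Yy X Z q b * (X q - 1)) =
        Z q a * Z q b * (X q - 1) := fun {a b} ha hqa => by
      rw [← xy h hq a, ← xy h hq b, mul_assoc (X q) (Yy X Z q a), ← mul_assoc (Yy X Z q a),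
        (yx h hq ha hqa).eq]
      simp only [mul_assoc]
    rw [e1 hi h1, e1 hj h2]
    rwa [sub_mul, sub_eq_zero] at h3
  exact LinearMap.congr_fun e w

theorem z_comm (h : Star k X Z) {q i j : ℕ} (hq : q < k) (hi : i < k) (hj : j < k) (h1 : q ≠ i)
    (h2 : q ≠ j) : ∀ w ∈ LinearMap.range (X q - 1),
      Yy X Z q i (Z q j w) = Z q j (Yy X Z q i w) := by
  intro w hw
  rw [← xy h hq j, End.mul_apply, End.mul_apply, ← y_comm h hq hi hj h1 h2 w hw]
  exact LinearMap.congr_fun (yx h hq hi h1).eq _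

theorem r3 (h : Star k X Z) {d p q : ℕ} (hd : d < k) (hp : p < k) (hq : q < k) (h1 : d ≠ p)
    (h2 : p ≠ q) (h3 : d ≠ q) :
    (∀ w ∈ LinearMap.range (X q - 1),
      (X d - 1) ((X p - 1) w) = Yy X Z d p ((X d - 1) w) - (X d - 1) w) ∨
    (∀ w ∈ LinearMap.range (X q - 1), (X d - 1) ((X p - 1) (Yy X Z q d w)) =
      Z d p ((X d - 1) w) - X d ((X d - 1) w)) := by
  rcases cyc_or h1 h2 h3 with hy | hy
  · left
    rintro _ ⟨w, rfl⟩
    have e : (X d - 1) * (X p - 1) * (X q - 1) = (Yy X Z d p - 1) * (X d - 1) * (X q - 1) := by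
      refine (h.xu d hd).mul_left_cancel ?_
      rw [star_cyc h hd hp hq hy, ← xy h hd p]
      noncomm_ring
    exact LinearMap.congr_fun e w
  · right
    rintro _ ⟨w, rfl⟩
    have e : (X d - 1) * (X p - 1) * Yy X Z q d * (X q - 1) =
        (Z d p - X d) * (X d - 1) * (X q - 1) := by
      refine (h.xu q hq).mul_right_cancel ?_
      rw [← star_anti h hd hp hq hy, ← xy h hq d, ← (yx h hq hd h3.symm).eq]
      noncomm_ring
    exact LinearMap.congr_fun e w

theorem star_kf [FiniteDimensional K V] (h : Star k X Z) {d q : ℕ} (hd : d < k) (hq : q < k)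
    (hqd : q ≠ d) {v : V} (hv : v ∈ LinearMap.range (X q - 1))
    (h0 : ∀ m : ℕ, (X d - 1) ((Yy X Z q d ^ m) v) = 0) : v = 0 := by
  let E' : ℕ → Submodule K V := fun q =>
    LinearMap.range (X q - 1) ⊓ ⨅ m : ℕ, LinearMap.ker ((X d - 1) * Yy X Z q d ^ m)
  have mem : ∀ q v, v ∈ E' q ↔ v ∈ LinearMap.range (X q - 1) ∧
      ∀ m : ℕ, (X d - 1) ((Yy X Z q d ^ m) v) = 0 := fun q v => by
    simp only [E', Submodule.mem_inf, Submodule.mem_iInf, LinearMap.mem_ker, End.mul_apply]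
  have hY : ∀ q < k, q ≠ d → ∀ l < k, q ≠ l → ∀ v ∈ E' q, Yy X Z q l v ∈ E' q := by
    intro q hq hqd l hl hql v hv
    rw [mem] at hv ⊢
    refine ⟨y_mem h hq hl hql v hv.1, fun m => ?_⟩
    by_cases hld : l = d
    · have := hv.2 (m + 1)
      rw [hld]
      rwa [pow_succ, End.mul_apply] at this
    · rw [pow_int (y_mem h hq hd hqd) (y_comm h hq hd hl hqd hql) m v hv.1,
        ← y_int h hd hl hq (Ne.symm hld) hql.symm hqd.symm _
          (pow_pres (y_mem h hq hd hqd) m v hv.1), hv.2, map_zero]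
  have hZd : ∀ q < k, q ≠ d → ∀ v ∈ E' q, Z q d v ∈ E' q := by
    intro q hq hqd v hv
    rw [mem] at hv ⊢
    refine ⟨pres (comm_N (h.z1 q hq d hd hqd)) hv.1, fun m => ?_⟩
    rw [pow_int (y_mem h hq hd hqd) (z_comm h hq hd hd hqd hqd) m v hv.1, h.zs,
      ← End.mul_apply, ← (comm_N (h.z1 d hd q hq hqd.symm)).eq, End.mul_apply, hv.2, map_zero]
  have hX : ∀ q < k, q ≠ d → ∀ v ∈ E' q, X q v ∈ E' q := by
    intro q hq hqd v hv
    obtain ⟨w, hw, rfl⟩ := surj_on _ (yu h hq hd hqd) (hY q hq hqd d hd hqd) hv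
    rw [← End.mul_apply, xy h hq]
    exact hZd q hq hqd w hw
  have key := star_cf h (fun q => if q = d then ⊥ else E' q) (fun q _ => by
      split_ifs
      · exact bot_le
      · exact inf_le_left)
    (by
      intro p hp q hq v hv
      by_cases hqd : q = d
      · simp only [hqd, if_true, Submodule.mem_bot] at hv
        rw [hv, map_zero]
        exact zero_mem _
      simp only [hqd, if_false] at hv
      by_cases hpd : p = d
      · simp only [hpd, if_true, Submodule.mem_bot]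
        simpa using ((mem q v).1 hv).2 0
      simp only [hpd, if_false]
      by_cases hpq : p = q
      · subst hpq
        exact sub_mem (hX p hp hpd v hv) hv
      rw [mem]
      refine ⟨LinearMap.mem_range_self _ _, fun m => ?_⟩
      rw [pow_int (y_mem h hq hd hqd) (y_int h hp hd hq hpd (Ne.symm hqd) hpq) m v
        ((mem q v).1 hv).1]
      have hw := pow_pres (hY q hq hqd d hd hqd) m v hv
      generalize (Yy X Z q d ^ m) v = w at hw
      have z0 : ∀ w ∈ E' q, (X d - 1) w = 0 := fun w hw => by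
        simpa using ((mem q w).1 hw).2 0
      rcases r3 h hd hp hq (Ne.symm hpd) hpq (Ne.symm hqd) with h3 | h3
      · rw [h3 w ((mem q w).1 hw).1, z0 w hw, map_zero, sub_zero]
      · obtain ⟨w', hw', rfl⟩ := surj_on _ (yu h hq hd hqd) (hY q hq hqd d hd hqd) hw
        rw [h3 w' ((mem q w').1 hw').1, z0 w' hw', map_zero, map_zero, sub_zero])
    (by
      intro q hq l hl hql v hv
      by_cases hqd : q = d
      · simp only [hqd, if_true, Submodule.mem_bot] at hv ⊢
        rw [hv, map_zero]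
      simp only [hqd, if_false] at hv ⊢
      rw [← xy h hq l]
      exact hX q hq hqd _ (hY q hq hqd l hl hql v hv))
  rcases key with h1 | ⟨h1, -⟩
  · have := h1 q hq
    simp only [hqd, if_false] at this
    exact (Submodule.mem_bot K).1 (this ▸ (mem q v).2 ⟨hv, h0⟩)
  · have := h1 d hd
    simp only [if_true] at this
    exact absurd (sub_eq_zero.1 (LinearMap.range_eq_bot.1 this.symm)) (h.n0 d hd)

theorem star_theta [IsAlgClosed K] [FiniteDimensional K V] (hk : 3 ≤ k) (h : Star k X Z) {a : ℕ}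
    (ha : a < k) : ∃ θ : K, ∀ c < k, c ≠ a → ∀ w ∈ LinearMap.range (X c - 1),
      Yy X Z c a w = θ • w := by
  obtain ⟨c0, hc0, hc0a⟩ : ∃ c0 < k, c0 ≠ a := by
    by_cases h0 : a = 0
    · exact ⟨1, by omega, by omega⟩
    · exact ⟨0, by omega, by omega⟩
  have hnt : Nontrivial (LinearMap.range (X c0 - 1)) := by
    rw [Submodule.nontrivial_iff_ne_bot]
    exact fun h0 => h.n0 c0 hc0 (sub_eq_zero.1 (LinearMap.range_eq_bot.1 h0))
  obtain ⟨θ, hθ⟩ := End.exists_eigenvalue ((Yy X Z c0 a).restrict (y_mem h hc0 ha hc0a))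
  obtain ⟨u0, hu0⟩ := hθ.exists_hasEigenvector
  refine ⟨θ, ?_⟩
  let E' : ℕ → Submodule K V := fun c =>
    LinearMap.range (X c - 1) ⊓ LinearMap.ker (Yy X Z c a - θ • (1 : End K V))
  have mem : ∀ c v, v ∈ E' c ↔ v ∈ LinearMap.range (X c - 1) ∧ Yy X Z c a v = θ • v :=
    fun c v => by simp [E', sub_eq_zero]
  have hY : ∀ c < k, c ≠ a → ∀ l < k, c ≠ l → ∀ v ∈ E' c, Yy X Z c l v ∈ E' c := by
    intro c hc hca l hl hcl v hv
    rw [mem] at hv ⊢
    exact ⟨y_mem h hc hl hcl v hv.1, by rw [y_comm h hc ha hl hca hcl v hv.1, hv.2, map_smul]⟩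
  have hX : ∀ c < k, c ≠ a → ∀ v ∈ E' c, X c v ∈ E' c := by
    intro c hc hca v hv
    rw [mem] at hv ⊢
    refine ⟨pres (comm_N (Commute.refl _)) hv.1, ?_⟩
    rw [← End.mul_apply, (yx h hc ha hca).eq, End.mul_apply, hv.2, map_smul]
  have hZ : ∀ c < k, c ≠ a → ∀ l < k, c ≠ l → ∀ v ∈ E' c, Z c l v ∈ E' c := by
    intro c hc hca l hl hcl v hv
    rw [← xy h hc l]
    exact hX c hc hca _ (hY c hc hca l hl hcl v hv)
  have f1 : ∀ b < k, ∀ c < k, b ≠ a → c ≠ a → ∀ v ∈ E' c, (X b - 1) v ∈ E' b := by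
    intro b hb c hc hba hca v hv
    by_cases hbc : b = c
    · subst hbc
      exact sub_mem (hX b hb hba v hv) hv
    rw [mem] at hv ⊢
    exact ⟨LinearMap.mem_range_self _ _, by
      rw [y_int h hb ha hc hba (Ne.symm hca) hbc v hv.1, hv.2, map_smul]⟩
  have f2 : ∀ b < k, ∀ c < k, b ≠ a → c ≠ a → b ≠ c → ∀ u ∈ E' c,
      (X b - 1) ((X a - 1) u) ∈ E' b := by
    intro b hb c hc hba hca hbc u hu
    rcases r3 h hb ha hc hba (Ne.symm hca) hbc with h3 | h3
    · rw [h3 u ((mem c u).1 hu).1]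
      exact sub_mem (hY b hb hba a ha hba _ (f1 b hb c hc hba hca u hu))
        (f1 b hb c hc hba hca u hu)
    · obtain ⟨w, hw, rfl⟩ := surj_on _ (yu h hc hb hbc.symm) (hY c hc hca b hb hbc.symm) hu
      rw [h3 w ((mem c w).1 hw).1]
      exact sub_mem (hZ b hb hba a ha hba _ (f1 b hb c hc hba hca w hw))
        (hX b hb hba _ (f1 b hb c hc hba hca w hw))
  have f3 : ∀ c < k, c ≠ a → ∀ m : ℕ, ∀ u ∈ E' c,
      (X c - 1) ((Yy X Z a c ^ m) ((X a - 1) u)) ∈ E' c := by
    intro c hc hca m u hu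
    obtain ⟨d, hd, hda, hdc⟩ : ∃ d < k, d ≠ a ∧ d ≠ c := by
      by_cases h0 : a = 0 ∨ c = 0
      · by_cases h1 : a = 1 ∨ c = 1
        · exact ⟨2, by omega, by omega, by omega⟩
        · exact ⟨1, by omega, by omega, by omega⟩
      · exact ⟨0, by omega, by omega, by omega⟩
    have ya := y_mem h ha hc (Ne.symm hca)
    have wa : ∀ u, (Yy X Z a c ^ m) ((X a - 1) u) ∈ LinearMap.range (X a - 1) := fun u =>
      pow_pres ya m _ (LinearMap.mem_range_self _ _)
    have g1 : ∀ u ∈ E' c, (X d - 1) ((Yy X Z a c ^ m) ((X a - 1) u)) ∈ E' d := by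
      intro u hu
      rw [← pow_int ya (y_int h hd hc ha hdc hca hda) m _ (LinearMap.mem_range_self _ _)]
      exact pow_pres (hY d hd hda c hc hdc) m _ (f2 d hd c hc hda hca hdc u hu)
    have g2 : ∀ u ∈ LinearMap.range (X c - 1), (Yy X Z a c ^ m) ((X a - 1) (Yy X Z c d u)) =
        Yy X Z a d ((Yy X Z a c ^ m) ((X a - 1) u)) := by
      intro u hu
      rw [← y_int h ha hd hc (Ne.symm hda) hdc (Ne.symm hca) u hu]
      exact pow_int ya (y_comm h ha hc hd (Ne.symm hca) (Ne.symm hda)) m _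
        (LinearMap.mem_range_self _ _)
    have g3 : ∀ u ∈ E' c, (X d - 1) ((X c - 1) ((Yy X Z a c ^ m) ((X a - 1) u))) ∈ E' d := by
      intro u hu
      rcases r3 h hd hc ha hdc hca hda with h3 | h3
      · rw [h3 _ (wa u)]
        exact sub_mem (hY d hd hda c hc hdc _ (g1 u hu)) (g1 u hu)
      · obtain ⟨w, hw, rfl⟩ := surj_on _ (yu h hc hd hdc.symm) (hY c hc hca d hd hdc.symm) hu
        rw [g2 w ((mem c w).1 hw).1, h3 _ (wa w)]
        exact sub_mem (hZ d hd hda c hc hdc _ (g1 w hw)) (hX d hd hda _ (g1 w hw))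
    let P : End K V := (Yy X Z c a - θ • (1 : End K V)) * (X c - 1) * Yy X Z a c ^ m * (X a - 1)
    have hP : ∀ u, P u = Yy X Z c a ((X c - 1) ((Yy X Z a c ^ m) ((X a - 1) u))) -
        θ • (X c - 1) ((Yy X Z a c ^ m) ((X a - 1) u)) := fun u => rfl
    have g4 : ∀ u ∈ E' c, Yy X Z c d (P u) = P (Yy X Z c d u) := by
      intro u hu
      rw [hP, hP, g2 u ((mem c u).1 hu).1, ← y_int h hc hd ha hdc.symm hda hca _ (wa u), map_sub,
        map_smul, y_comm h hc hd ha hdc.symm hca _ (LinearMap.mem_range_self _ _)]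
    rw [mem]
    refine ⟨LinearMap.mem_range_self _ _, sub_eq_zero.1 ?_⟩
    rw [← hP]
    refine star_kf h hd hc hdc.symm ?_ fun j => ?_
    · rw [hP]
      exact sub_mem (y_mem h hc ha hca _ (LinearMap.mem_range_self _ _))
        (Submodule.smul_mem _ _ (LinearMap.mem_range_self _ _))
    · rw [pow_int (hY c hc hca d hd hdc.symm) g4 j u hu]
      have hw := pow_pres (hY c hc hca d hd hdc.symm) j u hu
      generalize (Yy X Z c d ^ j) u = w at hw
      rw [hP, map_sub, map_smul,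
        ← y_int h hd ha hc hda (Ne.symm hca) hdc _ (LinearMap.mem_range_self _ _),
        ((mem d _).1 (g3 w hw)).2, sub_self]
  let Ea : Submodule K V := LinearMap.range (X a - 1) ⊓
    ⨅ c : {c // c < k ∧ c ≠ a}, ⨅ m : ℕ, (E' c).comap ((X c - 1) * Yy X Z a c ^ m)
  have mema : ∀ v, v ∈ Ea ↔ v ∈ LinearMap.range (X a - 1) ∧
      ∀ c < k, c ≠ a → ∀ m : ℕ, (X c - 1) ((Yy X Z a c ^ m) v) ∈ E' c := fun v => by
    simp only [Ea, Submodule.mem_inf, Submodule.mem_iInf, Submodule.mem_comap, End.mul_apply,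
      Subtype.forall, and_imp]
  have aY : ∀ l < k, a ≠ l → ∀ v ∈ Ea, Yy X Z a l v ∈ Ea := by
    intro l hl hal v hv
    rw [mema] at hv ⊢
    refine ⟨y_mem h ha hl hal v hv.1, fun c hc hca m => ?_⟩
    by_cases hlc : l = c
    · have := hv.2 c hc hca (m + 1)
      rw [hlc]
      rwa [pow_succ, End.mul_apply] at this
    · rw [pow_int (y_mem h ha hc (Ne.symm hca)) (y_comm h ha hc hl (Ne.symm hca) hal) m v hv.1,
        ← y_int h hc hl ha (Ne.symm hlc) hal.symm hca _
          (pow_pres (y_mem h ha hc (Ne.symm hca)) m v hv.1)]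
      exact hY c hc hca l hl (Ne.symm hlc) _ (hv.2 c hc hca m)
  have aX : ∀ v ∈ Ea, X a v ∈ Ea := by
    intro v hv
    rw [mema]
    refine ⟨pres (comm_N (Commute.refl _)) ((mema v).1 hv).1, fun c hc hca m => ?_⟩
    obtain ⟨w, hw, rfl⟩ := surj_on _ (yu h ha hc (Ne.symm hca)) (aY c hc (Ne.symm hca)) hv
    rw [mema] at hw
    rw [← End.mul_apply (X a), xy h ha, pow_int (y_mem h ha hc (Ne.symm hca))
      (z_comm h ha hc hc (Ne.symm hca) (Ne.symm hca)) m w hw.1, h.zs,
      ← End.mul_apply, ← (comm_N (h.z1 c hc a ha hca)).eq, End.mul_apply]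
    exact hZ c hc hca a ha hca _ (hw.2 c hc hca m)
  have key := star_cf h (fun q => if q = a then Ea else E' q) (fun q _ => by
      split_ifs with hq
      · rw [hq]
        exact inf_le_left
      · exact inf_le_left)
    (by
      intro p hp q hq v hv
      by_cases hqa : q = a
      · simp only [hqa, if_true] at hv
        by_cases hpa : p = a
        · simp only [hpa, if_true]
          exact sub_mem (aX v hv) hv
        · simp only [hpa, if_false]
          simpa using ((mema v).1 hv).2 p hp hpa 0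
      simp only [hqa, if_false] at hv
      by_cases hpa : p = a
      · simp only [hpa, if_true]
        rw [mema]
        refine ⟨LinearMap.mem_range_self _ _, fun c hc hca m => ?_⟩
        by_cases hcq : c = q
        · subst hcq
          exact f3 c hc hca m v hv
        · rw [pow_int (y_mem h hq hc (Ne.symm hcq))
            (y_int h ha hc hq (Ne.symm hca) hcq (Ne.symm hqa)) m v ((mem q v).1 hv).1]
          exact f2 c hc q hq hca hqa hcq _ (pow_pres (hY q hq hqa c hc (Ne.symm hcq)) m v hv)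
      · simp only [hpa, if_false]
        exact f1 p hp q hq hpa hqa v hv)
    (by
      intro q hq l hl hql v hv
      by_cases hqa : q = a
      · subst hqa
        simp only [if_true] at hv ⊢
        rw [← xy h hq l]
        exact aX _ (aY l hl hql v hv)
      · simp only [hqa, if_false] at hv ⊢
        exact hZ q hq hqa l hl hql v hv)
  rcases key with h1 | ⟨h1, -⟩
  · have h2 := h1 c0 hc0
    simp only [hc0a, if_false] at h2
    have h3 : (u0 : V) ∈ E' c0 := (mem c0 u0).2 ⟨u0.2, congrArg Subtype.val hu0.apply_eq_smul⟩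
    rw [h2] at h3
    exact absurd (Subtype.ext ((Submodule.mem_bot K).1 h3)) hu0.2
  · intro c hc hca w hw
    have h2 := h1 c hc
    simp only [hca, if_false] at h2
    exact ((mem c w).1 (h2 ▸ hw)).2

theorem star_scalar [IsAlgClosed K] [FiniteDimensional K V] (hk : 3 ≤ k) (h : Star k X Z) :
    (∀ q < k, ∀ d < k, q ≠ d → ∀ w, (X d - 1) ((X q - 1) w) = 0 → (X q - 1) w = 0) ∧
    ∃ θ : ℕ → K, ∀ a < k, ∀ c < k, c ≠ a → Z c a * (X c - 1) = θ a • (X c * (X c - 1)) := by
  have hθ : ∀ a, ∃ θ : K, a < k → ∀ c < k, c ≠ a → ∀ w ∈ LinearMap.range (X c - 1),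
      Yy X Z c a w = θ • w := fun a => by
    by_cases ha : a < k
    · exact (star_theta hk h ha).imp fun _ h _ => h
    · exact ⟨0, fun h => absurd h ha⟩
  choose θ hθ using hθ
  refine ⟨fun q hq d hd hqd w hw => ?_, θ, fun a ha c hc hca => ?_⟩
  · refine star_kf h hd hq hqd (LinearMap.mem_range_self _ _) fun m => ?_
    have : ∀ v ∈ LinearMap.range (X q - 1), (θ d • (1 : End K V)) ((X d - 1) v) =
        (X d - 1) (Yy X Z q d v) := fun v hv => by
      rw [hθ d hd q hq hqd v hv, map_smul]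
      rfl
    rw [← pow_int (y_mem h hq hd hqd) this m _ (LinearMap.mem_range_self _ _), hw, map_zero]
  · ext w
    rw [← xy h hc a]
    simp only [End.mul_apply, LinearMap.smul_apply]
    rw [hθ a ha c hc hca _ (LinearMap.mem_range_self _ _), map_smul]

end SB1
end Rowsb1

section Rowsb2
theorem sb2_eig [IsAlgClosed K] [FiniteDimensional K V] (X : End K V) (h : X ≠ 1) :
    ∃ (w : V) (ξ : K), (X - 1) w ≠ 0 ∧ X ((X - 1) w) = ξ • (X - 1) w := by
  have hm : ∀ v ∈ LinearMap.range (X - 1), X v ∈ LinearMap.range (X - 1) := by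
    rintro _ ⟨w, rfl⟩
    exact ⟨X w, by simp⟩
  have hn : Nontrivial (LinearMap.range (X - 1)) := by
    rw [Submodule.nontrivial_iff_ne_bot]
    intro e
    exact h (sub_eq_zero.1 (LinearMap.range_eq_bot.1 e))
  obtain ⟨ξ, hξ⟩ := End.exists_eigenvalue (X.restrict hm)
  obtain ⟨⟨_, w, rfl⟩, hv⟩ := hξ.exists_hasEigenvector
  exact ⟨w, ξ, fun e => hv.2 (Subtype.ext e), congrArg Subtype.val hv.apply_eq_smul⟩

theorem sb2_sw (X : End K V) (w : V) : X ((X - 1) w) = (X - 1) (X w) := by simp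

theorem sb2_add (X : End K V) (w : V) : X w = w + (X - 1) w := by simp

theorem sb2_table [IsAlgClosed K] [FiniteDimensional K V] {k : ℕ} (hk : 3 ≤ k)
    {X : ℕ → End K V} {Z : ℕ → ℕ → End K V} (h : Star k X Z) :
    ∃ (θ : ℕ → K) (μ : K) (w : V), (∀ a < k, θ a ≠ 0) ∧ μ ≠ 0 ∧ (X 1 - 1) ((X 0 - 1) w) ≠ 0 ∧
      (∀ a < k, ∀ c < k, c ≠ a → ∀ y, Z c a ((X c - 1) y) = θ a • X c ((X c - 1) y)) ∧
      X 0 ((X 0 - 1) w) = (μ * θ 0) • (X 0 - 1) w ∧
      (∀ a < k, 0 < a → X a ((X a - 1) ((X 0 - 1) w)) = (μ * θ a) • (X a - 1) ((X 0 - 1) w)) ∧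
      (∀ a b, 0 < a → a < b → b < k → (X a - 1) ((X b - 1) ((X 0 - 1) w)) =
        (θ b - 1) • (X a - 1) ((X 0 - 1) w)) ∧
      (∀ a b, 0 < b → b < a → a < k → (X a - 1) ((X b - 1) ((X 0 - 1) w)) =
        (μ * (θ b - 1)) • (X a - 1) ((X 0 - 1) w)) ∧
      (∀ b < k, 0 < b → (X 0 - 1) ((X b - 1) ((X 0 - 1) w)) =
        (μ * (θ 0 - 1) * (θ b - 1)) • (X 0 - 1) w) := by
  obtain ⟨inj, θ, hθ⟩ := star_scalar hk h
  have xb : ∀ a < k, Function.Bijective (X a) := fun a ha => (End.isUnit_iff _).1 (h.xu a ha)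
  have hZ : ∀ a < k, ∀ c < k, c ≠ a → ∀ y, Z c a ((X c - 1) y) = θ a • X c ((X c - 1) y) :=
    fun a ha c hc hca y => LinearMap.congr_fun (hθ a ha c hc hca) y
  have t0 : ∀ a < k, θ a ≠ 0 := fun a ha e => by
    obtain ⟨c, hc, hca⟩ : ∃ c, c < k ∧ c ≠ a := ⟨if a = 0 then 1 else 0, by split_ifs <;> omega⟩
    refine h.n0 c hc (sub_eq_zero.1 (LinearMap.ext fun y => ?_))
    have h1 := hZ a ha c hc hca y
    rw [e, zero_smul] at h1
    exact ((End.isUnit_iff _).1 (h.zu c hc a ha hca)).1 (h1.trans (map_zero _).symm)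
  have cyc : ∀ a < k, ∀ b < k, ∀ c < k, Cyc a b c → ∀ y,
      (X a - 1) ((X b - 1) ((X c - 1) y)) = (θ b - 1) • (X a - 1) ((X c - 1) y) := by
    intro a ha b hb c hc hy y
    have hab : a ≠ b := by unfold Cyc at hy; omega
    have h1 : X a ((X a - 1) ((X b - 1) ((X c - 1) y))) =
        Z a b ((X a - 1) ((X c - 1) y)) - X a ((X a - 1) ((X c - 1) y)) :=
      LinearMap.congr_fun (star_cyc h ha hb hc hy) y
    apply (xb a ha).1
    rw [h1, hZ b hb a ha hab, map_smul, sub_smul, one_smul]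
  have anti : ∀ a < k, ∀ b < k, ∀ c < k, Cyc c b a → ∀ y,
      θ a • (X a - 1) ((X b - 1) ((X c - 1) y)) = (θ b - 1) • X a ((X a - 1) ((X c - 1) y)) := by
    intro a ha b hb c hc hy y
    have hab : a ≠ b := by unfold Cyc at hy; omega
    have hca : c ≠ a := by unfold Cyc at hy; omega
    obtain ⟨y, rfl⟩ := (xb c hc).2 y
    have h1 : (X a - 1) ((X b - 1) (Z c a ((X c - 1) y))) =
        Z a b ((X a - 1) ((X c - 1) (X c y))) - X a ((X a - 1) ((X c - 1) (X c y))) :=
      LinearMap.congr_fun (star_anti h ha hb hc hy) y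
    rw [hZ a ha c hc hca, hZ b hb a ha hab, map_smul, map_smul, sb2_sw (X c)] at h1
    rw [h1, sub_smul, one_smul]
  obtain ⟨w, ξ, hw, hξ⟩ := sb2_eig (X 0) (h.n0 0 (by omega))
  have k0 : 0 < k := by omega
  have x0 : ξ ≠ 0 := fun e => by
    rw [e, zero_smul] at hξ
    exact hw ((xb 0 k0).1 (hξ.trans (map_zero _).symm))
  have t00 := t0 0 k0
  have eig : ∀ a < k, 0 < a →
      X a ((X a - 1) ((X 0 - 1) w)) = (ξ / θ 0 * θ a) • (X a - 1) ((X 0 - 1) w) := by
    intro a ha a0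
    have h1 := hZ 0 k0 a ha a0.ne' ((X 0 - 1) w)
    have h2 := hZ a ha 0 k0 a0.ne w
    have h3 : Z a 0 ((X a - 1) ((X 0 - 1) w)) = (X a - 1) (Z a 0 ((X 0 - 1) w)) :=
      LinearMap.congr_fun ((h.z1 a ha 0 k0 a0.ne').sub_right (Commute.one_right _)).eq _
    rw [h.zs 0 a, hξ] at h2
    rw [h3, h2, map_smul, map_smul, smul_smul] at h1
    apply smul_right_injective V t00
    simp only
    rw [← h1, smul_smul]
    congr 1
    field_simp
  have up : ∀ a b, 0 < a → a < b → b < k → (X a - 1) ((X b - 1) ((X 0 - 1) w)) =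
      (θ b - 1) • (X a - 1) ((X 0 - 1) w) := fun a b a0 ab hb =>
    cyc a (by omega) b hb 0 k0 (Or.inr (Or.inr ⟨a0, ab⟩)) w
  have dn : ∀ a b, 0 < b → b < a → a < k → (X a - 1) ((X b - 1) ((X 0 - 1) w)) =
      (ξ / θ 0 * (θ b - 1)) • (X a - 1) ((X 0 - 1) w) := by
    intro a b b0 ba ha
    have h1 := anti a ha b (by omega) 0 k0 (Or.inl ⟨b0, ba⟩) w
    apply smul_right_injective V (t0 a ha)
    simp only
    rw [h1, eig a ha (by omega), smul_smul, smul_smul]
    congr 1
    ring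
  refine ⟨θ, ξ / θ 0, w, t0, div_ne_zero x0 t00, fun e => hw (inj 0 k0 1 (by omega) (by omega) w e),
    hZ, by rw [hξ, div_mul_cancel₀ _ t00], eig, up, dn, fun b hb b0 => ?_⟩
  obtain ⟨d, hd, d0, db⟩ : ∃ d, d < k ∧ 0 < d ∧ d ≠ b :=
    ⟨if b = 1 then 2 else 1, by split_ifs <;> omega⟩
  have key : (X d - 1) ((X 0 - 1) ((X b - 1) ((X 0 - 1) w))) =
      (ξ / θ 0 * (θ 0 - 1) * (θ b - 1)) • (X d - 1) ((X 0 - 1) w) := by
    rcases lt_or_gt_of_ne db with h1 | h1
    · have h2 := anti d hd 0 k0 b hb (Or.inr (Or.inl ⟨d0, h1⟩)) ((X 0 - 1) w)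
      apply smul_right_injective V (t0 d hd)
      simp only
      rw [h2, up d b d0 h1 hb, map_smul, eig d hd d0, smul_smul, smul_smul, smul_smul]
      congr 1
      ring
    · rw [cyc d hd 0 k0 b hb (Or.inr (Or.inl ⟨b0, h1⟩)), dn d b b0 h1 hd, smul_smul]
      congr 1
      ring
  have h3 := inj 0 k0 d hd d0.ne
    ((X b - 1) ((X 0 - 1) w) - (ξ / θ 0 * (θ 0 - 1) * (θ b - 1)) • w)
    (by rw [map_sub, map_sub, map_smul, map_smul, key, sub_self])
  rw [map_sub, map_smul] at h3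
  exact sub_eq_zero.1 h3

theorem star_nf [IsAlgClosed K] [FiniteDimensional K V] {k : ℕ} (hk : 3 ≤ k)
    {X : ℕ → End K V} {Z : ℕ → ℕ → End K V} (h : Star k X Z) :
    ∃ (t : ℕ → Kˣ) (μ : Kˣ) (v : ℕ → V),
      Submodule.span K {w | ∃ j < k, w = v j} = ⊤ ∧ NF k X t μ v := by
  classical
  obtain ⟨θ, μ, w, t0, m0, hw, hZ, e0, eig, up, dn, top⟩ := sb2_table hk h
  obtain ⟨t, ht⟩ : ∃ t : ℕ → Kˣ, ∀ a < k, (t a : K) = (θ a)⁻¹ :=
    ⟨fun a => if e : θ a = 0 then 1 else (Units.mk0 (θ a) e)⁻¹, fun a ha => by simp [t0 a ha]⟩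
  have hi : ∀ a < k, (((t a)⁻¹ : Kˣ) : K) = θ a := fun a ha => by
    rw [Units.val_inv_eq_inv_val, ht a ha, inv_inv]
  obtain ⟨v, v0, v1⟩ : ∃ v : ℕ → V, v 0 = (μ * (θ 0 - 1) / θ 0) • (X 0 - 1) w ∧
      ∀ a, 0 < a → v a = (θ a)⁻¹ • (X a - 1) ((X 0 - 1) w) :=
    ⟨fun a => if a = 0 then (μ * (θ 0 - 1) / θ 0) • (X 0 - 1) w
      else (θ a)⁻¹ • (X a - 1) ((X 0 - 1) w), by simp, fun a ha => by simp [ha.ne']⟩
  have t00 := t0 0 (by omega)
  have nf : ∀ a < k, ∀ b < k, (X a - 1) (v b) = gam t (Units.mk0 μ m0) a b • v a := by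
    intro a ha b hb
    have ta := t0 a ha
    have tb := t0 b hb
    unfold gam
    rw [hi a ha, ht b hb, Units.val_mk0]
    rcases lt_trichotomy a b with h1 | h1 | h1
    · rw [if_pos h1, v1 b (by omega), map_smul]
      rcases Nat.eq_zero_or_pos a with a0 | a0
      · subst a0
        rw [top b hb h1, v0, smul_smul, smul_smul]
        congr 1
        field_simp
      · rw [up a b a0 h1 hb, v1 a a0, smul_smul, smul_smul]
        congr 1
        field_simp
    · subst h1
      rw [if_neg (lt_irrefl a), if_pos rfl, sub_smul, one_smul, LinearMap.sub_apply,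
        End.one_apply, sub_left_inj]
      rcases Nat.eq_zero_or_pos a with a0 | a0
      · subst a0
        rw [v0, map_smul, e0, smul_comm]
      · rw [v1 a a0, map_smul, eig a ha a0, smul_comm]
    · rw [if_neg (by omega), if_neg (by omega), v1 a (by omega)]
      rcases Nat.eq_zero_or_pos b with b0 | b0
      · subst b0
        rw [v0, map_smul, smul_smul]
        congr 1
        field_simp
      · rw [v1 b b0, map_smul, dn a b b0 h1 ha, smul_smul, smul_smul]
        congr 1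
        field_simp
  have rg : ∀ q < k, ∃ y, v q = (X q - 1) y := fun q _ => by
    rcases Nat.eq_zero_or_pos q with q0 | q0
    · subst q0
      exact ⟨_, by rw [v0, ← map_smul]⟩
    · exact ⟨_, by rw [v1 q q0, ← map_smul]⟩
  refine ⟨t, Units.mk0 μ m0, v, ?_, fun a ha b hb => by rw [sb2_add (X a) (v b), nf a ha b hb]⟩
  rcases star_cf h (fun q => Submodule.span K {v q})
    (fun q hq => (Submodule.span_singleton_le_iff_mem _ _).2
      ((rg q hq).imp fun _ e => e.symm))
    (fun p hp q hq y hy => by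
      obtain ⟨c, rfl⟩ := Submodule.mem_span_singleton.1 hy
      rw [map_smul, nf p hp q hq]
      exact Submodule.smul_mem _ _ (Submodule.smul_mem _ _ (Submodule.mem_span_singleton_self _)))
    (fun q hq l hl hql y hy => by
      obtain ⟨c, rfl⟩ := Submodule.mem_span_singleton.1 hy
      obtain ⟨y, hy⟩ := rg q hq
      have h1 := hZ l hl q hq hql y
      rw [← hy] at h1
      rw [map_smul, h1, sb2_add (X q) (v q), nf q hq q hq]
      exact Submodule.smul_mem _ _ (Submodule.smul_mem _ _ (Submodule.add_mem _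
        (Submodule.mem_span_singleton_self _)
        (Submodule.smul_mem _ _ (Submodule.mem_span_singleton_self _))))) with h1 | h1
  · have h2 := Submodule.span_singleton_eq_bot.1 (h1 1 (by omega))
    rw [v1 1 one_pos] at h2
    exact absurd ((smul_eq_zero.1 h2).resolve_left (inv_ne_zero (t0 1 (by omega)))) hw
  · exact h1.2 _ fun q hq => (Submodule.span_singleton_le_iff_mem _ _).2
      (Submodule.subset_span ⟨q, hq, rfl⟩)
end Rowsb2

section Rowsb3
theorem SB3_lt (t : ℕ → Kˣ) (μ : Kˣ) {a b : ℕ} (h : a < b) :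
    gam t μ a b = (t a : K)⁻¹ * (1 - (t b : K)) := by
  rw [gam, if_pos h, Units.val_inv_eq_inv_val]

theorem SB3_eq (t : ℕ → Kˣ) (μ : Kˣ) (a : ℕ) :
    gam t μ a a = (μ : K) * (t a : K)⁻¹ - 1 := by
  rw [gam, if_neg (lt_irrefl a), if_pos rfl, Units.val_inv_eq_inv_val]

theorem SB3_gt (t : ℕ → Kˣ) (μ : Kˣ) {a b : ℕ} (h : b < a) :
    gam t μ a b = (μ : K) * (t a : K)⁻¹ * (1 - (t b : K)) := by
  rw [gam, if_neg (by omega), if_neg (by omega), Units.val_inv_eq_inv_val]

/-- off the block `{i, i+1}` the entries of `gam` have a common factor -/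
theorem SB3_off (μ : Kˣ) {i b : ℕ} (h1 : b ≠ i) (h2 : b ≠ i + 1) : ∃ c : K, ∀ t : ℕ → Kˣ,
    (gam t μ i b = c * (t i : K)⁻¹ * (1 - (t b : K)) ∧
      gam t μ (i + 1) b = c * (t (i + 1) : K)⁻¹ * (1 - (t b : K))) := by
  rcases Nat.lt_or_ge b i with h | h
  · exact ⟨μ, fun t => ⟨SB3_gt t μ h, SB3_gt t μ (by omega)⟩⟩
  · exact ⟨1, fun t => ⟨by rw [SB3_lt t μ (by omega), one_mul],
      by rw [SB3_lt t μ (by omega), one_mul]⟩⟩

theorem SB3_off' (μ : Kˣ) {i a : ℕ} (h1 : a ≠ i) (h2 : a ≠ i + 1) : ∃ c : K, ∀ t : ℕ → Kˣ,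
    (gam t μ a i = c * (t a : K)⁻¹ * (1 - (t i : K)) ∧
      gam t μ a (i + 1) = c * (t a : K)⁻¹ * (1 - (t (i + 1) : K))) := by
  rcases Nat.lt_or_ge a i with h | h
  · exact ⟨1, fun t => ⟨by rw [SB3_lt t μ (by omega), one_mul],
      by rw [SB3_lt t μ (by omega), one_mul]⟩⟩
  · exact ⟨μ, fun t => ⟨SB3_gt t μ (by omega), SB3_gt t μ (by omega)⟩⟩

theorem SB3_step {k i : ℕ} (hi : i + 1 < k) {X X' : ℕ → End K V} {t t' : ℕ → Kˣ} {μ : Kˣ}
    {v v' : ℕ → V} (x1 : X' (i + 1) = X i) (x0 : X' i * X i = X i * X (i + 1))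
    (xo : ∀ a < k, a ≠ i → a ≠ i + 1 → X' a = X a) (inj : Function.Injective (X i))
    (t0 : t' i = t (i + 1)) (t1 : t' (i + 1) = t i) (tz : ∀ a, a ≠ i → a ≠ i + 1 → t' a = t a)
    (v0 : v' i = (1 - (t (i + 1) : K)) • v i + (t i : K) • v (i + 1)) (v1 : v' (i + 1) = v i)
    (vo : ∀ a, a ≠ i → a ≠ i + 1 → v' a = v a) : NF k X t μ v ↔ NF k X' t' μ v' := by
  have hT : (t i : K) ≠ 0 := Units.ne_zero _
  have hS : (t (i + 1) : K) ≠ 0 := Units.ne_zero _
  have hμ : (μ : K) ≠ 0 := Units.ne_zero _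
  have hi0 : i < k := by omega
  have x0' : ∀ w, X' i (X i w) = X i (X (i + 1) w) := fun w => congrArg (fun f : End K V => f w) x0
  have go : ∀ a b, a ≠ i → a ≠ i + 1 → b ≠ i → b ≠ i + 1 → gam t' μ a b = gam t μ a b := by
    intro a b h1 h2 h3 h4
    simp only [gam, tz a h1 h2, tz b h3 h4]
  constructor
  · intro h a ha b hb
    have p00 := h i hi0 i hi0
    have p01 := h i hi0 (i + 1) hi
    have p10 := h (i + 1) hi i hi0
    have p11 := h (i + 1) hi (i + 1) hi
    rw [SB3_eq] at p00 p11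
    rw [SB3_lt _ _ (Nat.lt_succ_self i)] at p01
    rw [SB3_gt _ _ (Nat.lt_succ_self i)] at p10
    by_cases a0 : a = i
    · subst a0
      by_cases b0 : b = a
      · subst b0
        have e : v' b = X b ((t b : K) • v (b + 1)) := by
          rw [map_smul, p01, v0]; match_scalars <;> field_simp
        rw [SB3_eq, t0]
        conv_lhs => rw [e, x0']
        simp only [map_smul, map_add, p11, p01, v0]
        match_scalars <;> field_simp <;> ring
      · by_cases b1 : b = a + 1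
        · subst b1
          have e : v' (a + 1) = X a (((μ : K)⁻¹ * (t a : K)) • v a) := by
            rw [map_smul, p00, v1]; match_scalars; field_simp; ring
          rw [SB3_lt _ _ (Nat.lt_succ_self a), t0, t1]
          conv_lhs => rw [e, x0']
          simp only [map_smul, map_add, p10, p00, p01, v0, v1]
          match_scalars <;> field_simp <;> ring
        · obtain ⟨c, hc⟩ := SB3_off μ b0 b1
          have q0 := h a hi0 b hb
          have q1 := h (a + 1) hi b hb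
          rw [(hc t).1] at q0
          rw [(hc t).2] at q1
          have e : v' b = X a (v b - (c * (μ : K)⁻¹ * (1 - (t b : K))) • v a) := by
            rw [map_sub, map_smul, p00, q0, vo b b0 b1]; match_scalars <;> field_simp <;> ring
          rw [(hc t').1, t0, tz b b0 b1]
          conv_lhs => rw [e, x0']
          simp only [map_smul, map_add, map_sub, p10, p00, p01, q0, q1, v0, vo b b0 b1]
          match_scalars <;> field_simp <;> ring
    · by_cases a1 : a = i + 1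
      · subst a1
        rw [x1, v1]
        by_cases b0 : b = i
        · subst b0
          rw [SB3_gt _ _ (Nat.lt_succ_self b), t0, t1, v0]
          simp only [map_smul, map_add, p00, p01]
          match_scalars <;> field_simp <;> ring
        · by_cases b1 : b = i + 1
          · subst b1
            rw [SB3_eq, t1, v1, p00]
          · obtain ⟨c, hc⟩ := SB3_off μ b0 b1
            rw [(hc t').2, t1, tz b b0 b1, vo b b0 b1, h i hi0 b hb, (hc t).1]
      · obtain ⟨c, hc⟩ := SB3_off' μ a0 a1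
        rw [xo a ha a0 a1, vo a a0 a1]
        by_cases b0 : b = i
        · subst b0
          rw [(hc t').1, t0, tz a a0 a1, v0]
          simp only [map_smul, map_add, h a ha b hb, h a ha (b + 1) hi, (hc t).1, (hc t).2]
          match_scalars <;> ring
        · by_cases b1 : b = i + 1
          · subst b1
            rw [(hc t').2, t1, tz a a0 a1, v1, h a ha i hi0, (hc t).1]
          · rw [go a b a0 a1 b0 b1, vo b b0 b1, h a ha b hb]
  · intro h
    have p00 := h i hi0 i hi0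
    have p01 := h i hi0 (i + 1) hi
    have p10 := h (i + 1) hi i hi0
    have p11 := h (i + 1) hi (i + 1) hi
    rw [SB3_eq, t0] at p00
    rw [SB3_eq, t1, x1] at p11
    rw [SB3_lt _ _ (Nat.lt_succ_self i), t0, t1] at p01
    rw [SB3_gt _ _ (Nat.lt_succ_self i), t0, t1, x1] at p10
    have w0 : v i = v' (i + 1) := v1.symm
    have w1 : v (i + 1) = (t i : K)⁻¹ • (v' i - (1 - (t (i + 1) : K)) • v' (i + 1)) := by
      rw [v0, v1]; match_scalars <;> field_simp <;> ring
    intro a ha b hb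
    by_cases a0 : a = i
    · subst a0
      by_cases b0 : b = a
      · subst b0
        rw [SB3_eq, w0, p11]
      · by_cases b1 : b = a + 1
        · subst b1
          rw [SB3_lt _ _ (Nat.lt_succ_self a), w1, w0]
          simp only [map_smul, map_sub, p10, p11]
          match_scalars <;> field_simp <;> ring
        · obtain ⟨c, hc⟩ := SB3_off μ b0 b1
          have q1 := h (a + 1) hi b hb
          rw [(hc t').2, t1, tz b b0 b1, x1, vo b b0 b1] at q1
          rw [(hc t).1, w0, q1]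
    · by_cases a1 : a = i + 1
      · subst a1
        apply inj
        rw [← x0']
        by_cases b0 : b = i
        · subst b0
          rw [SB3_gt _ _ (Nat.lt_succ_self b), w1, w0]
          simp only [map_smul, map_add, map_sub, p00, p01, p10, p11]
          match_scalars <;> field_simp <;> ring
        · by_cases b1 : b = i + 1
          · subst b1
            rw [SB3_eq, w1]
            simp only [map_smul, map_add, map_sub, p00, p01, p10, p11]
            match_scalars <;> field_simp <;> ring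
          · obtain ⟨c, hc⟩ := SB3_off μ b0 b1
            have q0 := h i hi0 b hb
            have q1 := h (i + 1) hi b hb
            rw [(hc t').1, t0, tz b b0 b1, vo b b0 b1] at q0
            rw [(hc t').2, t1, tz b b0 b1, x1, vo b b0 b1] at q1
            rw [(hc t).2, w1]
            simp only [map_smul, map_add, map_sub, p00, p01, p10, p11, q0, q1]
            match_scalars <;> field_simp <;> ring
      · obtain ⟨c, hc⟩ := SB3_off' μ a0 a1
        have q0 := h a ha i hi0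
        have q1 := h a ha (i + 1) hi
        rw [(hc t').1, t0, tz a a0 a1, xo a ha a0 a1, vo a a0 a1] at q0
        rw [(hc t').2, t1, tz a a0 a1, xo a ha a0 a1, vo a a0 a1] at q1
        by_cases b0 : b = i
        · subst b0
          rw [(hc t).1, w0, q1]
        · by_cases b1 : b = i + 1
          · subst b1
            rw [(hc t).2, w1]
            simp only [map_smul, map_sub, q0, q1]
            match_scalars <;> field_simp <;> ring
          · have q := h a ha b hb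
            rw [go a b a0 a1 b0 b1, vo b b0 b1, vo a a0 a1, xo a ha a0 a1] at q
            exact q

theorem SB3_gen {M : ℕ} (hM : M ≤ N) {R : BraidGroup N → End K V}
    {lam : BraidGroup N → K} (h : Good M R lam) (μ : Kˣ) (p : (ℕ → Kˣ) × (ℕ → V))
    {g : BraidGroup N} (hg : g ∈ Bs N (M - 1)) {i : ℕ} (hi : i + 1 < M - 1) :
    NF (M - 1) (Xg (M - 1) R lam g) (act K V N g p).1 μ (act K V N g p).2 ↔
      NF (M - 1) (Xg (M - 1) R lam (sg N i * g)) (act K V N (sg N i * g) p).1 μ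
        (act K V N (sg N i * g) p).2 := by
  have hk : M - 1 < N := by omega
  have hgM : g⁻¹ ∈ Bs N M := (Bs N M).inv_mem (Bs_mono (Nat.sub_le M 1) hg)
  have hx : ∀ a < M - 1, g⁻¹ * A N a (M - 1) * g ∈ Ps N M := fun a ha => by
    have := conj_mem_Ps hgM (A_mem ha (by omega : M - 1 < M) hM)
    rwa [inv_inv] at this
  have hact : act K V N (sg N i * g) p = step K V i (act K V N g p) := by
    rw [map_mul, Equiv.Perm.mul_apply, act, braidLift_sg _ _ _ (by omega)]
  rw [hact]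
  have hx0 := hx i (by omega)
  have hx1 := hx (i + 1) hi
  have e1 : (sg N i * g)⁻¹ * A N (i + 1) (M - 1) * (sg N i * g) = g⁻¹ * A N i (M - 1) * g := by
    rw [← A_lower hi hk]; group
  have e0 : (sg N i * g)⁻¹ * A N i (M - 1) * (sg N i * g) = (g⁻¹ * A N i (M - 1) * g) *
      (g⁻¹ * A N (i + 1) (M - 1) * g) * (g⁻¹ * A N i (M - 1) * g)⁻¹ := by
    calc _ = g⁻¹ * ((sg N i)⁻¹ * A N i (M - 1) * sg N i) * g := by group
      _ = _ := by rw [A_hur hi hk]; group
  refine SB3_step hi ?_ ?_ ?_ ?_ ?_ ?_ ?_ ?_ ?_ ?_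
  · simp only [Xg, e1]
  · simp only [Xg, e0]
    generalize g⁻¹ * A N i (M - 1) * g = x at hx0
    generalize g⁻¹ * A N (i + 1) (M - 1) * g = y at hx1
    have hc : x * y * x⁻¹ ∈ Ps N M :=
      (Ps N M).mul_mem ((Ps N M).mul_mem hx0 hx1) ((Ps N M).inv_mem hx0)
    rw [h.lamc x hx0 y hx1, smul_mul_smul_comm, smul_mul_smul_comm, ← h.rep.2 _ hc _ hx0,
      ← h.rep.2 _ hx0 _ hx1, inv_mul_cancel_right, mul_comm (lam y)⁻¹]
  · intro a ha a0 a1
    have hc := (A_comm (m := i) ha hk (by omega)).eq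
    have e : (sg N i * g)⁻¹ * A N a (M - 1) * (sg N i * g) = g⁻¹ * A N a (M - 1) * g := by
      calc _ = g⁻¹ * ((sg N i)⁻¹ * (A N a (M - 1) * sg N i)) * g := by group
        _ = _ := by rw [← hc]; group
    simp only [Xg, e]
  · simp only [Xg]
    generalize g⁻¹ * A N i (M - 1) * g = x at hx0
    have e : R x⁻¹ * R x = 1 := by
      rw [← h.rep.2 _ ((Ps N M).inv_mem hx0) _ hx0, inv_mul_cancel, h.rep.1]
    refine Function.LeftInverse.injective (g := fun w => lam x • R x⁻¹ w) fun w => ?_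
    have e' : R x⁻¹ (R x w) = w := congrArg (fun f : End K V => f w) e
    simp only [LinearMap.smul_apply, map_smul, e', smul_smul, mul_inv_cancel₀ (h.lam0 x), one_smul]
  · rw [step_fst, Function.comp_apply, Equiv.swap_apply_left]
  · rw [step_fst, Function.comp_apply, Equiv.swap_apply_right]
  · intro a a0 a1
    rw [step_fst, Function.comp_apply, Equiv.swap_apply_of_ne_of_ne a0 a1]
  · rw [step_snd, if_pos rfl]
  · rw [step_snd, if_neg (by omega), if_pos rfl]
  · intro a a0 a1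
    rw [step_snd, if_neg a0, if_neg a1]

theorem nf_act {M : ℕ} (h1 : 1 ≤ M) (hM : M ≤ N) {R : BraidGroup N → End K V}
    {lam : BraidGroup N → K} (h : Good M R lam) {t : ℕ → Kˣ} {μ : Kˣ} {v : ℕ → V}
    (hv : NF (M - 1) (Xg (M - 1) R lam 1) t μ v) {g : BraidGroup N} (hg : g ∈ Bs N (M - 1)) :
    NF (M - 1) (Xg (M - 1) R lam g) (act K V N g (t, v)).1 μ (act K V N g (t, v)).2 := by
  induction hg using Subgroup.closure_induction_left with
  | one => rw [map_one]; exact hv
  | mul_left x hx y hy ih =>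
    obtain ⟨i, hi, rfl⟩ := hx
    exact (SB3_gen hM h μ (t, v) hy hi).1 ih
  | inv_mul_cancel x hx y hy ih =>
    obtain ⟨i, hi, rfl⟩ := hx
    have hy' : (sg N i)⁻¹ * y ∈ Bs N (M - 1) :=
      (Bs N (M - 1)).mul_mem ((Bs N (M - 1)).inv_mem (sg_mem hi)) hy
    refine (SB3_gen hM h μ (t, v) hy' hi).2 ?_
    rwa [mul_inv_cancel_left]
end Rowsb3

section Rownat
theorem nat_ind {n : ℕ} {P : BraidGroup n → Prop} (h1 : P 1)
    (hs : ∀ i, i + 1 < n → P (sg n i)) (hm : ∀ a b, P a → P b → P (a * b))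
    (hi : ∀ a, P a → P a⁻¹) (β : BraidGroup n) : P β := by
  have hβ : β ∈ Bs n n := Bs_top (N := n) ▸ Subgroup.mem_top β
  induction hβ using Subgroup.closure_induction with
  | mem x hx =>
    obtain ⟨i, hi, rfl⟩ := hx
    exact hs i hi
  | one => exact h1
  | mul a b _ _ ha hb => exact hm a b ha hb
  | inv a _ ha => exact hi a ha

theorem act_sg {n i : ℕ} {S W : Type*} [CommRing S] [AddCommGroup W] [Module S W]
    (h : i + 1 < n) : act S W n (sg n i) = step S W i := braidLift_sg _ _ _ h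

theorem act_fst {n : ℕ} {S W : Type*} [CommRing S] [AddCommGroup W] [Module S W]
    (β : BraidGroup n) : ∀ p : (ℕ → Sˣ) × (ℕ → W),
      (act S W n β p).1 ∘ permHom n β = p.1 := by
  refine nat_ind (P := fun β => ∀ p : (ℕ → Sˣ) × (ℕ → W),
    (act S W n β p).1 ∘ permHom n β = p.1) ?_ ?_ ?_ ?_ β
  · intro p
    simp
  · intro i hi p
    rw [act_sg hi, perm_sg hi, step_fst]
    funext j
    simp
  · intro a b ha hb p
    rw [map_mul, map_mul, Equiv.Perm.mul_apply, Equiv.Perm.coe_mul, ← Function.comp_assoc, ha, hb]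
  · intro a ha p
    have := ha (act S W n a⁻¹ p)
    rw [← Equiv.Perm.mul_apply, ← map_mul, mul_inv_cancel, map_one, Equiv.Perm.one_apply] at this
    rw [← this]
    funext j
    simp

theorem act_fst_pure {n : ℕ} {S W : Type*} [CommRing S] [AddCommGroup W] [Module S W]
    {β : BraidGroup n} (hβ : β ∈ PureBraid n) (p : (ℕ → Sˣ) × (ℕ → W)) :
    (act S W n β p).1 = p.1 := by
  have h : permHom n β = 1 := hβ
  have := act_fst β p
  rwa [h] at this

theorem act_map {n : ℕ} {S W S' W' : Type*} [CommRing S] [AddCommGroup W] [Module S W]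
    [CommRing S'] [AddCommGroup W'] [Module S' W'] (φ : S →+* S') (l : W →+ W')
    (hl : ∀ (c : S) (w : W), l (c • w) = φ c • l w) (β : BraidGroup n) :
    ∀ p : (ℕ → Sˣ) × (ℕ → W),
      act S' W' n β (fun i => Units.map φ.toMonoidHom (p.1 i), fun j => l (p.2 j)) =
        (fun i => Units.map φ.toMonoidHom ((act S W n β p).1 i),
          fun j => l ((act S W n β p).2 j)) := by
  refine nat_ind (P := fun β => ∀ p : (ℕ → Sˣ) × (ℕ → W),
      act S' W' n β (fun i => Units.map φ.toMonoidHom (p.1 i), fun j => l (p.2 j)) =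
        (fun i => Units.map φ.toMonoidHom ((act S W n β p).1 i),
          fun j => l ((act S W n β p).2 j))) ?_ ?_ ?_ ?_ β
  · intro p
    simp
  · intro i hi p
    rw [act_sg hi, act_sg hi]
    refine Prod.ext rfl (funext fun j => ?_)
    simp only [step_snd]
    split_ifs
    · simp [hl]
    · rfl
    · rfl
  · intro a b ha hb p
    rw [map_mul, map_mul, Equiv.Perm.mul_apply, Equiv.Perm.mul_apply, hb, ha]
  · intro a ha p
    have := ha (act S W n a⁻¹ p)
    rw [← Equiv.Perm.mul_apply, ← map_mul, mul_inv_cancel, map_one, Equiv.Perm.one_apply] at this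
    rw [← this, ← Equiv.Perm.mul_apply, ← map_mul, inv_mul_cancel, map_one, Equiv.Perm.one_apply]

theorem act_lin {n : ℕ} {S W W' : Type*} [CommRing S] [AddCommGroup W] [Module S W]
    [AddCommGroup W'] [Module S W'] (l : W →ₗ[S] W') (β : BraidGroup n) (t : ℕ → Sˣ)
    (v : ℕ → W) :
    (act S W' n β (t, fun j => l (v j))).2 = fun j => l ((act S W n β (t, v)).2 j) :=
  congrArg Prod.snd (act_map (RingHom.id S) l.toAddMonoidHom (fun c w => l.map_smul c w) β (t, v))

theorem exists_spec {S : Type*} [CommRing S] (t : ℕ → Sˣ) :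
    ∃ φ : Laurent →+* S, ∀ i, Units.map φ.toMonoidHom (var i) = t i := by
  let f : Multiplicative (ℕ →₀ ℤ) →* Sˣ := AddMonoidHom.toMultiplicativeLeft
    (Finsupp.liftAddHom fun i => zmultiplesHom (Additive Sˣ) (Additive.ofMul (t i)))
  refine ⟨(AddMonoidAlgebra.lift ℤ S (ℕ →₀ ℤ) ((Units.coeHom S).comp f)).toRingHom, fun i => ?_⟩
  ext
  simp [var, f]

theorem act_triv {n : ℕ} {β : BraidGroup n} (hβ : β ∈ PureBraid n)
    (h : ∀ v : ℕ → Laurent, (act Laurent Laurent n β (var, v)).2 = v)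
    (t : ℕ → Kˣ) (v : ℕ → V) : act K V n β (t, v) = (t, v) := by
  obtain ⟨φ, hφ⟩ := exists_spec t
  let e : ℕ → ℕ →₀ Laurent := fun l => Finsupp.single l 1
  have h1 : act Laurent (ℕ →₀ Laurent) n β (var, e) = (var, e) := by
    refine Prod.ext (act_fst_pure hβ _) (funext fun j => Finsupp.ext fun c => ?_)
    have := act_lin (Finsupp.lapply (R := Laurent) (M := Laurent) c) β var e
    rw [h] at this
    exact (congrFun this j).symm
  let l : (ℕ →₀ Laurent) →+ V := Finsupp.liftAddHom fun i =>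
    ((smulAddHom K V).flip (v i)).comp φ.toAddMonoidHom
  have hs : ∀ i a, l (Finsupp.single i a) = φ a • v i := fun i a =>
    Finsupp.liftAddHom_apply_single _ i a
  have hl : ∀ (c : Laurent) (w : ℕ →₀ Laurent), l (c • w) = φ c • l w := by
    intro c w
    induction w using Finsupp.induction_linear with
    | zero => simp
    | add a b ha hb => rw [smul_add, map_add, map_add, ha, hb, smul_add]
    | single i a =>
      rw [Finsupp.smul_single, smul_eq_mul, hs, hs, map_mul, mul_smul]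
  have h2 := act_map φ l hl β (var, e)
  rw [h1] at h2
  have h3 : (fun j => l (e j)) = v := funext fun j => by simp [l, e]
  simpa only [hφ, h3] using h2

theorem iota_nat {m : ℕ} (hm : m ≤ N) (ι : BraidGroup m →* BraidGroup N)
    (hι : ∀ i, i + 1 < m → ι (sg m i) = sg N i) (κ : BraidGroup m) :
    permHom N (ι κ) = permHom m κ ∧ act K V N (ι κ) = act K V m κ := by
  constructor
  · refine DFunLike.congr_fun (hom_ext_sg (f := (permHom N).comp ι) (g := permHom m) ?_) κ
    intro i hi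
    rw [MonoidHom.comp_apply, hι i hi, perm_sg hi, perm_sg (by omega)]
  · refine DFunLike.congr_fun (hom_ext_sg (f := (act K V N).comp ι) (g := act K V m) ?_) κ
    intro i hi
    rw [MonoidHom.comp_apply, hι i hi, act_sg hi, act_sg (by omega)]
end Rownat

section Rowub
section UB
variable {S : Type*} [Field S] {n : ℕ}

theorem ub_inv {P : (ℕ → Sˣ) × (ℕ → S) → Prop}
    (h : ∀ i, i + 1 < n → ∀ p, P (step S S i p) ↔ P p) (β : BraidGroup n) :
    ∀ p, P (act S S n β p) ↔ P p := by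
  refine nat_ind (P := fun β => ∀ p, P (act S S n β p) ↔ P p) ?_ ?_ ?_ ?_ β
  · intro p
    simp
  · intro i hi p
    rw [act_sg hi]
    exact h i hi p
  · intro a b ha hb p
    rw [map_mul, Equiv.Perm.mul_apply, ha, hb]
  · intro a ha p
    have := ha (act S S n a⁻¹ p)
    rw [← Equiv.Perm.mul_apply, ← map_mul, mul_inv_cancel, map_one, Equiv.Perm.one_apply] at this
    exact this.symm

theorem ub_hi (β : BraidGroup n) (p : (ℕ → Sˣ) × (ℕ → S)) {j : ℕ} (hj : n ≤ j) :
    (act S S n β p).2 j = p.2 j := by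
  refine (ub_inv (P := fun q => q.2 j = p.2 j) (fun i hi q => ?_) β p).2 rfl
  rw [step_snd, if_neg (by omega), if_neg (by omega)]

theorem ub_lo (β : BraidGroup n) (p : (ℕ → Sˣ) × (ℕ → S)) (c : S)
    (hp : ∀ j < n, p.2 j = c * (1 - p.1 j)) :
    ∀ j < n, (act S S n β p).2 j = c * (1 - (act S S n β p).1 j) := by
  refine (ub_inv (P := fun q => ∀ j < n, q.2 j = c * (1 - (q.1 j : S))) (fun i hi q => ?_) β p).2 hp
  have e : ∀ j, j ≠ i → j ≠ i + 1 → ((step S S i q).2 j = c * (1 - (step S S i q).1 j) ↔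
      q.2 j = c * (1 - q.1 j)) := fun j h1 h2 => by
    rw [step_snd, if_neg h1, if_neg h2, step_fst, Function.comp_apply,
      Equiv.swap_apply_of_ne_of_ne h1 h2]
  have e1 : (step S S i q).2 (i + 1) = c * (1 - (step S S i q).1 (i + 1)) ↔
      q.2 i = c * (1 - q.1 i) := by
    rw [step_snd, if_neg (by omega), if_pos rfl, step_fst, Function.comp_apply,
      Equiv.swap_apply_right]
  have e2 : (step S S i q).2 i = c * (1 - (step S S i q).1 i) ↔
      (1 - (q.1 (i + 1) : S)) * q.2 i + q.1 i * q.2 (i + 1) = c * (1 - q.1 (i + 1)) := by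
    rw [step_snd, if_pos rfl, step_fst, Function.comp_apply, Equiv.swap_apply_left]
    rfl
  constructor
  · intro h j hj
    have a1 := e1.1 (h _ hi)
    have a2 := e2.1 (h i (by omega))
    by_cases h1 : j = i
    · rw [h1, a1]
    by_cases h2 : j = i + 1
    · rw [h2]
      refine mul_left_cancel₀ (q.1 i).ne_zero ?_
      rw [a1] at a2
      linear_combination a2
    · exact (e j h1 h2).1 (h j hj)
  · intro h j hj
    by_cases h1 : j = i
    · rw [h1, e2, h i (by omega), h _ hi]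
      ring
    by_cases h2 : j = i + 1
    · rw [h2, e1]
      exact h i (by omega)
    · exact (e j h1 h2).2 (h j hj)

def ubForm (n : ℕ) (p : (ℕ → Sˣ) × (ℕ → S)) : S :=
  ∑ j ∈ Finset.range n, (∏ l ∈ Finset.range j, (p.1 l : S)) * p.2 j

theorem ub_form_step (i : ℕ) (p : (ℕ → Sˣ) × (ℕ → S)) (m : ℕ) :
    ubForm (i + 2 + m) (step S S i p) = ubForm (i + 2 + m) p ∧
      ∏ l ∈ Finset.range (i + 2 + m), ((step S S i p).1 l : S) =
        ∏ l ∈ Finset.range (i + 2 + m), (p.1 l : S) := by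
  have h1 : ∀ j ≤ i, ∏ l ∈ Finset.range j, ((step S S i p).1 l : S) =
      ∏ l ∈ Finset.range j, (p.1 l : S) := fun j hj => Finset.prod_congr rfl fun l hl => by
    have := Finset.mem_range.1 hl
    rw [step_fst, Function.comp_apply, Equiv.swap_apply_of_ne_of_ne (by omega) (by omega)]
  have h2 : (step S S i p).1 i = p.1 (i + 1) := by simp [step_fst]
  have h3 : (step S S i p).1 (i + 1) = p.1 i := by simp [step_fst]
  induction m with
  | zero =>
    have h4 : ubForm i (step S S i p) = ubForm i p := Finset.sum_congr rfl fun j hj => by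
      have := Finset.mem_range.1 hj
      rw [h1 j this.le, step_snd, if_neg (by omega), if_neg (by omega)]
    unfold ubForm at h4 ⊢
    simp only [add_zero, Finset.sum_range_succ, Finset.prod_range_succ, h4, h1 i le_rfl, h2, h3]
    rw [step_snd, step_snd, if_pos rfl, if_neg (by omega), if_pos rfl, smul_eq_mul, smul_eq_mul]
    constructor <;> ring
  | succ m ih =>
    unfold ubForm at ih ⊢
    rw [← add_assoc, Finset.sum_range_succ, Finset.sum_range_succ, Finset.prod_range_succ,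
      Finset.prod_range_succ, ih.1, ih.2, step_snd, if_neg (by omega), if_neg (by omega), step_fst,
      Function.comp_apply, Equiv.swap_apply_of_ne_of_ne (by omega) (by omega)]
    exact ⟨rfl, rfl⟩

theorem ub_form (β : BraidGroup n) (p : (ℕ → Sˣ) × (ℕ → S)) :
    ubForm n (act S S n β p) = ubForm n p := by
  refine (ub_inv (P := fun q => ubForm n q = ubForm n p) (fun i hi q => ?_) β p).2 rfl
  obtain ⟨m, rfl⟩ : ∃ m, n = i + 2 + m := ⟨n - (i + 2), by omega⟩
  rw [(ub_form_step i q m).1]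

def ubHom (n : ℕ) (t : ℕ → Sˣ) : PureBraid n →* End S (ℕ → S) where
  toFun β :=
    { toFun := fun v => (act S S n β (t, v)).2
      map_add' := fun v w => by
        have h1 := act_lin (LinearMap.fst S S S) β.1 t (fun j => (v j, w j))
        have h2 := act_lin (LinearMap.snd S S S) β.1 t (fun j => (v j, w j))
        have h3 := act_lin (LinearMap.fst S S S + LinearMap.snd S S S) β.1 t (fun j => (v j, w j))
        exact h3.trans (funext fun j => (congrArg₂ (· + ·) (congrFun h1 j) (congrFun h2 j)).symm)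
      map_smul' := fun c v => act_lin (c • LinearMap.id) β.1 t v }
  map_one' := by
    ext1 v
    simp
  map_mul' a b := by
    ext1 v
    have : act S S n b (t, v) = (t, (act S S n b (t, v)).2) := Prod.ext (act_fst_pure b.2 _) rfl
    show (act S S n (a.1 * b.1) (t, v)).2 = (act S S n a (t, (act S S n b (t, v)).2)).2
    rw [map_mul, Equiv.Perm.mul_apply, ← this]

theorem ubHom_apply (t : ℕ → Sˣ) (β : PureBraid n) (v : ℕ → S) :
    ubHom n t β v = (act S S n β (t, v)).2 := rfl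

def ubW (n : ℕ) (t : ℕ → Sˣ) : Submodule S (ℕ → S) where
  carrier := {v | (∀ j, n ≤ j → v j = 0) ∧ ubForm n (t, v) = 0}
  zero_mem' := ⟨fun _ _ => rfl, by simp [ubForm]⟩
  add_mem' := fun {a b} ha hb => ⟨fun j hj => by simp [ha.1 j hj, hb.1 j hj], by
    have h1 := ha.2
    have h2 := hb.2
    simp only [ubForm, Pi.add_apply, mul_add, Finset.sum_add_distrib] at h1 h2 ⊢
    rw [h1, h2, add_zero]⟩
  smul_mem' := fun c a ha => ⟨fun j hj => by simp [ha.1 j hj], by
    have h1 := ha.2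
    simp only [ubForm, Pi.smul_apply, smul_eq_mul, mul_left_comm _ c, ← Finset.mul_sum] at h1 ⊢
    rw [h1, mul_zero]⟩

theorem ubW_inv (t : ℕ → Sˣ) (β : PureBraid n) : ubW n t ≤ (ubW n t).comap (ubHom n t β) := by
  intro v hv
  refine ⟨fun j hj => (ub_hi β.1 (t, v) hj).trans (hv.1 j hj), ?_⟩
  have := ub_form β.1 (t, v)
  rw [hv.2] at this
  rw [← this]
  exact congrArg (ubForm n) (Prod.ext (act_fst_pure β.2 (t, v)).symm rfl)

theorem ub_triv (t : ℕ → Sˣ) (ht : ∏ l ∈ Finset.range n, (t l : S) ≠ 1) (β : PureBraid n)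
    (h : ∀ v ∈ ubW n t, ubHom n t β v = v) (v : ℕ → S) : ubHom n t β v = v := by
  have tel : ∀ m, ∑ j ∈ Finset.range m, (∏ l ∈ Finset.range j, (t l : S)) * (1 - t j) =
      1 - ∏ l ∈ Finset.range m, (t l : S) := by
    intro m
    induction m with
    | zero => simp
    | succ m ih => rw [Finset.sum_range_succ, Finset.prod_range_succ, ih]; ring
  let c : S := ubForm n (t, v) / (1 - ∏ l ∈ Finset.range n, (t l : S))
  let w : ℕ → S := fun j => if j < n then c * (1 - t j) else v j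
  have hw : ubHom n t β w = w := by
    funext j
    by_cases hj : j < n
    · rw [ubHom_apply, ub_lo β.1 (t, w) c (fun j hj => if_pos hj) j hj, act_fst_pure β.2]
      exact (if_pos hj).symm
    · exact ub_hi β.1 (t, w) (by omega)
  have hv : v - w ∈ ubW n t := by
    refine ⟨fun j hj => by simp [w, not_lt.2 hj], ?_⟩
    have : ubForm n (t, v - w) = ubForm n (t, v) -
        c * ∑ j ∈ Finset.range n, (∏ l ∈ Finset.range j, (t l : S)) * (1 - t j) := by
      rw [Finset.mul_sum, ubForm, ubForm, ← Finset.sum_sub_distrib]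
      refine Finset.sum_congr rfl fun j hj => ?_
      simp only [Pi.sub_apply, w, if_pos (Finset.mem_range.1 hj)]
      ring
    rw [this, tel, div_mul_cancel₀ _ (sub_ne_zero.2 ht.symm), sub_self]
  have := h _ hv
  rw [map_sub, hw] at this
  exact sub_left_injective this

theorem ub_equiv (m : ℕ) (t : ℕ → Sˣ) : Nonempty (ubW (m + 1) t ≃ₗ[S] (Fin m → S)) := by
  let f : ubW (m + 1) t →ₗ[S] (Fin m → S) :=
    (LinearMap.funLeft S S (fun j : Fin m => j.val + 1)).comp (ubW (m + 1) t).subtype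
  have hf : ∀ v j, f v j = v.1 (j.val + 1) := fun _ _ => rfl
  refine ⟨LinearEquiv.ofBijective f ⟨(injective_iff_map_eq_zero f).2 fun v hv => ?_, fun x => ?_⟩⟩
  · have h1 : ∀ j, v.1 (j + 1) = 0 := fun j => by
      by_cases hj : j < m
      · exact congrFun hv ⟨j, hj⟩
      · exact v.2.1 _ (by omega)
    have h2 := v.2.2
    simp only [ubForm, Finset.sum_range_succ', h1, mul_zero, Finset.sum_const_zero,
      Finset.range_zero, Finset.prod_empty, one_mul, zero_add] at h2
    ext j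
    cases j with
    | zero => exact h2
    | succ j => exact h1 j
  · let y : ℕ → S := fun j => if h : j < m then x ⟨j, h⟩ else 0
    refine ⟨⟨fun j => Nat.casesOn j
      (-∑ j ∈ Finset.range m, (∏ l ∈ Finset.range (j + 1), (t l : S)) * y j) y, ?_, ?_⟩, ?_⟩
    · intro j hj
      obtain ⟨j, rfl⟩ : ∃ i, j = i + 1 := ⟨j - 1, by omega⟩
      exact dif_neg (by omega)
    · simp [ubForm, Finset.sum_range_succ']
    · funext j
      exact dif_pos j.2

end UB

theorem upper {n : ℕ} (hn : 1 ≤ n) (h : GassnerFaithful n) :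
    ∃ (L : Type u) (_ : Field L) (ρ : PureBraid n →* GL (Fin (n - 1)) L),
      Function.Injective ρ := by
  obtain ⟨m, rfl⟩ : ∃ m, n = m + 1 := ⟨n - 1, by omega⟩
  let L : Type u := ULift.{u} (FractionRing Laurent)
  let φ : Laurent →+* L := (ULift.ringEquiv.symm : FractionRing Laurent ≃+* L).toRingHom.comp
    (algebraMap Laurent (FractionRing Laurent))
  have hφ : Function.Injective φ :=
    ULift.ringEquiv.symm.injective.comp (IsFractionRing.injective Laurent _)
  let t : ℕ → Lˣ := fun i => Units.map φ.toMonoidHom (var i)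
  have ht : ∏ l ∈ Finset.range (m + 1), (t l : L) ≠ 1 := by
    intro h1
    have h2 : ∏ l ∈ Finset.range (m + 1), (var l : Laurent) = 1 := hφ (by
      rw [map_prod, map_one]
      exact h1)
    obtain ⟨ψ, hψ⟩ := exists_spec (S := ℚ) fun _ => Units.mk0 2 two_ne_zero
    have h3 := congrArg ψ h2
    have h4 : ∀ l, ψ (var l : Laurent) = 2 := fun l => congrArg Units.val (hψ l)
    rw [map_prod, map_one] at h3
    simp only [h4, Finset.prod_const, Finset.card_range] at h3
    exact absurd h3 (one_lt_pow₀ one_lt_two (Nat.succ_ne_zero m)).ne'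
  obtain ⟨e⟩ := ub_equiv m t
  let ρ0 : PureBraid (m + 1) →* End L (ubW (m + 1) t) :=
    Representation.subrepresentation (ubHom (m + 1) t) _ (ubW_inv t)
  let ψ : End L (ubW (m + 1) t) ≃ₐ[L] Matrix (Fin m) (Fin m) L :=
    (e.conjAlgEquiv L).trans LinearMap.toMatrixAlgEquiv'
  refine ⟨L, inferInstance, (ψ.toRingEquiv.toMonoidHom.comp ρ0).toHomUnits,
    (injective_iff_map_eq_one _).2 fun β hβ => Subtype.ext (h β β.2 fun v => ?_)⟩
  have h1 : ρ0 β = 1 := ψ.injective ((congrArg Units.val hβ).trans (map_one ψ).symm)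
  have h2 := ub_triv t ht β (fun w hw =>
    congrArg Subtype.val (LinearMap.congr_fun h1 ⟨w, hw⟩)) (fun j => φ (v j))
  have h3 := congrArg Prod.snd (act_map φ φ.toAddMonoidHom (fun c w => φ.map_mul c w) β.1 (var, v))
  exact funext fun j => hφ ((congrFun h3 j).symm.trans (congrFun h2 j))
end Rowub


end Pool.Agent.MP_b64966_al.PG
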