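import Pool.Agent.MP_b64966_al.PG.Lin

namespace Pool.Agent.MP_b64966_al.PG

open Module

universe u

variable {N : ℕ} {K : Type u} [Field K]

def LB (K : Type u) [Field K] (N n D : ℕ) : Prop :=
  ∀ (V : Type u) [AddCommGroup V] [Module K V] [FiniteDimensional K V]
    (R : BraidGroup N → End K V), IsRep (Ps N n) R → PF (Fs N (n - 1)) R → D ≤ finrank K V

theorem IsRep.mono {G : Type*} [Group G] {V : Type*} [AddCommGroup V] [Module K V]
    {H H' : Subgroup G} {R : G → End K V} (h : IsRep H R) (hh : H' ≤ H) : IsRep H' R :=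
  ⟨h.1, fun a ha b hb => h.2 a (hh ha) b (hh hb)⟩

theorem mem_cent {G : Type*} [Group G] {y g : G} :
    g ∈ Subgroup.centralizer ({y} : Set G) ↔ Commute y g := by
  rw [Subgroup.mem_centralizer_iff]
  simp [Commute, SemiconjBy]

theorem Fs_ex {k : ℕ} (h : 1 ≤ k) (hk : k < N) : ∃ f ∈ Fs N k, f ≠ 1 :=
  ⟨A N 0 k, Subgroup.subset_closure ⟨0, h, rfl⟩, A_ne h hk⟩

theorem drop [IsAlgClosed K] {n l D : ℕ} (hl : 3 ≤ l) (hln : l < n) (hn : n ≤ N) (hD : LB K N l D)
    {V : Type u} [AddCommGroup V] [Module K V] [FiniteDimensional K V]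
    {R : BraidGroup N → End K V} (hR : IsRep (Ps N n) R) (hF : PF (Fs N (n - 1)) R)
    {t : BraidGroup N} (ht : t ∈ Ps N n) (hc : ∀ g ∈ Bs N l, Commute t g) :
    ∃ c : K, finrank K (LinearMap.range (R t - c • (1 : End K V))) + D ≤ finrank K V := by
  have hle : Ps N l ≤ Ps N n ⊓ Subgroup.centralizer {t} := fun g hg =>
    ⟨Ps_mono hln.le hg, mem_cent.2 (hc g hg.1)⟩
  have hR' : IsRep (Ps N (n - 1 + 1)) R := by rwa [show n - 1 + 1 = n by omega]
  obtain ⟨W, _, _, _, R', h1, -, h3, -, c, hc'⟩ :=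
    subq (K := K) (V := V) (Ps N n ⊓ Subgroup.centralizer {t}) (Fs N (l - 1))
      ((Fs_le (by omega) (by omega)).trans hle) (Fs_prime (by omega) (by omega))
      (Fs_ex (by omega) (by omega)) (fun _ => 0) ∅ (by simp) t
      ⟨ht, mem_cent.2 (Commute.refl t)⟩ (fun g hg => mem_cent.1 hg.2) R (hR.mono inf_le_left)
      (pf_down (by omega) (by omega) (by omega) hR' hF) (by simp)
  have := hD W R' (h1.mono hle) h3
  exact ⟨c, by omega⟩

theorem lb_one [IsAlgClosed K] {n : ℕ} (h3 : 3 ≤ n) (hn : n ≤ N) : LB K N n (n - 1) := by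
  induction n, h3 using Nat.le_induction with
  | base =>
    intro V _ _ _ R hR hF
    by_contra hlt
    have h1 : finrank K V ≤ 1 := by omega
    obtain ⟨v, hv⟩ := finrank_le_one_iff.1 h1
    obtain ⟨c, hc⟩ := hv (R (A N 0 2) v)
    refine A_ne (N := N) (j := 0) (k := 2) (by omega) (by omega)
      (hF _ (Subgroup.subset_closure ⟨0, by omega, rfl⟩) ⟨c, ?_⟩)
    ext w
    obtain ⟨a, rfl⟩ := hv w
    simp [← hc, smul_smul, mul_comm]
  | succ n h3 ih =>
    intro V _ _ _ R hR hF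
    obtain ⟨y, hy, hy1, hyc⟩ := exists_y (N := N) (k := n) (by omega) (by omega)
    obtain ⟨c, hc⟩ := drop h3 (Nat.lt_succ_self n) hn (ih (by omega)) hR hF
      (Fs_le (Nat.lt_succ_self n) hn hy) hyc
    have : finrank K (LinearMap.range (R y - c • (1 : End K V))) ≠ 0 := by
      intro h0
      have := LinearMap.range_eq_bot.1 (Submodule.finrank_eq_zero.1 h0)
      exact hy1 (hF y hy ⟨c, sub_eq_zero.1 this⟩)
    omega

theorem rank_small [IsAlgClosed K] {n D : ℕ} (h5 : 5 ≤ n) (hn : n ≤ N) (hD : LB K N (n - 2) D)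
    {V : Type u} [AddCommGroup V] [Module K V] [FiniteDimensional K V]
    {R : BraidGroup N → End K V} (hR : IsRep (Ps N n) R) (hF : PF (Fs N (n - 1)) R)
    {g : BraidGroup N} (hg : g ∈ Bs N n) :
    ∃ c : K, finrank K (LinearMap.range (R (g * A N 0 1 * g⁻¹) - c • (1 : End K V))) + D
      ≤ finrank K V := by
  obtain ⟨e, he, hee⟩ := emb (N := N) (r := 1) hn (fun a => n - 2 + a) (by intro a _; omega)
    (by show n - 2 + 1 < n; omega)
  have h01 := hee 0 1 (by omega) le_rfl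
  simp only [add_zero] at h01
  have hge : g * e⁻¹ ∈ Bs N n := mul_mem hg (inv_mem he)
  have hR' : IsRep (Ps N (n - 1 + 1)) R := by rwa [show n - 1 + 1 = n by omega]
  have hge' : g * e⁻¹ ∈ Bs N (n - 1 + 1) := by rwa [show n - 1 + 1 = n by omega]
  obtain ⟨c, hc⟩ := drop (l := n - 2) (by omega) (by omega) hn hD (rep_tw hR hge)
    (pf_tw (by omega) (by omega) hR' hF hge') (t := A N (n - 2) (n - 2 + 1))
    (A_mem (by omega) (by omega) hn) (fun b hb => by
      rw [A_succ]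
      exact ((Bs_comm le_rfl hb).symm).pow_left 2)
  refine ⟨c, ?_⟩
  have : tw (g * e⁻¹) R (A N (n - 2) (n - 2 + 1)) = R (g * A N 0 1 * g⁻¹) := by
    rw [← h01]
    unfold tw
    congr 1
    group
  rwa [this] at hc

open Classical in
noncomputable def pick (P : K → Prop) : K := if h : ∃ c, c ≠ 0 ∧ P c then h.choose else 1

theorem pick_ne (P : K → Prop) : pick P ≠ 0 := by
  unfold pick
  split_ifs with h
  · exact h.choose_spec.1
  · exact one_ne_zero

theorem pick_spec {P : K → Prop} (h : ∃ c, c ≠ 0 ∧ P c) : P (pick P) := by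
  unfold pick
  rw [dif_pos h]
  exact h.choose_spec.2

section
variable {V : Type u} [AddCommGroup V] [Module K V] {G : Type*} [Group G] {H : Subgroup G}
  {R : G → End K V}

theorem IsRep.mul_inv (hR : IsRep H R) {p : G} (hp : p ∈ H) : R p * R p⁻¹ = 1 := by
  rw [← hR.2 p hp _ (inv_mem hp), mul_inv_cancel, hR.1]

theorem IsRep.inv_mul (hR : IsRep H R) {p : G} (hp : p ∈ H) : R p⁻¹ * R p = 1 := by
  rw [← hR.2 _ (inv_mem hp) p hp, inv_mul_cancel, hR.1]

theorem IsRep.conj (hR : IsRep H R) {p a : G} (hp : p ∈ H) (ha : a ∈ H) :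
    R (p * a * p⁻¹) = R p * R a * R p⁻¹ := by
  rw [hR.2 _ (mul_mem hp ha) _ (inv_mem hp), hR.2 _ hp _ ha]

theorem IsRep.conj_sub (hR : IsRep H R) {p a : G} (hp : p ∈ H) (ha : a ∈ H) (c : K) :
    R (p * a * p⁻¹) - c • (1 : End K V) = R p * (R a - c • (1 : End K V)) * R p⁻¹ := by
  rw [hR.conj hp ha, mul_sub, sub_mul, mul_smul_comm, mul_one, smul_mul_assoc, hR.mul_inv hp]

theorem IsRep.rank_conj [FiniteDimensional K V] (hR : IsRep H R) {p a : G} (hp : p ∈ H)
    (ha : a ∈ H) (c : K) :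
    finrank K (LinearMap.range (R (p * a * p⁻¹) - c • (1 : End K V))) ≤
      finrank K (LinearMap.range (R a - c • (1 : End K V))) := by
  rw [hR.conj_sub hp ha]
  generalize R a - c • (1 : End K V) = T
  calc finrank K (LinearMap.range (R p * T * R p⁻¹)) ≤ finrank K (LinearMap.range (R p * T)) :=
        Submodule.finrank_mono (LinearMap.range_comp_le_range _ _)
    _ ≤ finrank K (LinearMap.range T) := by
        rw [Module.End.mul_eq_comp, LinearMap.range_comp]
        exact Submodule.finrank_map_le _ _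

theorem k3_conj (hR : IsRep H R) {lam : G → K} {p c x y : G} (hp : p ∈ H) (hc : c ∈ H)
    (hx : x ∈ H) (hy : y ∈ H) (hl : lam (p * c * p⁻¹) = lam c)
    (h : K3 R lam (p * c * p⁻¹) (p * x * p⁻¹) (p * y * p⁻¹)) : K3 R lam c x y := by
  unfold K3 Nn at h ⊢
  rw [hl, hR.conj_sub hp hc, hR.conj hp hx, hR.conj hp hy] at h
  have e : ∀ T : End K V, R p⁻¹ * (R p * T) = T := fun T => by
    rw [← mul_assoc, hR.inv_mul hp, one_mul]
  have h2 := congrArg (fun T => R p⁻¹ * T * R p) h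
  simp only [sub_mul, mul_sub, mul_assoc, e, hR.inv_mul hp, mul_one, mul_zero, zero_mul] at h2 ⊢
  exact h2

end

theorem good_of [IsAlgClosed K] {n M r : ℕ} (h6 : 6 ≤ M) (hM : M ≤ n) (hn : n ≤ N)
    {V : Type u} [AddCommGroup V] [Module K V] [FiniteDimensional K V]
    {R : BraidGroup N → End K V} (hR : IsRep (Ps N n) R) (hF : PF (Fs N (n - 1)) R)
    (hr : ∀ g ∈ Bs N n, ∃ c : K,
      finrank K (LinearMap.range (R (g * A N 0 1 * g⁻¹) - c • (1 : End K V))) ≤ r)
    (hd : r < finrank K V) (hS : M ^ M * r < (n - 2) / 3) :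
    ∃ (W : Type u) (_ : AddCommGroup W) (_ : Module K W) (_ : FiniteDimensional K W)
      (R' : BraidGroup N → End K W) (lam : BraidGroup N → K), Good M R' lam := by
  let lam : BraidGroup N → K := fun a =>
    pick (fun c => finrank K (LinearMap.range (R a - c • (1 : End K V))) ≤ r)
  have lamc : ∀ p ∈ Ps N n, ∀ a ∈ Ps N n, lam (p * a * p⁻¹) = lam a := by
    intro p hp a ha
    refine congrArg pick (funext fun c => propext ⟨fun h => le_trans ?_ h,
      fun h => (hR.rank_conj hp ha c).trans h⟩)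
    have := hR.rank_conj (inv_mem hp) (mul_mem (mul_mem hp ha) (inv_mem hp)) c
    rwa [show p⁻¹ * (p * a * p⁻¹) * p⁻¹⁻¹ = a by group] at this
  have m01 : ∀ {l}, M ≤ l → l ≤ N → A N 0 1 ∈ Ps N l := fun h h' => A_mem (by omega) (by omega) h'
  have m23 : ∀ {l}, M ≤ l → l ≤ N → A N 2 3 ∈ Ps N l := fun h h' => A_mem (by omega) (by omega) h'
  have m34 : ∀ {l}, M ≤ l → l ≤ N → A N 3 4 ∈ Ps N l := fun h h' => A_mem (by omega) (by omega) h'
  have mY : ∀ {l}, M ≤ l → l ≤ N → A N 0 2 * A N 1 2 ∈ Ps N l := fun h h' =>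
    mul_mem (A_mem (by omega) (by omega) h') (A_mem (by omega) (by omega) h')
  have hrank : ∀ g ∈ Bs N n,
      finrank K (LinearMap.range (Nn (tw g R) (tw g lam) (A N 0 1))) ≤ r := by
    intro g hg
    obtain ⟨c, hc⟩ := hr g hg
    refine pick_spec (P := fun c => finrank K (LinearMap.range
      (R (g * A N 0 1 * g⁻¹) - c • (1 : End K V))) ≤ r) ⟨c, ?_, hc⟩
    rintro rfl
    have hp := conj_mem_Ps hg (m01 hM hn)
    have : LinearMap.range (R (g * A N 0 1 * g⁻¹)) = ⊤ := by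
      rw [LinearMap.range_eq_top]
      intro v
      exact ⟨R (g * A N 0 1 * g⁻¹)⁻¹ v, LinearMap.congr_fun (hR.mul_inv hp) v⟩
    rw [zero_smul, sub_zero, this, finrank_top] at hc
    omega
  obtain ⟨h, hh, hb⟩ := bad_le (K := K) (V := V) (r := r) hn
  have twtw : ∀ {α : Type u} (g e : BraidGroup N) (f : BraidGroup N → α),
      tw e (tw g f) = tw (g * e) f := fun g e f => funext fun b => by
    unfold tw
    congr 1
    group
  obtain ⟨g0, hg0, hgood⟩ := average (S := (n - 2) / 3) (r := r) hn hM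
    (fun g => ¬ (K3 (tw g R) (tw g lam) (A N 0 1) (A N 2 3) (A N 3 4) ∧
      K3 (tw g R) (tw g lam) (A N 0 1) (A N 2 3) (A N 0 2 * A N 1 2)))
    (by
      intro p hp g hg hbad hk
      have e : ∀ b, p * g * b * (p * g)⁻¹ = p * (g * b * g⁻¹) * p⁻¹ := fun b => by group
      have key : ∀ y ∈ Ps N n, K3 (tw (p * g) R) (tw (p * g) lam) (A N 0 1) (A N 2 3) y →
          K3 (tw g R) (tw g lam) (A N 0 1) (A N 2 3) y := by
        intro y hy h
        refine k3_conj (lam := lam) hR hp (conj_mem_Ps hg (m01 hM hn)) (conj_mem_Ps hg (m23 hM hn))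
          (conj_mem_Ps hg hy) (lamc p hp _ (conj_mem_Ps hg (m01 hM hn))) ?_
        rw [← e, ← e, ← e]
        exact h
      exact hbad ⟨key _ (m34 hM hn) hk.1, key _ (mY hM hn) hk.2⟩) h hh
    (by
      intro g hg T hT
      refine hb (tw g R) (tw g lam) (rep_tw hR hg) (hrank g hg) T fun s hs => ⟨(hT s hs).1, ?_⟩
      rw [twtw, twtw]
      exact (hT s hs).2) hS
  have hMN : M ≤ N := hM.trans hn
  have hR' : IsRep (Ps N (n - 1 + 1)) R := by rwa [show n - 1 + 1 = n by omega]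
  have hg0' : g0 ∈ Bs N (n - 1 + 1) := by rwa [show n - 1 + 1 = n by omega]
  obtain ⟨W, _, _, _, R', h1, h2, h3, h4, -⟩ :=
    subq (K := K) (V := V) (Ps N M) (Fs N (M - 1)) (Fs_le (by omega) hMN)
      (Fs_prime (by omega) (by omega)) (Fs_ex (by omega) (by omega)) (tw g0 lam)
      {x | ∃ e ∈ Bs N M, ∃ y, (y = A N 3 4 ∨ y = A N 0 2 * A N 1 2) ∧
        x = (e * A N 0 1 * e⁻¹, e * A N 2 3 * e⁻¹, e * y * e⁻¹)}
      (by
        rintro _ ⟨e, he, y, hy, rfl⟩
        refine ⟨conj_mem_Ps he (m01 le_rfl hMN), conj_mem_Ps he (m23 le_rfl hMN),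
          conj_mem_Ps he ?_⟩
        rcases hy with rfl | rfl
        · exact m34 le_rfl hMN
        · exact mY le_rfl hMN) 1 (one_mem _) (fun g _ => Commute.one_left g) (tw g0 R)
      ((rep_tw hR hg0).mono (Ps_mono hM))
      (pf_down (by omega) (by omega) (by omega) (rep_tw hR' hg0')
        (pf_tw (by omega) (by omega) hR' hF hg0'))
      (by
        rintro _ ⟨e, he, y, hy, rfl⟩
        have := not_not.1 (hgood e he)
        rw [← twtw, ← twtw] at this
        rcases hy with rfl | rfl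
        · exact this.1
        · exact this.2)
  refine ⟨W, _, _, inferInstance, R', tw g0 lam, h1, h2, h3, fun a => pick_ne _, ?_,
    fun e he => h4 _ ⟨e, he, _, Or.inl rfl, rfl⟩, fun e he => h4 _ ⟨e, he, _, Or.inr rfl, rfl⟩⟩
  intro p hp a ha
  have := lamc _ (conj_mem_Ps hg0 (Ps_mono hM hp)) _ (conj_mem_Ps hg0 (Ps_mono hM ha))
  unfold tw
  rw [← this]
  congr 1
  group

theorem no_good [IsAlgClosed K] {m M : ℕ} (hG : ¬ GassnerFaithful m) (h6 : 6 ≤ M) (hm : m < M)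
    (hM : M ≤ N) {V : Type u} [AddCommGroup V] [Module K V] [FiniteDimensional K V]
    {R : BraidGroup N → End K V} {lam : BraidGroup N → K} (h : Good M R lam) : False := by
  apply hG
  intro κ hκ htriv
  obtain ⟨ι, hι, hmem⟩ := exists_iota (N := N) (m := m) (by omega)
  obtain ⟨Z, hZ⟩ := star_of (by omega) hM h (stageA h6 hM h)
  obtain ⟨t, μ, v, hspan, hnf⟩ := star_nf (by omega) hZ
  have hB : ι κ ∈ Bs N (M - 1) := Bs_mono (by omega) (hmem κ)
  have hnat := iota_nat (K := K) (V := V) (by omega) ι hι κ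
  have h2 := nf_act (by omega) hM h hnf hB
  rw [hnat.2, act_triv hκ htriv] at h2
  have hP : ι κ ∈ Ps N M := ⟨Bs_mono (by omega) hB, by
    have : permHom m κ = 1 := hκ
    show permHom N (ι κ) = 1
    rw [hnat.1, this]⟩
  refine artin_faithful (k := M - 1) (by omega) (by omega) ι hι κ fun a ha => ?_
  have hA : A N a (M - 1) ∈ Ps N M := A_mem ha (by omega) hM
  have hAF : A N a (M - 1) ∈ Fs N (M - 1) := Subgroup.subset_closure ⟨a, ha, rfl⟩
  have hX : Xg (M - 1) R lam (ι κ) a = Xg (M - 1) R lam 1 a := by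
    refine LinearMap.ext_on hspan ?_
    rintro _ ⟨j, hj, rfl⟩
    rw [h2 a ha j hj, hnf a ha j hj]
  have hl : lam ((ι κ)⁻¹ * A N a (M - 1) * ι κ) = lam (A N a (M - 1)) := by
    simpa using h.lamc _ (inv_mem hP) _ hA
  unfold Xg at hX
  rw [hl] at hX
  simp only [inv_one, one_mul, mul_one] at hX
  have hX2 := smul_right_injective _ (inv_ne_zero (h.lam0 _)) hX
  have hc : (ι κ)⁻¹ * A N a (M - 1) * ι κ ∈ Fs N (M - 1) := by
    simpa using Fs_norm (by omega) (inv_mem hB) hAF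
  have h1 := h.pf _ (mul_mem hc (inv_mem hAF)) ⟨1, by
    rw [h.rep.2 _ (Fs_le (by omega) hM hc) _ (inv_mem hA), hX2, h.rep.mul_inv hA, one_smul]⟩
  have h3 : (ι κ)⁻¹ * A N a (M - 1) * ι κ = A N a (M - 1) := mul_inv_eq_one.1 h1
  show ι κ * A N a (M - 1) = A N a (M - 1) * ι κ
  conv_lhs => rw [← h3]
  group

theorem lb_quad [IsAlgClosed K] {m M : ℕ} (hG : ¬ GassnerFaithful m) (h6 : 6 ≤ M) (hm : m < M)
    (n : ℕ) (hn : n ≤ N) (V : Type u) [AddCommGroup V] [Module K V] [FiniteDimensional K V]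
    (R : BraidGroup N → End K V) (hR : IsRep (Ps N n) R) (hF : PF (Fs N (n - 1)) R) :
    n ^ 2 ≤ 24 * M ^ M * finrank K V + (M + 2) ^ 2 := by
  induction n using Nat.strong_induction_on generalizing V with
  | _ n ih =>
  by_cases hsm : n ≤ M + 2
  · exact (Nat.pow_le_pow_left hsm 2).trans (Nat.le_add_left _ _)
  have hex : ∃ e, 1 ≤ e ∧ (n - 2) ^ 2 ≤ 24 * M ^ M * e + (M + 2) ^ 2 := by
    refine ⟨(n - 2) ^ 2 + 1, by omega, ?_⟩
    have : 1 ≤ M ^ M := Nat.one_le_pow _ _ (by omega)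
    nlinarith
  classical
  have hD : LB K N (n - 2) (Nat.find hex) := by
    intro W _ _ _ R' h1 h2
    refine Nat.find_min' hex ⟨?_, ih (n - 2) (by omega) (by omega) W R' h1 h2⟩
    have := lb_one (K := K) (N := N) (n := n - 2) (by omega) (by omega) W R' h1 h2
    omega
  obtain ⟨hD1, hD2⟩ := Nat.find_spec hex
  generalize Nat.find hex = D at hD hD1 hD2
  have hr := fun g hg => rank_small (g := g) (by omega) hn hD hR hF hg
  have hDd : D ≤ finrank K V := by
    obtain ⟨c, hc⟩ := hr 1 (one_mem _)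
    omega
  obtain ⟨r, hrr⟩ := Nat.exists_eq_add_of_le hDd
  have hS : (n - 2) / 3 ≤ M ^ M * r := by
    by_contra hlt
    obtain ⟨W, _, _, _, R', lam, hg⟩ := good_of (r := r) h6 (by omega) hn hR hF
      (fun g hg => (hr g hg).imp fun c hc => by omega) (by omega) (by omega)
    exact no_good hG h6 hm (by omega) hg
  obtain ⟨k, rfl⟩ : ∃ k, n = k + 2 := ⟨n - 2, by omega⟩
  simp only [Nat.add_sub_cancel] at hS hD2
  rw [hrr]
  have : 4 * k + 4 ≤ 24 * (k / 3) := by omega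
  nlinarith

theorem from_rho {d : ℕ} (hN : 3 ≤ N) (ρ : PureBraid N →* GL (Fin d) K)
    (hρ : Function.Injective ρ) :
    ∃ R : BraidGroup N → End (AlgebraicClosure K) (Fin d → AlgebraicClosure K),
      IsRep (Ps N N) R ∧ PF (Fs N (N - 1)) R := by
  classical
  let φ : GL (Fin d) K →* End (AlgebraicClosure K) (Fin d → AlgebraicClosure K) :=
    ((Matrix.toLinAlgEquiv' (R := AlgebraicClosure K) (n := Fin d)).toRingEquiv.toMonoidHom.comp
      ((algebraMap K (AlgebraicClosure K)).mapMatrix (m := Fin d)).toMonoidHom).comp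
      (Units.coeHom _)
  have hφ : Function.Injective φ :=
    ((Matrix.toLinAlgEquiv' (R := AlgebraicClosure K) (n := Fin d)).injective.comp
      (Matrix.map_injective (algebraMap K (AlgebraicClosure K)).injective)).comp
      Units.val_injective
  let R : BraidGroup N → End (AlgebraicClosure K) (Fin d → AlgebraicClosure K) := fun g =>
    if h : g ∈ PureBraid N then φ (ρ ⟨g, h⟩) else 0
  have hRa : ∀ g (h : g ∈ PureBraid N), R g = φ (ρ ⟨g, h⟩) := fun g h => dif_pos h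
  have hR : IsRep (Ps N N) R := by
    refine ⟨?_, fun a ha b hb => ?_⟩
    · rw [hRa 1 (one_mem _)]
      exact (congrArg φ (map_one ρ)).trans (map_one φ)
    · rw [hRa a ha.2, hRa b hb.2, hRa _ (mul_mem ha.2 hb.2), ← map_mul, ← map_mul]
      rfl
  refine ⟨R, hR, fun f hf ⟨c, hc⟩ => ?_⟩
  by_contra h1
  have hle : Fs N (N - 1) ≤ Ps N N := Fs_le (by omega) le_rfl
  obtain ⟨e, he, hne⟩ := Fs_prime (N := N) (k := N - 1) (by omega) (by omega) f hf f hf h1 h1
  apply hne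
  have hb : e * f * e⁻¹ ∈ Ps N N := hle (mul_mem (mul_mem he hf) (inv_mem he))
  generalize e * f * e⁻¹ = b at hb
  have h2 : R (f * b) = R (b * f) := by
    rw [hR.2 _ (hle hf) _ hb, hR.2 _ hb _ (hle hf), hc]
    simp
  rw [hRa _ (mul_mem (hle hf) hb).2, hRa _ (mul_mem hb (hle hf)).2] at h2
  exact congrArg Subtype.val (hρ (hφ h2))

theorem main_lin {n d : ℕ} (hn : 3 ≤ n) (ρ : PureBraid n →* GL (Fin d) K)
    (hρ : Function.Injective ρ) : n - 1 ≤ d := by
  obtain ⟨R, h1, h2⟩ := from_rho hn ρ hρ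
  simpa using lb_one hn le_rfl _ R h1 h2

theorem main_quad {m : ℕ} (hG : ¬ GassnerFaithful m) : ∃ c : ℝ, 0 < c ∧ ∃ n₀ : ℕ, ∀ n, n₀ ≤ n →
    ∀ (d : ℕ) (K : Type u) [Field K] (ρ : PureBraid n →* GL (Fin d) K),
      Function.Injective ρ → c * (n : ℝ) ^ 2 ≤ d := by
  obtain ⟨M, h6, hm⟩ : ∃ M, 6 ≤ M ∧ m < M := ⟨m + 6, by omega, by omega⟩
  have hL : 0 < M ^ M := pow_pos (by omega) _
  have hL' : (0 : ℝ) < ((M ^ M : ℕ) : ℝ) := by exact_mod_cast hL
  refine ⟨1 / (48 * ((M ^ M : ℕ) : ℝ)), by positivity, 2 * (M + 2), fun n hn d K _ ρ hρ => ?_⟩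
  obtain ⟨R, h1, h2⟩ := from_rho (by omega) ρ hρ
  have h3 := lb_quad hG h6 hm n le_rfl _ R h1 h2
  simp only [finrank_fintype_fun_eq_card, Fintype.card_fin] at h3
  have h4 : n ^ 2 ≤ 48 * M ^ M * d := by nlinarith
  rw [div_mul_eq_mul_div, one_mul, div_le_iff₀ (by positivity)]
  have : ((n ^ 2 : ℕ) : ℝ) ≤ ((48 * M ^ M * d : ℕ) : ℝ) := by exact_mod_cast h4
  push_cast at this ⊢
  linarith

end Pool.Agent.MP_b64966_al.PG
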